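import Pool.Agent.H17.SP.Defs

namespace Pool.H17.SP

open Finset Filter
open Pool.Agent.H36.Split

variable {x : ℕ → ℝ} {τ σ : ℕ → ℕ} {d : ℕ → ℝ}

lemma Str.pos (h : Str x τ σ d) {t : ℕ} (ht : 1 ≤ t) : 0 < x t := h.cut.pos t ht

lemma Str.lt (h : Str x τ σ d) {i j : ℕ} (hi : 1 ≤ i) (hij : i < j) : x j < x i :=
  h.cut.lt_of_lt hi hij

lemma Str.le (h : Str x τ σ d) {i j : ℕ} (hi : 1 ≤ i) (hij : i ≤ j) : x j ≤ x i :=
  h.cut.le_of_le hi hij

lemma mem_Ch {t k : ℕ} : k ∈ Ch τ σ t ↔ k = 1 ∨ ∃ j, 1 ≤ j ∧ j < t ∧ (k = τ j ∨ k = σ j) := by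
  unfold Ch
  simp only [mem_insert, mem_union, mem_image, mem_Ico]
  constructor
  · rintro (h | ⟨j, hj, rfl⟩ | ⟨j, hj, rfl⟩)
    · exact Or.inl h
    · exact Or.inr ⟨j, hj.1, hj.2, Or.inl rfl⟩
    · exact Or.inr ⟨j, hj.1, hj.2, Or.inr rfl⟩
  · rintro (h | ⟨j, h1, h2, rfl | rfl⟩)
    · exact Or.inl h
    · exact Or.inr (Or.inl ⟨j, ⟨h1, h2⟩, rfl⟩)
    · exact Or.inr (Or.inr ⟨j, ⟨h1, h2⟩, rfl⟩)

lemma Ch_succ (t : ℕ) (ht : 1 ≤ t) :
    Ch τ σ (t + 1) = insert (τ t) (insert (σ t) (Ch τ σ t)) := by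
  ext k
  simp only [mem_insert, mem_Ch]
  constructor
  · rintro (h | ⟨j, h1, h2, h3⟩)
    · exact Or.inr (Or.inr (Or.inl h))
    · rcases Nat.lt_succ_iff_lt_or_eq.mp h2 with h4 | h4
      · exact Or.inr (Or.inr (Or.inr ⟨j, h1, h4, h3⟩))
      · subst h4
        rcases h3 with h3 | h3
        · exact Or.inl h3
        · exact Or.inr (Or.inl h3)
  · rintro (h | h | h | ⟨j, h1, h2, h3⟩)
    · exact Or.inr ⟨t, ht, by omega, Or.inl h⟩
    · exact Or.inr ⟨t, ht, by omega, Or.inr h⟩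
    · exact Or.inl h
    · exact Or.inr ⟨j, h1, by omega, h3⟩

lemma Str.tau_gt (h : Str x τ σ d) {t : ℕ} (ht : 1 ≤ t) : t < τ t := h.cut.lt1 t ht
lemma Str.sig_gt (h : Str x τ σ d) {t : ℕ} (ht : 1 ≤ t) : τ t < σ t := h.cut.lt2 t ht

lemma Str.tau_notMem (h : Str x τ σ d) {t : ℕ} (ht : 1 ≤ t) : τ t ∉ Ch τ σ t := by
  rw [mem_Ch]
  rintro (h1 | ⟨j, h1, h2, h3⟩)
  · have := h.tau_gt ht; omega
  · have := h.inj j t h1 h2
    rcases h3 with h3 | h3
    · exact this.1 h3.symm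
    · exact this.2.2.1 h3.symm

lemma Str.sig_notMem (h : Str x τ σ d) {t : ℕ} (ht : 1 ≤ t) : σ t ∉ Ch τ σ t := by
  rw [mem_Ch]
  rintro (h1 | ⟨j, h1, h2, h3⟩)
  · have := h.tau_gt ht; have := h.sig_gt ht; omega
  · have := h.inj j t h1 h2
    rcases h3 with h3 | h3
    · exact this.2.1 h3.symm
    · exact this.2.2.2 h3.symm

lemma Str.tau_notMem' (h : Str x τ σ d) {t : ℕ} (ht : 1 ≤ t) :
    τ t ∉ insert (σ t) (Ch τ σ t) := by
  rw [mem_insert, not_or]
  exact ⟨(h.sig_gt ht).ne, h.tau_notMem ht⟩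

lemma Ch_one : Ch τ σ 1 = {1} := by
  ext k
  rw [mem_Ch, mem_singleton]
  constructor
  · rintro (h | ⟨j, h1, h2, -⟩)
    · exact h
    · omega
  · exact Or.inl

lemma Str.card_Ch (h : Str x τ σ d) {t : ℕ} (ht : 1 ≤ t) : (Ch τ σ t).card = 2 * t - 1 := by
  induction t, ht using Nat.le_induction with
  | base => rw [Ch_one]; rfl
  | succ t ht ih =>
    rw [Ch_succ t ht, card_insert_of_notMem (h.tau_notMem' ht),
      card_insert_of_notMem (h.sig_notMem ht), ih]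
    omega

lemma Str.sum_Ch (h : Str x τ σ d) {t : ℕ} (ht : 1 ≤ t) :
    ∑ k ∈ Ch τ σ t, x k = 1 + P x t := by
  induction t, ht using Nat.le_induction with
  | base => rw [Ch_one]; simp [P, h.one]
  | succ t ht ih =>
    rw [Ch_succ t ht, sum_insert (h.tau_notMem' ht), sum_insert (h.sig_notMem ht), ih]
    unfold P
    rw [sum_Ico_succ_top ht, h.cut.split t ht]
    ring

lemma Str.W_eq (h : Str x τ σ d) {t : ℕ} (ht : 1 ≤ t) :
    W x τ σ t = P x (2 * t) - P x t - 1 := by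
  unfold W
  rw [h.sum_Ch ht]
  unfold P
  ring

lemma Str.one_le_of_mem (h : Str x τ σ d) {t k : ℕ} (hk : k ∈ Ch τ σ t) : 1 ≤ k := by
  rw [mem_Ch] at hk
  rcases hk with hk | ⟨j, h1, h2, h3⟩
  · omega
  · have := h.tau_gt h1; have := h.sig_gt h1
    rcases h3 with h3 | h3 <;> omega

lemma Ch_mono {s t : ℕ} (hst : s ≤ t) : Ch τ σ s ⊆ Ch τ σ t := by
  intro k hk
  rw [mem_Ch] at hk ⊢
  rcases hk with hk | ⟨j, h1, h2, h3⟩
  · exact Or.inl hk
  · exact Or.inr ⟨j, h1, by omega, h3⟩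

lemma tau_mem {s t : ℕ} (hs : 1 ≤ s) (hst : s < t) : τ s ∈ Ch τ σ t :=
  mem_Ch.mpr (Or.inr ⟨s, hs, hst, Or.inl rfl⟩)

lemma sig_mem {s t : ℕ} (hs : 1 ≤ s) (hst : s < t) : σ s ∈ Ch τ σ t :=
  mem_Ch.mpr (Or.inr ⟨s, hs, hst, Or.inr rfl⟩)

lemma Str.d_pos (h : Str x τ σ d) {n : ℕ} (hn : 2 ≤ n) : 0 < d n := by
  obtain ⟨m, rfl⟩ : ∃ m, n = m + 1 := ⟨n - 1, by omega⟩
  have h1 := h.step m (by omega)
  have h2 := h.pos (t := m + 1) (by omega)
  have h3 := h.pos (t := σ m) (by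
    have := h.tau_gt (t := m) (by omega); have := h.sig_gt (t := m) (by omega); omega)
  by_contra hcon
  have : d (m + 1) * x (σ m) ≤ 0 := mul_nonpos_of_nonpos_of_nonneg (not_lt.mp hcon) h3.le
  linarith

/-- Pieces present at time `t ≤ n` are not much smaller than `x t`. -/
lemma Str.le_mul (h : Str x τ σ d) {t n k : ℕ} (ht : 2 ≤ t) (htn : t ≤ n)
    (hk : k ∈ Ch τ σ t) : x t ≤ d n * x k := by
  have hk1 := h.one_le_of_mem hk
  have hxk := h.pos hk1
  rw [mem_Ch] at hk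
  rcases hk with hk | ⟨j, h1, h2, h3⟩
  · subst hk
    -- `x 2 ≤ d 2 * x (σ 1) ≤ d n * x 1`
    have e1 := h.step 1 le_rfl
    have e2 := h.le (i := 2) (j := t) (by omega) ht
    have e3 := h.dmono 2 n (by omega) (by omega)
    have s1 := h.tau_gt (t := 1) le_rfl
    have s2 := h.sig_gt (t := 1) le_rfl
    have e4 := h.le (i := 1) (j := σ 1) le_rfl (by omega)
    have e5 := h.d_pos (n := n) (by omega)
    have e6 := h.d_pos (n := 2) (by omega)
    have e7 := h.pos (t := σ 1) (by omega)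
    calc x t ≤ x 2 := e2
      _ ≤ d 2 * x (σ 1) := e1
      _ ≤ d n * x (σ 1) := mul_le_mul_of_nonneg_right e3 e7.le
      _ ≤ d n * x 1 := mul_le_mul_of_nonneg_left e4 e5.le
  · have s1 := h.tau_gt (t := j) h1
    have s2 := h.sig_gt (t := j) h1
    have e1 := h.step j h1
    have e2 := h.le (i := j + 1) (j := t) (by omega) (by omega)
    have e3 := h.dmono (j + 1) n (by omega) (by omega)
    have e5 := h.d_pos (n := n) (by omega)
    have e7 := h.pos (t := σ j) (by omega)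
    have e8 : x (σ j) ≤ x k := by
      rcases h3 with h3 | h3
      · rw [h3]; exact h.le (by omega) s2.le
      · rw [h3]
    calc x t ≤ x (j + 1) := e2
      _ ≤ d (j + 1) * x (σ j) := e1
      _ ≤ d n * x (σ j) := mul_le_mul_of_nonneg_right e3 e7.le
      _ ≤ d n * x k := mul_le_mul_of_nonneg_left e8 e5.le

lemma Str.lt_two (h : Str x τ σ d) {t k : ℕ} (ht : 1 ≤ t) (hk : k ∈ Ch τ σ t) :
    x t < 2 * x k := by
  have hxk := h.pos (h.one_le_of_mem hk)
  rcases ht.lt_or_eq with h2 | h2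
  · have h3 := h.le_mul (show 2 ≤ t by omega) le_rfl hk
    have h4 := h.dlt t ht
    nlinarith
  · subst h2
    rw [Ch_one, mem_singleton] at hk
    subst hk
    linarith

lemma Str.tau_lt_two (h : Str x τ σ d) {t : ℕ} (ht : 1 ≤ t) : x t < 2 * x (τ t) := by
  have h1 := h.cut.split t ht
  have h2 := h.lt (i := τ t) (j := σ t) (by have := h.tau_gt ht; omega) (h.sig_gt ht)
  linarith

lemma Str.sig_lt (h : Str x τ σ d) {t : ℕ} (ht : 1 ≤ t) : 2 * x (σ t) < x t := by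
  have h1 := h.cut.split t ht
  have h2 := h.lt (i := τ t) (j := σ t) (by have := h.tau_gt ht; omega) (h.sig_gt ht)
  linarith

lemma Str.sig_pos (h : Str x τ σ d) {t : ℕ} (ht : 1 ≤ t) : 1 ≤ σ t := by
  have := h.tau_gt ht; have := h.sig_gt ht; omega

lemma Str.tau_pos (h : Str x τ σ d) {t : ℕ} (ht : 1 ≤ t) : 1 ≤ τ t := by
  have := h.tau_gt ht; omega

/-- `x (σ t) > x (t + 1) / 2`. -/
lemma Str.lt_two_sig (h : Str x τ σ d) {t : ℕ} (ht : 1 ≤ t) : x (t + 1) < 2 * x (σ t) :=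
  h.lt_two (by omega) (sig_mem ht (by omega))

/-- Everything present at time `t` comes before `σ t`. -/
lemma Str.lt_sig (h : Str x τ σ d) {t k : ℕ} (ht : 1 ≤ t) (hk : k ∈ Ch τ σ t) : k < σ t := by
  have h1 := h.lt_two ht hk
  have h2 := h.sig_lt ht
  have hk1 := h.one_le_of_mem hk
  by_contra hcon
  have := h.le (h.sig_pos ht) (not_lt.mp hcon)
  linarith

/-- At most one of the pieces present at time `t + 1` is at most `x t / 2`. -/
lemma Str.lt_two' (h : Str x τ σ d) {t k : ℕ} (ht : 1 ≤ t) (hk : k ∈ Ch τ σ (t + 1))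
    (hne : k ≠ σ t) : x t < 2 * x k := by
  rw [Ch_succ t ht, mem_insert, mem_insert] at hk
  rcases hk with hk | hk | hk
  · rw [hk]; exact h.tau_lt_two ht
  · exact absurd hk hne
  · exact h.lt_two ht hk

/-- Counting: if `k` indices carry values `≥ a`, then `x k ≥ a`. -/
lemma Str.count (h : Str x τ σ d) {F : Finset ℕ} {a : ℝ} {k : ℕ} (hk : 1 ≤ k)
    (hF : ∀ j ∈ F, 1 ≤ j) (hFa : ∀ j ∈ F, a ≤ x j) (hc : k ≤ F.card) : a ≤ x k := by
  by_contra hcon
  have hsub : F ⊆ Finset.Ico 1 k := by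
    intro j hj
    rw [mem_Ico]
    refine ⟨hF j hj, ?_⟩
    by_contra h2
    have := h.le hk (not_lt.mp h2)
    have := hFa j hj
    linarith
  have := card_le_card hsub
  rw [Nat.card_Ico] at this
  omega

/-- `x (2 t) ≥ x t / 2`. -/
lemma Str.half (h : Str x τ σ d) {t : ℕ} (ht : 1 ≤ t) : x t ≤ 2 * x (2 * t) := by
  have h1 : x t / 2 ≤ x (2 * t) := by
    apply h.count (F := insert (τ t) (Ch τ σ t)) (by omega)
    · intro j hj
      rw [mem_insert] at hj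
      rcases hj with hj | hj
      · rw [hj]; exact h.tau_pos ht
      · exact h.one_le_of_mem hj
    · intro j hj
      rw [mem_insert] at hj
      rcases hj with hj | hj
      · rw [hj]; have := h.tau_lt_two ht; linarith
      · have := h.lt_two ht hj; linarith
    · rw [card_insert_of_notMem (h.tau_notMem ht), h.card_Ch ht]
      omega
  linarith

lemma Str.half_pow (h : Str x τ σ d) {t : ℕ} (ht : 1 ≤ t) (m : ℕ) :
    x t ≤ 2 ^ m * x (2 ^ m * t) := by
  induction m with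
  | zero => simp
  | succ m ih =>
    have h1 := h.half (t := 2 ^ m * t) (Nat.one_le_iff_ne_zero.mpr (by positivity))
    have h2 : (0 : ℝ) < 2 ^ m := by positivity
    calc x t ≤ 2 ^ m * x (2 ^ m * t) := ih
      _ ≤ 2 ^ m * (2 * x (2 * (2 ^ m * t))) := mul_le_mul_of_nonneg_left h1 h2.le
      _ = 2 ^ (m + 1) * x (2 ^ (m + 1) * t) := by
        rw [show 2 * (2 ^ m * t) = 2 ^ (m + 1) * t by ring]; ring

/-- Exchange inequality: if `F` and `Finset.Ico 1 k` have the same size. -/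
lemma Str.sum_ge (h : Str x τ σ d) {F : Finset ℕ} {k : ℕ} (hF : ∀ j ∈ F, 1 ≤ j)
    (hc : F.card = k - 1) : ∑ j ∈ F, x j ≤ ∑ j ∈ Finset.Ico 1 k, x j := by
  by_cases hk : k ≤ 1
  · have h0 : F.card = 0 := by omega
    rw [card_eq_zero.mp h0]
    simp [Finset.Ico_eq_empty_of_le hk]
  push Not at hk
  have e1 := sum_sdiff_sub_sum_sdiff (s₁ := F) (s₂ := Finset.Ico 1 k) (f := x)
  have c1 : (Finset.Ico 1 k \ F).card = (F \ Finset.Ico 1 k).card := by
    have a1 := card_sdiff_add_card_inter (Finset.Ico 1 k) F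
    have a2 := card_sdiff_add_card_inter F (Finset.Ico 1 k)
    rw [inter_comm F] at a2
    rw [Nat.card_Ico] at a1
    omega
  have g1 : ∑ j ∈ F \ Finset.Ico 1 k, x j ≤ (F \ Finset.Ico 1 k).card • x (k - 1) := by
    apply sum_le_card_nsmul
    intro j hj
    rw [Finset.mem_sdiff, mem_Ico] at hj
    have := hF j hj.1
    apply h.le (by omega) (by omega)
  have g2 : (Finset.Ico 1 k \ F).card • x (k - 1) ≤ ∑ j ∈ Finset.Ico 1 k \ F, x j := by
    apply card_nsmul_le_sum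
    intro j hj
    rw [Finset.mem_sdiff, mem_Ico] at hj
    apply h.le (by omega) (by omega)
  rw [c1] at g2
  linarith

lemma Str.W_nonneg (h : Str x τ σ d) {t : ℕ} (ht : 1 ≤ t) : 0 ≤ W x τ σ t := by
  have := h.sum_ge (F := Ch τ σ t) (k := 2 * t) (fun j hj => h.one_le_of_mem hj)
    (h.card_Ch ht)
  unfold W
  linarith

lemma W_eq_zero {t : ℕ} (hc : ¬ Crossing τ σ t) : W x τ σ t = 0 := by
  unfold Crossing at hc
  rw [not_not] at hc
  unfold W
  rw [hc, sub_self]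

lemma Str.crossing_of (h : Str x τ σ d) {t : ℕ} (ht : 1 ≤ t)
    (hs : ∀ k ∈ Ch τ σ t, k < 2 * t) : ¬ Crossing τ σ t := by
  unfold Crossing
  rw [not_not]
  apply eq_of_subset_of_card_le
  · intro k hk
    rw [mem_Ico]
    exact ⟨h.one_le_of_mem hk, hs k hk⟩
  · rw [h.card_Ch ht, Nat.card_Ico]

lemma Str.crossing_high (h : Str x τ σ d) {t : ℕ} (ht : 1 ≤ t) (hc : Crossing τ σ t) :
    ∃ z ∈ Ch τ σ t, 2 * t ≤ z := by
  by_contra hcon
  push Not at hcon
  exact h.crossing_of ht hcon hc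

lemma Str.crossing_low (h : Str x τ σ d) {t : ℕ} (ht : 1 ≤ t) (hc : Crossing τ σ t) :
    ∃ k u, 2 ≤ k ∧ k < 2 * t ∧ t ≤ u ∧ u < k ∧ (k = τ u ∨ k = σ u) := by
  by_contra hcon
  apply hc
  symm
  apply eq_of_subset_of_card_le
  · intro k hk
    rw [mem_Ico] at hk
    by_contra hnot
    have hk2 : 2 ≤ k := by
      by_contra h2
      have : k = 1 := by omega
      exact hnot (mem_Ch.mpr (Or.inl this))
    obtain ⟨u, hu, huk, he⟩ := h.cut.surj k hk2
    apply hcon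
    refine ⟨k, u, hk2, hk.2, ?_, huk, he⟩
    by_contra hut
    exact hnot (mem_Ch.mpr (Or.inr ⟨u, hu, by omega, he⟩))
  · rw [h.card_Ch ht, Nat.card_Ico]

/-- Two consecutive non crossing times give first in first out. -/
lemma Str.fifo_of (h : Str x τ σ d) {t : ℕ} (ht : 1 ≤ t) (h1 : ¬ Crossing τ σ t)
    (h2 : ¬ Crossing τ σ (t + 1)) : τ t = 2 * t ∧ σ t = 2 * t + 1 := by
  unfold Crossing at h1 h2
  rw [not_not] at h1 h2
  have e1 : τ t ∈ Finset.Ico 1 (2 * (t + 1)) := by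
    rw [← h2]; exact tau_mem ht (by omega)
  have e2 : σ t ∈ Finset.Ico 1 (2 * (t + 1)) := by
    rw [← h2]; exact sig_mem ht (by omega)
  have e3 := h.tau_notMem ht
  have e4 := h.sig_notMem ht
  rw [h1] at e3 e4
  rw [mem_Ico] at e1 e2 e3 e4
  have e5 := h.sig_gt ht
  omega

end Pool.H17.SP
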