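import Pool.Agent.H36.SplitLimsupMain

/-!
MP_eb524a_co, Q1: every infinite splitting strategy has positive liminf.
Definitions for the proof. `x` is the decreasing list of lengths, `τ t, σ t` are the two children
of the node `t` (Pool/Agent/H36/SplitTree.lean), `d n` is `discUpTo S n`.
-/

namespace Pool.H17.SP

open Finset Filter
open Pool.Agent.H36.Split

/-- The tree of a strategy all of whose discrepancies are `< 2`. -/
structure Str (x : ℕ → ℝ) (τ σ : ℕ → ℕ) (d : ℕ → ℝ) : Prop where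
  cut : CutSeq x τ σ
  one : x 1 = 1
  dmono : ∀ m n, 1 ≤ m → m ≤ n → d m ≤ d n
  dlt : ∀ n, 1 ≤ n → d n < 2
  step : ∀ t, 1 ≤ t → x (t + 1) ≤ d (t + 1) * x (σ t)
  inj : ∀ s t, 1 ≤ s → s < t → τ s ≠ τ t ∧ τ s ≠ σ t ∧ σ s ≠ τ t ∧ σ s ≠ σ t

/-- The node `1` and all children of the nodes `1, ..., t - 1`. -/
def Ch (τ σ : ℕ → ℕ) (t : ℕ) : Finset ℕ :=
  insert 1 ((Finset.Ico 1 t).image τ ∪ (Finset.Ico 1 t).image σ)

/-- The sum of the first `t - 1` lengths. -/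
noncomputable def P (x : ℕ → ℝ) (t : ℕ) : ℝ := ∑ j ∈ Finset.Ico 1 t, x j

/-- The waste at time `t`. -/
noncomputable def W (x : ℕ → ℝ) (τ σ : ℕ → ℕ) (t : ℕ) : ℝ :=
  ∑ k ∈ Finset.Ico 1 (2 * t), x k - ∑ k ∈ Ch τ σ t, x k

/-- The time `t` is crossing. -/
def Crossing (τ σ : ℕ → ℕ) (t : ℕ) : Prop := Ch τ σ t ≠ Finset.Ico 1 (2 * t)

/-- The element `b` of `ν 2^ℤ` with `b ≤ s < 2 b`. -/
noncomputable def bas (ν s : ℝ) : ℝ := ν * (2 : ℝ) ^ (Int.log 2 (s / ν))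

/-- The limit profile. -/
noncomputable def ell (ν s : ℝ) : ℝ :=
  4 * Real.log 2 / bas ν s * Real.exp (-(Real.log 2 * s / bas ν s))

/-- The slope of the supporting line of `ell`. -/
noncomputable def Aa (ν s : ℝ) : ℝ := Real.log 2 / bas ν s * ell ν s

/-- The mass of the profile on `[t, t + 1]`. -/
noncomputable def uu (ν : ℝ) (t : ℕ) : ℝ := ∫ s in (t : ℝ)..((t : ℝ) + 1), ell ν s

/-- The strategy together with its limit profile and its potential `q`. -/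
structure Lim (x : ℕ → ℝ) (τ σ : ℕ → ℕ) (d : ℕ → ℝ) (ν : ℝ) (q : ℕ → ℝ) : Prop where
  str : Str x τ σ d
  nu : 0 < ν
  X1 : ∀ t : ℕ, 1 ≤ t → x t ≤ ell ν t
  q0 : ∀ t, 1 ≤ t → 0 ≤ q t
  qlim : Tendsto q atTop (nhds 0)
  qW : ∀ t, 1 ≤ t → q t = q (2 * t) + W x τ σ t
  qstep : ∀ t, 1 ≤ t → q (t + 1) = q t + uu ν t - x t

/-- `n` is near perfect: `d n ≤ 2 exp (-(log 2) δ)`, where `δ` is the inverse of the seam `w`
up to the relative error `e`, and `n` is about `2 w`. -/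
structure Near (d : ℕ → ℝ) (ν : ℝ) (n : ℕ) (w δ e : ℝ) : Prop where
  n1 : 1 ≤ n
  seam : ∃ g : ℤ, w = ν * (2 : ℝ) ^ g
  w0 : 0 < w
  δ0 : 0 < δ
  le : 1 - e ≤ w * δ
  ge : w * δ ≤ 1 + e
  dn : d n ≤ 2 * Real.exp (-(Real.log 2 * δ))
  nw : (1 - e) * (2 * w) ≤ n

end Pool.H17.SP
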