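import Pool.Agent.H17.SP.Defs

/-!
Elementary facts on the profile `ell ν s = (4 c / b) exp (- c s / b)`, `c = log 2`,
`b = bas ν s = ν 2^g`, `g = ⌊log2 (s/ν)⌋`.
-/

namespace Pool.H17.SP

open Finset Filter
open Pool.Agent.H36.Split

variable {ν s s' : ℝ}

lemma bas_pos (hν : 0 < ν) (s : ℝ) : 0 < bas ν s := by
  unfold bas; positivity

lemma bas_le (hν : 0 < ν) (hs : 0 < s) : bas ν s ≤ s := by
  unfold bas
  have h := Int.zpow_log_le_self (b := 2) (r := s / ν) (by norm_num) (by positivity)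
  have h2 : ((2 : ℕ) : ℝ) = 2 := by norm_num
  rw [h2, le_div_iff₀ hν] at h
  linarith

lemma lt_bas (hν : 0 < ν) (hs : 0 < s) : s < 2 * bas ν s := by
  unfold bas
  have h := Int.lt_zpow_succ_log_self (b := 2) (by norm_num) (s / ν)
  have h2 : ((2 : ℕ) : ℝ) = 2 := by norm_num
  rw [h2, div_lt_iff₀ hν, zpow_add₀ (by norm_num), zpow_one] at h
  linarith

lemma bas_eq (hν : 0 < ν) {g : ℤ} (h1 : ν * (2 : ℝ) ^ g ≤ s) (h2 : s < 2 * (ν * (2 : ℝ) ^ g)) :
    bas ν s = ν * (2 : ℝ) ^ g := by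
  have hs : 0 < s := lt_of_lt_of_le (by positivity) h1
  have a1 := bas_le hν hs
  have a2 := lt_bas hν hs
  unfold bas at a1 a2 ⊢
  set k := Int.log 2 (s / ν) with hk
  have b1 : (2 : ℝ) ^ k < 2 ^ (g + 1) := by
    rw [zpow_add₀ (by norm_num), zpow_one]
    have : ν * (2 : ℝ) ^ k < ν * (2 ^ g * 2) := by linarith
    exact lt_of_mul_lt_mul_left this hν.le
  have b2 : (2 : ℝ) ^ g < 2 ^ (k + 1) := by
    rw [zpow_add₀ (by norm_num), zpow_one]
    have : ν * (2 : ℝ) ^ g < ν * (2 ^ k * 2) := by linarith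
    exact lt_of_mul_lt_mul_left this hν.le
  have c1 := (zpow_lt_zpow_iff_right₀ (show (1 : ℝ) < 2 by norm_num)).mp b1
  have c2 := (zpow_lt_zpow_iff_right₀ (show (1 : ℝ) < 2 by norm_num)).mp b2
  have : k = g := by omega
  rw [this]

lemma bas_two (hν : 0 < ν) (hs : 0 < s) : bas ν (2 * s) = 2 * bas ν s := by
  have a1 := bas_le hν hs
  have a2 := lt_bas hν hs
  unfold bas at a1 a2
  set k := Int.log 2 (s / ν) with hk
  have h := bas_eq (s := 2 * s) (g := k + 1) hν
    (by rw [zpow_add₀ (by norm_num), zpow_one]; linarith)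
    (by rw [zpow_add₀ (by norm_num), zpow_one]; linarith)
  rw [h, zpow_add₀ (by norm_num), zpow_one]
  unfold bas
  rw [← hk]
  ring

lemma ell_pos (hν : 0 < ν) (s : ℝ) : 0 < ell ν s := by
  have := bas_pos hν s
  have := log_two_pos
  unfold ell; positivity

lemma Aa_pos (hν : 0 < ν) (s : ℝ) : 0 < Aa ν s := by
  have := bas_pos hν s
  have := log_two_pos
  have := ell_pos hν s
  unfold Aa; positivity

lemma ell_two (hν : 0 < ν) (hs : 0 < s) : ell ν (2 * s) = ell ν s / 2 := by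
  unfold ell
  rw [bas_two hν hs]
  have hb := bas_pos hν s
  have h1 : Real.log 2 * (2 * s) / (2 * bas ν s) = Real.log 2 * s / bas ν s := by
    field_simp
  rw [h1]
  field_simp

lemma ell_two_pow (hν : 0 < ν) (hs : 0 < s) (m : ℕ) :
    ell ν (2 ^ m * s) = ell ν s / 2 ^ m := by
  induction m with
  | zero => simp
  | succ m ih =>
    have : (2 : ℝ) ^ (m + 1) * s = 2 * (2 ^ m * s) := by ring
    rw [this, ell_two hν (by positivity), ih, pow_succ]
    field_simp

lemma Aa_two (hν : 0 < ν) (hs : 0 < s) : Aa ν (2 * s) = Aa ν s / 4 := by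
  unfold Aa
  rw [ell_two hν hs, bas_two hν hs]
  have hb := bas_pos hν s
  field_simp
  ring

/-- `ell` is the maximum over all dyadic scales. -/
lemma ell_ge (hν : 0 < ν) (hs : 0 < s) (g : ℤ) :
    4 * Real.log 2 / (ν * (2 : ℝ) ^ g) * Real.exp (-(Real.log 2 * s / (ν * (2 : ℝ) ^ g))) ≤
      ell ν s := by
  have hb := bas_pos hν s
  have h1 := bas_le hν hs
  have h2 := lt_bas hν hs
  unfold ell
  have hbd : bas ν s = ν * (2 : ℝ) ^ (Int.log 2 (s / ν)) := rfl
  set b := bas ν s with hb'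
  set k := Int.log 2 (s / ν) with hk
  have hc := log_two_pos
  set c := Real.log 2 with hcd
  -- r = s / b
  set r := s / b with hr
  have hr1 : 1 ≤ r := by rw [hr, le_div_iff₀ hb]; linarith
  have hr2 : r ≤ 2 := by rw [hr, div_le_iff₀ hb]; linarith
  have hsr : s = r * b := by rw [hr]; field_simp
  have hpow : ∀ i : ℤ, (2 : ℝ) ^ i = Real.exp (c * i) := by
    intro i
    rw [hcd, ← Real.rpow_intCast, Real.rpow_def_of_pos (by norm_num)]
  have hg : ν * (2 : ℝ) ^ g = b * (2 : ℝ) ^ (g - k) := by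
    rw [hbd, mul_assoc, ← zpow_add₀ (by norm_num)]
    congr 2
    ring
  have hmain : r * (1 - (2 : ℝ) ^ (-(g - k))) ≤ ((g - k : ℤ) : ℝ) := by
    rcases le_or_gt 0 (g - k) with hi | hi
    · obtain ⟨m, hm⟩ := Int.eq_ofNat_of_zero_le hi
      rw [hm]
      rw [zpow_neg, zpow_natCast]
      push_cast
      rcases Nat.lt_or_ge m 2 with hm2 | hm2
      · interval_cases m
        · norm_num
        · norm_num
          linarith
      · have hm3 : (2 : ℝ) ≤ m := by exact_mod_cast hm2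
        have : (0 : ℝ) ≤ ((2 : ℝ) ^ m)⁻¹ := by positivity
        nlinarith
    · obtain ⟨m, hm⟩ := Int.eq_ofNat_of_zero_le (show (0 : ℤ) ≤ -(g - k) by omega)
      have hm' : ((g - k : ℤ) : ℝ) = -(m : ℝ) := by
        have : g - k = -(m : ℤ) := by omega
        rw [this]; push_cast; ring
      rw [hm, hm', zpow_natCast]
      have h3 : (m : ℝ) + 1 ≤ 2 ^ m := by
        have := one_add_mul_le_pow (show (-2 : ℝ) ≤ 1 by norm_num) m
        norm_num at this
        linarith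
      have h4 : (0 : ℝ) ≤ m := Nat.cast_nonneg m
      nlinarith
  rw [hg]
  have e1 : 4 * c / (b * (2 : ℝ) ^ (g - k)) *
      Real.exp (-(c * s / (b * (2 : ℝ) ^ (g - k)))) =
      4 * c / b * Real.exp (-(c * ((g - k : ℤ) : ℝ)) - c * (r * (2 : ℝ) ^ (-(g - k)))) := by
    rw [show -(c * ((g - k : ℤ) : ℝ)) - c * (r * (2 : ℝ) ^ (-(g - k))) =
      -(c * ((g - k : ℤ) : ℝ)) + -(c * (r * (2 : ℝ) ^ (-(g - k)))) by ring, Real.exp_add]
    have e2 : Real.exp (-(c * ((g - k : ℤ) : ℝ))) = ((2 : ℝ) ^ (g - k))⁻¹ := by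
      rw [Real.exp_neg, hpow (g - k)]
    rw [e2, hsr, zpow_neg]
    have : (2 : ℝ) ^ (g - k) ≠ 0 := by positivity
    have e3 : c * (r * b) / (b * (2 : ℝ) ^ (g - k)) = c * (r * ((2 : ℝ) ^ (g - k))⁻¹) := by
      field_simp
    rw [e3]
    field_simp
  rw [e1]
  apply mul_le_mul_of_nonneg_left _ (by positivity)
  apply Real.exp_le_exp.mpr
  have e4 : c * s / b = c * r := by rw [hr]; ring
  rw [e4]
  nlinarith

lemma ell_support (hν : 0 < ν) (hs : 0 < s) (hs' : 0 < s') :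
    ell ν s - (s' - s) * Aa ν s ≤ ell ν s' := by
  have h := ell_ge hν hs' (Int.log 2 (s / ν))
  refine le_trans ?_ h
  have hb := bas_pos hν s
  have e0 : ν * (2 : ℝ) ^ (Int.log 2 (s / ν)) = bas ν s := rfl
  rw [e0]
  unfold Aa ell
  set b := bas ν s with hbd
  have e1 : Real.exp (-(Real.log 2 * s' / b)) =
      Real.exp (-(Real.log 2 * s / b)) * Real.exp (-(Real.log 2 * (s' - s) / b)) := by
    rw [← Real.exp_add]
    congr 1
    field_simp
    ring
  have e2 := Real.add_one_le_exp (-(Real.log 2 * (s' - s) / b))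
  rw [e1]
  have hL := log_two_pos
  have e3 : 0 < 4 * Real.log 2 / b * Real.exp (-(Real.log 2 * s / b)) := by positivity
  have e4 := mul_le_mul_of_nonneg_left e2 e3.le
  refine le_trans (le_of_eq ?_) (e4.trans (le_of_eq ?_))
  · ring
  · ring

lemma ell_anti (hν : 0 < ν) (hs : 0 < s) (h : s ≤ s') : ell ν s' ≤ ell ν s := by
  have h1 := ell_support (s := s') (s' := s) hν (by linarith) hs
  have h2 := Aa_pos hν s'
  nlinarith

lemma Aa_anti (hν : 0 < ν) (hs : 0 < s) (h : s ≤ s') : Aa ν s' ≤ Aa ν s := by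
  rcases h.lt_or_eq with h | h
  · have h1 := ell_support (s := s') (s' := s) hν (by linarith) hs
    have h2 := ell_support (s := s) (s' := s') hν hs (by linarith)
    by_contra hcon
    push Not at hcon
    nlinarith
  · rw [h]

lemma ell_le (hν : 0 < ν) (hs : 0 < s) : ell ν s ≤ 4 / s := by
  have hb := bas_pos hν s
  have hc := log_two_pos
  unfold ell
  set b := bas ν s with hb'
  set y := Real.log 2 * s / b with hy
  have hy0 : 0 < y := by positivity
  have h1 : y ≤ Real.exp y := by have := Real.add_one_le_exp y; linarith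
  have h2 : 4 * Real.log 2 / b = 4 / s * y := by rw [hy]; field_simp
  rw [h2]
  have h3 : y * Real.exp (-y) ≤ 1 := by
    rw [Real.exp_neg, ← div_eq_mul_inv, div_le_one (Real.exp_pos _)]
    exact h1
  have h4 : 0 < 4 / s := by positivity
  nlinarith

lemma bas_scale (hν : 0 < ν) (hs : 0 < s) (g : ℤ) : bas (ν * (2 : ℝ) ^ g) s = bas ν s := by
  have h1 := bas_le hν hs
  have h2 := lt_bas hν hs
  have hbd : bas ν s = ν * (2 : ℝ) ^ (Int.log 2 (s / ν)) := rfl
  set k := Int.log 2 (s / ν) with hk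
  have h3 : ν * (2 : ℝ) ^ g * (2 : ℝ) ^ (k - g) = ν * (2 : ℝ) ^ k := by
    rw [mul_assoc, ← zpow_add₀ (by norm_num)]
    congr 2
    ring
  have h4 := bas_eq (ν := ν * (2 : ℝ) ^ g) (s := s) (g := k - g) (by positivity)
    (by rw [h3, ← hbd]; exact h1) (by rw [h3, ← hbd]; exact h2)
  rw [h4, h3, hbd]

lemma ell_scale (hν : 0 < ν) (hs : 0 < s) (g : ℤ) : ell (ν * (2 : ℝ) ^ g) s = ell ν s := by
  unfold ell
  rw [bas_scale hν hs g]

lemma exp_le_aux {y a : ℝ} (h1 : y < 1) (h2 : 1 ≤ a * (1 - y)) : Real.exp y ≤ a := by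
  have h3 := Real.add_one_le_exp (-y)
  have h4 : Real.exp y * Real.exp (-y) = 1 := by rw [← Real.exp_add]; simp
  have h5 := Real.exp_pos y
  have h6 : Real.exp y * (1 - y) ≤ 1 := by
    calc Real.exp y * (1 - y) ≤ Real.exp y * Real.exp (-y) := by
          apply mul_le_mul_of_nonneg_left _ h5.le
          linarith
      _ = 1 := h4
  by_contra hcon
  push Not at hcon
  have : a * (1 - y) < Real.exp y * (1 - y) := mul_lt_mul_of_pos_right hcon (by linarith)
  linarith

/-- Comparison of parameters. -/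
lemma ell_comp (hν : 0 < ν) (hs : 0 < s) {ρ e : ℝ} (he : 0 ≤ e) (he1 : e ≤ 1 / 4)
    (h1 : 1 - e ≤ ρ) (h2 : ρ ≤ 1 + e) : ell ν s ≤ (1 + 4 * e) * ell (ν * ρ) s := by
  have hρ : 0 < ρ := by linarith
  have hb := bas_pos hν s
  have hc := log_two_pos
  have hc2 : Real.log 2 ≤ 7 / 10 := by have := Real.log_two_lt_d9; linarith
  have b1 := bas_le hν hs
  have b2 := lt_bas hν hs
  have hbd : bas ν s = ν * (2 : ℝ) ^ (Int.log 2 (s / ν)) := rfl
  have h := ell_ge (ν := ν * ρ) (s := s) (by positivity) hs (Int.log 2 (s / ν))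
  have e1 : ν * ρ * (2 : ℝ) ^ (Int.log 2 (s / ν)) = bas ν s * ρ := by rw [hbd]; ring
  rw [e1] at h
  have h3 : ell ν s ≤ (1 + 4 * e) * (4 * Real.log 2 / (bas ν s * ρ) *
      Real.exp (-(Real.log 2 * s / (bas ν s * ρ)))) := by
    unfold ell
    set b := bas ν s with hb'
    set y := Real.log 2 * s / b with hy
    have hyb : y ≤ 7 / 5 := by
      rw [hy, div_le_iff₀ hb]
      nlinarith
    have hy0 : 0 < y := by positivity
    have e2 : Real.log 2 * s / (b * ρ) = y / ρ := by rw [hy]; field_simp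
    have e3 : 4 * Real.log 2 / (b * ρ) = 4 * Real.log 2 / b / ρ := by field_simp
    rw [e2, e3]
    have e4 : Real.exp (-y) = Real.exp (-(y / ρ)) * Real.exp (y * (1 / ρ - 1)) := by
      rw [← Real.exp_add]; congr 1; ring
    rw [e4]
    have h4 : Real.exp (y * (1 / ρ - 1)) ≤ (1 + 4 * e) / ρ := by
      rw [le_div_iff₀ hρ]
      rcases le_or_gt 1 ρ with h5 | h5
      · have h6 : Real.exp (y * (1 / ρ - 1)) ≤ 1 := by
          rw [Real.exp_le_one_iff]
          have : 1 / ρ ≤ 1 := by rw [div_le_one hρ]; exact h5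
          nlinarith
        nlinarith
      · have h7 : 1 / ρ - 1 ≤ 4 / 3 * e := by
          rw [sub_le_iff_le_add, div_le_iff₀ hρ]
          nlinarith
        have h8 : 0 ≤ 1 / ρ - 1 := by
          have : 1 ≤ 1 / ρ := by rw [le_div_iff₀ hρ]; linarith
          linarith
        have h9 : y * (1 / ρ - 1) ≤ 28 / 15 * e := by nlinarith
        have h6 : Real.exp (y * (1 / ρ - 1)) ≤ 1 + 4 * e := by
          apply exp_le_aux
          · linarith
          · nlinarith
        have h10 := Real.exp_pos (y * (1 / ρ - 1))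
        nlinarith
    have h11 : 0 < 4 * Real.log 2 / b * Real.exp (-(y / ρ)) := by positivity
    calc 4 * Real.log 2 / b * (Real.exp (-(y / ρ)) * Real.exp (y * (1 / ρ - 1)))
        = 4 * Real.log 2 / b * Real.exp (-(y / ρ)) * Real.exp (y * (1 / ρ - 1)) := by ring
      _ ≤ 4 * Real.log 2 / b * Real.exp (-(y / ρ)) * ((1 + 4 * e) / ρ) :=
          mul_le_mul_of_nonneg_left h4 h11.le
      _ = (1 + 4 * e) * (4 * Real.log 2 / b / ρ * Real.exp (-(y / ρ))) := by ring
  exact h3.trans (mul_le_mul_of_nonneg_left h (by linarith))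

lemma ell_comp' (hν : 0 < ν) (hs : 0 < s) {ρ e : ℝ} (he : 0 ≤ e) (he1 : e ≤ 1 / 4)
    (h1 : 1 - e ≤ ρ) (h2 : ρ ≤ 1 + e) : ell (ν * ρ) s ≤ (1 + 4 * e) * ell ν s := by
  have hρ : 0 < ρ := by linarith
  have hνρ : 0 < ν * ρ := by positivity
  have hb := bas_pos hνρ s
  have hc := log_two_pos
  have hc2 : Real.log 2 ≤ 7 / 10 := by have := Real.log_two_lt_d9; linarith
  have b1 := bas_le hνρ hs
  have b2 := lt_bas hνρ hs
  have hbd : bas (ν * ρ) s = ν * ρ * (2 : ℝ) ^ (Int.log 2 (s / (ν * ρ))) := rfl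
  have h := ell_ge (ν := ν) (s := s) hν hs (Int.log 2 (s / (ν * ρ)))
  have e1 : ν * (2 : ℝ) ^ (Int.log 2 (s / (ν * ρ))) = bas (ν * ρ) s / ρ := by
    rw [hbd]; field_simp
  rw [e1] at h
  have h3 : ell (ν * ρ) s ≤ (1 + 4 * e) * (4 * Real.log 2 / (bas (ν * ρ) s / ρ) *
      Real.exp (-(Real.log 2 * s / (bas (ν * ρ) s / ρ)))) := by
    unfold ell
    set b := bas (ν * ρ) s with hb'
    set y := Real.log 2 * s / b with hy
    have hyb : y ≤ 7 / 5 := by
      rw [hy, div_le_iff₀ hb]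
      nlinarith
    have hy0 : 0 < y := by positivity
    have e2 : Real.log 2 * s / (b / ρ) = y * ρ := by rw [hy]; field_simp
    have e3 : 4 * Real.log 2 / (b / ρ) = 4 * Real.log 2 / b * ρ := by field_simp
    rw [e2, e3]
    have e4 : Real.exp (-y) = Real.exp (-(y * ρ)) * Real.exp (y * (ρ - 1)) := by
      rw [← Real.exp_add]; congr 1; ring
    rw [e4]
    have h4 : Real.exp (y * (ρ - 1)) ≤ (1 + 4 * e) * ρ := by
      rcases le_or_gt ρ 1 with h5 | h5
      · have h6 : Real.exp (y * (ρ - 1)) ≤ 1 := by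
          rw [Real.exp_le_one_iff]
          nlinarith
        nlinarith
      · have h9 : y * (ρ - 1) ≤ 7 / 5 * e := by nlinarith
        have h6 : Real.exp (y * (ρ - 1)) ≤ 1 + 4 * e := by
          apply exp_le_aux
          · linarith
          · nlinarith
        nlinarith
    have h11 : 0 < 4 * Real.log 2 / b * Real.exp (-(y * ρ)) := by positivity
    calc 4 * Real.log 2 / b * (Real.exp (-(y * ρ)) * Real.exp (y * (ρ - 1)))
        = 4 * Real.log 2 / b * Real.exp (-(y * ρ)) * Real.exp (y * (ρ - 1)) := by ring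
      _ ≤ 4 * Real.log 2 / b * Real.exp (-(y * ρ)) * ((1 + 4 * e) * ρ) :=
          mul_le_mul_of_nonneg_left h4 h11.le
      _ = (1 + 4 * e) * (4 * Real.log 2 / b * ρ * Real.exp (-(y * ρ))) := by ring
  exact h3.trans (mul_le_mul_of_nonneg_left h (by linarith))

/-- On `[w, 2 w)` the slope is `(c / w) ell`. -/
lemma Aa_seam (hν : 0 < ν) {w : ℝ} (hw : ∃ g : ℤ, w = ν * (2 : ℝ) ^ g) (h1 : w ≤ s)
    (h2 : s < 2 * w) : Aa ν s = Real.log 2 / w * ell ν s := by
  obtain ⟨g, rfl⟩ := hw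
  unfold Aa
  rw [bas_eq hν h1 h2]

/-- On `[w / 2, w)` the slope is `(2 c / w) ell`. -/
lemma Aa_seam' (hν : 0 < ν) {w : ℝ} (hw : ∃ g : ℤ, w = ν * (2 : ℝ) ^ g) (h1 : w / 2 ≤ s)
    (h2 : s < w) : Aa ν s = 2 * Real.log 2 / w * ell ν s := by
  obtain ⟨g, rfl⟩ := hw
  have e : ν * (2 : ℝ) ^ (g - 1) = ν * 2 ^ g / 2 := by
    rw [zpow_sub₀ (by norm_num), zpow_one]; ring
  rw [Aa_seam (w := ν * 2 ^ g / 2) hν ⟨g - 1, e.symm⟩ h1 (by linarith)]
  have : 0 < ν * (2 : ℝ) ^ g := by positivity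
  field_simp

end Pool.H17.SP
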