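import Pool.Agent.H17.SP.Ell

/-!
[H17 SP INT] MP_eb524a_co, Q1 (full answer).
The integrals `uu ν t = ∫_t^(t+1) ell ν`. All estimates come from the supporting line
`ell_support`, `ell_anti`, `Aa_anti` (file Ell.lean) and monotonicity of the integral
(intervalIntegral.integral_mono_on, integrability ell_ii).
uu_ge_affine: `∫_t^(t+1) (α + β (s - t)) = α + β/2`. uu_le: ell s ≤ ell t on [t, t+1].
uu_sub_le: uu (t+1) = ∫_t^(t+1) ell (s+1) ds and ell s - ell (s+1) ≤ Aa s ≤ Aa t (ell_support at s).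
uu_conv: ell s + ell (s+2) ≥ 2 ell (s+1) (ell_support at s+1, twice), shift the integrals.
sum_uu: the sum is ∫_t^(2t) ell (intervalIntegral.sum_integral_adjacent_intervals_Ico). Let
b = bas ν t, b ≤ t < 2b ≤ 2t < 4b. On [t, 2b) `ell s = (4c/b) exp(-c s/b)` (bas_eq, endpoint 2b does
not matter), on [2b, 2t] `ell s = (4c/(2b)) exp(-c s/(2b))`; so the integral is
4 (exp(-c t/b) - exp(-2c)) + 4 (exp(-c) - exp(-c t/b)) = 4 (1/2 - 1/4) = 1.
-/

namespace Pool.H17.SP

open Finset Filter MeasureTheory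
open Pool.Agent.H36.Split

variable {ν : ℝ}

lemma ell_ii (hν : 0 < ν) {a b : ℝ} (ha : 0 < a) (hb : 0 < b) :
    IntervalIntegrable (ell ν) volume a b := by
  apply AntitoneOn.intervalIntegrable
  intro s hs s' hs' h
  have : 0 < s := by
    rcases Set.mem_uIcc.mp hs with h | h <;> linarith
  exact ell_anti hν this h

/-- Affine lower bound. If `α + β (s - t) ≤ ell ν s` on `[t, t+1]` then
`α + β / 2 ≤ uu ν t`. -/
lemma uu_ge_affine (hν : 0 < ν) {t : ℕ} (ht : 1 ≤ t) {α β : ℝ}
    (h : ∀ s : ℝ, (t : ℝ) ≤ s → s ≤ t + 1 → α + β * (s - t) ≤ ell ν s) :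
    α + β / 2 ≤ uu ν t := by
  have ht' : (1 : ℝ) ≤ t := by exact_mod_cast ht
  have h1 : ∫ s in (t : ℝ)..((t : ℝ) + 1), (α + β * (s - t)) = α + β / 2 := by
    have e : ∀ s : ℝ, α + β * (s - t) = (α - β * t) + β * s := fun s => by ring
    simp_rw [e]
    rw [intervalIntegral.integral_add (by simp) (by
      apply Continuous.intervalIntegrable; fun_prop), intervalIntegral.integral_const,
      intervalIntegral.integral_const_mul, integral_id, smul_eq_mul]
    ring
  rw [← h1]
  unfold uu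
  apply intervalIntegral.integral_mono_on (by linarith)
  · apply Continuous.intervalIntegrable; fun_prop
  · exact ell_ii hν (by linarith) (by linarith)
  · intro s hs
    exact h s hs.1 hs.2

/-- `uu t ≤ ell t`. -/
lemma uu_le (hν : 0 < ν) {t : ℕ} (ht : 1 ≤ t) : uu ν t ≤ ell ν t := by
  have ht' : (1 : ℝ) ≤ t := by exact_mod_cast ht
  have h1 : ∫ _s in (t : ℝ)..((t : ℝ) + 1), ell ν t = ell ν t := by
    rw [intervalIntegral.integral_const, smul_eq_mul]
    ring
  rw [← h1]
  unfold uu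
  apply intervalIntegral.integral_mono_on (by linarith)
  · exact ell_ii hν (by linarith) (by linarith)
  · simp
  · intro s hs
    exact ell_anti hν (by linarith) hs.1

/-- shifting the integral -/
lemma uu_shift (t m : ℕ) :
    uu ν (t + m) = ∫ s in (t : ℝ)..((t : ℝ) + 1), ell ν (s + m) := by
  rw [intervalIntegral.integral_comp_add_right]
  unfold uu
  congr 1
  · push_cast; ring
  · push_cast; ring

lemma ell_ii_shift (hν : 0 < ν) {a b : ℝ} (ha : 0 < a) (hb : 0 < b) (m : ℕ) :
    IntervalIntegrable (fun s => ell ν (s + m)) volume a b := by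
  have hm : (0 : ℝ) ≤ m := Nat.cast_nonneg m
  apply AntitoneOn.intervalIntegrable
  intro s hs s' hs' h
  have : 0 < s := by
    rcases Set.mem_uIcc.mp hs with h | h <;> linarith
  exact ell_anti hν (by linarith) (by linarith)

lemma le_uu (hν : 0 < ν) {t : ℕ} (ht : 1 ≤ t) : ell ν t - Aa ν t / 2 ≤ uu ν t := by
  have ht' : (1 : ℝ) ≤ t := by exact_mod_cast ht
  have h := uu_ge_affine hν ht (α := ell ν t) (β := -Aa ν t) (fun s h1 h2 => by
    have := ell_support (s := (t : ℝ)) (s' := s) hν (by linarith) (by linarith)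
    linarith)
  linarith

lemma mid_le_uu (hν : 0 < ν) {t : ℕ} (ht : 1 ≤ t) : ell ν ((t : ℝ) + 1 / 2) ≤ uu ν t := by
  have ht' : (1 : ℝ) ≤ t := by exact_mod_cast ht
  have h := uu_ge_affine hν ht (α := ell ν ((t : ℝ) + 1 / 2) + Aa ν ((t : ℝ) + 1 / 2) / 2)
    (β := -Aa ν ((t : ℝ) + 1 / 2)) (fun s h1 h2 => by
    have := ell_support (s := (t : ℝ) + 1 / 2) (s' := s) hν (by linarith) (by linarith)
    linarith)
  linarith

lemma succ_le_uu (hν : 0 < ν) {t : ℕ} (ht : 1 ≤ t) :
    ell ν ((t : ℝ) + 1) + Aa ν ((t : ℝ) + 1) / 2 ≤ uu ν t := by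
  have ht' : (1 : ℝ) ≤ t := by exact_mod_cast ht
  have h := uu_ge_affine hν ht (α := ell ν ((t : ℝ) + 1) + Aa ν ((t : ℝ) + 1))
    (β := -Aa ν ((t : ℝ) + 1)) (fun s h1 h2 => by
    have := ell_support (s := (t : ℝ) + 1) (s' := s) hν (by linarith) (by linarith)
    linarith)
  linarith

/-- `uu (t + m) ≥ ell t - (m + 1/2) A t`. -/
lemma le_uu_add (hν : 0 < ν) {t : ℕ} (ht : 1 ≤ t) (m : ℕ) :
    ell ν t - ((m : ℝ) + 1 / 2) * Aa ν t ≤ uu ν (t + m) := by
  have ht' : (1 : ℝ) ≤ t := by exact_mod_cast ht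
  have h := uu_ge_affine (t := t + m) hν (by omega) (α := ell ν t - (m : ℝ) * Aa ν t)
    (β := -Aa ν t) (fun s h1 h2 => by
    push_cast at h1 h2 ⊢
    have hm : (0 : ℝ) ≤ m := Nat.cast_nonneg m
    have := ell_support (s := (t : ℝ)) (s' := s) hν (by linarith) (by linarith)
    linarith)
  linarith

/-- `uu t - uu (t+1) ≤ A t`. -/
lemma uu_sub_le (hν : 0 < ν) {t : ℕ} (ht : 1 ≤ t) : uu ν t - uu ν (t + 1) ≤ Aa ν t := by
  have ht' : (1 : ℝ) ≤ t := by exact_mod_cast ht
  have i0 := ell_ii hν (a := (t : ℝ)) (b := (t : ℝ) + 1) (by linarith) (by linarith)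
  have i1 := ell_ii_shift hν (a := (t : ℝ)) (b := (t : ℝ) + 1) (by linarith) (by linarith) 1
  have h1 : ∫ _s in (t : ℝ)..((t : ℝ) + 1), Aa ν t = Aa ν t := by
    rw [intervalIntegral.integral_const, smul_eq_mul]
    ring
  rw [uu_shift t 1, ← h1]
  unfold uu
  rw [← intervalIntegral.integral_sub i0 i1]
  apply intervalIntegral.integral_mono_on (by linarith) (i0.sub i1) (by simp)
  intro s hs
  have h2 := ell_support (s := s) (s' := s + 1) hν (by linarith [hs.1]) (by linarith [hs.1])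
  have h3 := Aa_anti hν (s := (t : ℝ)) (s' := s) (by linarith) hs.1
  push_cast
  linarith

/-- `uu (t+1)` is at most the mean of its neighbours. -/
lemma uu_conv (hν : 0 < ν) {t : ℕ} (ht : 1 ≤ t) :
    2 * uu ν (t + 1) ≤ uu ν t + uu ν (t + 2) := by
  have ht' : (1 : ℝ) ≤ t := by exact_mod_cast ht
  have i0 := ell_ii hν (a := (t : ℝ)) (b := (t : ℝ) + 1) (by linarith) (by linarith)
  have i1 := ell_ii_shift hν (a := (t : ℝ)) (b := (t : ℝ) + 1) (by linarith) (by linarith) 1
  have i2 := ell_ii_shift hν (a := (t : ℝ)) (b := (t : ℝ) + 1) (by linarith) (by linarith) 2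
  rw [uu_shift t 1, uu_shift t 2]
  unfold uu
  rw [← intervalIntegral.integral_const_mul, ← intervalIntegral.integral_add i0 i2]
  apply intervalIntegral.integral_mono_on (by linarith) (i1.const_mul 2) (i0.add i2)
  intro s hs
  have h2 := ell_support (s := s + 1) (s' := s) hν (by linarith [hs.1]) (by linarith [hs.1])
  have h3 := ell_support (s := s + 1) (s' := s + 2) hν (by linarith [hs.1]) (by linarith [hs.1])
  push_cast
  linarith

lemma int_piece (hν : 0 < ν) {w : ℝ} (hw : ∃ g : ℤ, w = ν * (2 : ℝ) ^ g) {a b : ℝ} (h1 : w ≤ a)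
    (hab : a ≤ b) (h2 : b ≤ 2 * w) : ∫ s in a..b, ell ν s =
      4 * Real.exp (-(Real.log 2 * a / w)) - 4 * Real.exp (-(Real.log 2 * b / w)) := by
  have hw0 : 0 < w := by obtain ⟨g, rfl⟩ := hw; positivity
  have h := intervalIntegral.integral_eq_sub_of_hasDeriv_right
    (f := fun s => -(4 * Real.exp (-(Real.log 2 * s / w)))) (f' := ell ν) (a := a) (b := b)
    (by fun_prop) (by
      intro s hs
      rw [min_eq_left hab, max_eq_right hab] at hs
      have e1 : ell ν s = 4 * Real.log 2 / w * Real.exp (-(Real.log 2 * s / w)) := by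
        obtain ⟨g, rfl⟩ := hw
        unfold ell
        rw [bas_eq hν (by linarith [hs.1]) (by linarith [hs.2])]
      rw [e1]
      apply HasDerivAt.hasDerivWithinAt
      have d1 : HasDerivAt (fun s : ℝ => -(Real.log 2 * s / w)) (-(Real.log 2 / w)) s := by
        have := ((hasDerivAt_id s).const_mul (Real.log 2)).div_const w
        simp only [mul_one, id] at this
        exact this.neg
      have d2 := (d1.exp.const_mul 4).neg
      refine d2.congr_deriv ?_
      ring) (ell_ii hν (by linarith) (by linarith))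
  rw [h]
  ring

/-- The mass of the profile on `[t, 2t]` is one. -/
lemma sum_uu (hν : 0 < ν) {t : ℕ} (ht : 1 ≤ t) : ∑ j ∈ Finset.Ico t (2 * t), uu ν j = 1 := by
  have ht' : (1 : ℝ) ≤ t := by exact_mod_cast ht
  have h1 : ∑ j ∈ Finset.Ico t (2 * t), uu ν j = ∫ s in (t : ℝ)..((2 * t : ℕ) : ℝ), ell ν s := by
    have := intervalIntegral.sum_integral_adjacent_intervals_Ico (f := ell ν) (μ := volume)
      (a := fun k : ℕ => (k : ℝ)) (m := t) (n := 2 * t) (by omega) (by
        intro k hk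
        have hk' : (1 : ℝ) ≤ k := by exact_mod_cast ht.trans hk.1
        exact ell_ii hν (by linarith) (by push_cast; linarith))
    rw [← this]
    apply Finset.sum_congr rfl
    intro k _
    unfold uu
    push_cast
    rfl
  set b := bas ν t with hb
  have b0 : 0 < b := bas_pos hν _
  have b1 : b ≤ t := bas_le hν (by linarith)
  have b2 : (t : ℝ) < 2 * b := lt_bas hν (by linarith)
  have hw : ∃ g : ℤ, b = ν * (2 : ℝ) ^ g := ⟨_, rfl⟩
  have hw2 : ∃ g : ℤ, 2 * b = ν * (2 : ℝ) ^ g := by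
    obtain ⟨g, hg⟩ := hw
    refine ⟨g + 1, ?_⟩
    rw [hg, zpow_add₀ (by norm_num), zpow_one]
    ring
  have p1 := int_piece hν hw (a := (t : ℝ)) (b := 2 * b) b1 b2.le le_rfl
  have p2 := int_piece hν hw2 (a := 2 * b) (b := ((2 * t : ℕ) : ℝ)) le_rfl
    (by push_cast; linarith) (by push_cast; linarith)
  have h2 := intervalIntegral.integral_add_adjacent_intervals
    (ell_ii hν (a := (t : ℝ)) (b := 2 * b) (by linarith) (by linarith))
    (ell_ii hν (a := 2 * b) (b := ((2 * t : ℕ) : ℝ)) (by linarith) (by push_cast; linarith))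
  rw [h1, ← h2, p1, p2]
  have e0 : Real.exp (-Real.log 2) = 1 / 2 := by
    rw [Real.exp_neg, Real.exp_log (by norm_num)]; norm_num
  have e1 : Real.exp (-(Real.log 2 * (2 * b) / b)) = 1 / 4 := by
    have : -(Real.log 2 * (2 * b) / b) = -Real.log 2 + -Real.log 2 := by field_simp; ring
    rw [this, Real.exp_add, e0]; norm_num
  have e2 : Real.exp (-(Real.log 2 * (2 * b) / (2 * b))) = 1 / 2 := by
    rw [mul_div_assoc, div_self (by positivity), mul_one, e0]
  have e3 : Real.log 2 * ((2 * t : ℕ) : ℝ) / (2 * b) = Real.log 2 * t / b := by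
    push_cast; field_simp
  rw [e1, e2, e3]
  ring

end Pool.H17.SP
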