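import Pool.Agent.H17.SP.NpD

/-!
[H17 SP NPE] MP_eb524a_co, Q1 (full answer). Step 1: the profile at a near perfect time.
c = log 2; for N ≤ s < 2N `bas N s = N` (bas_eq with g = 0), so
`ell N s = (4c/N) exp(-c s/N)`.
np_upper_mid, j in [N, 2N-1]: `x j ≤ exp(-c δ (j-N)) x N` (Str.chain_pow; j ≤ 2N-1 ≤ n),
`x N ≤ (2c/N)(1+10e)` (np_mass_le) and `ell N j = (2c/N) exp(-c (j-N)/N)`; the quotient is
`≤ (1+10e) exp(c (j-N)(1/N - δ)) ≤ (1+10e) exp(c e) ≤ 1 + 20e` as `1/N - δ ≤ e/N`.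
np_upper, t ≤ N: let m be minimal with N ≤ 2^m t; then 2^m t < 2N (or m = 0 and t = N). Str.half_pow:
`x t ≤ 2^m x (2^m t) ≤ 2^m (1+20e) ell N (2^m t) = (1+20e) ell N t` (ell_two m times).
np_lower_mid, j in [N, 2N]: for j = N + i ≤ 2N-1 np_low and np_mass_ge give
`x j ≥ (c/N)(1-10e) exp(c δ (2N-1-j))` and `ell N j = (c/N) exp(c (2N-j)/N)`, the exponents differ by
`c ((2N-j)(1/N - δ) + δ) ≤ c (e + 1.1e)`; so `x j ≥ (1-10e)(1-2.1e) ell N j ≥ (1-15e) ell N j`. For
j = 2N: `x (2N) ≥ x N / 2 ≥ (c/N)(1-10e)`, `ell N (2N) = ell N N / 2 = c/N`.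
np_lower, t ≥ N: let m be maximal with 2^m N ≤ t, `j = ⌈t / 2^m⌉` in [N, 2N], t ≤ 2^m j, so
`x t ≥ x (2^m j) ≥ 2^(-m) x j ≥ 2^(-m) (1-15e) ell N j`, and with s = t/2^m, j - 1 < s ≤ j:
`ell N j ≥ ell N s - (j-s) Aa N s ≥ ell N s (1 - c/N)` (ell_support; bas N s = N),
`ell N s = 2^m ell N t`; `c/N ≤ e`.
-/

namespace Pool.H17.SP

open Finset Filter
open Pool.Agent.H36.Split

variable {x : ℕ → ℝ} {τ σ : ℕ → ℕ} {d : ℕ → ℝ}

lemma bas_N {N : ℕ} (hN : 1 ≤ N) {s : ℝ} (h1 : (N : ℝ) ≤ s) (h2 : s < 2 * N) :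
    bas N s = N := by
  have h0 : (0 : ℝ) < N := by exact_mod_cast hN
  have := bas_eq (ν := (N : ℝ)) (s := s) (g := 0) h0 (by simpa using h1) (by simpa using h2)
  simpa using this

lemma ell_N {N : ℕ} (hN : 1 ≤ N) {s : ℝ} (h1 : (N : ℝ) ≤ s) (h2 : s < 2 * N) :
    ell N s = 4 * Real.log 2 / N * Real.exp (-(Real.log 2 * s / N)) := by
  unfold ell
  rw [bas_N hN h1 h2]

lemma exp_neg_log_two : Real.exp (-Real.log 2) = 1 / 2 := by
  rw [Real.exp_neg, Real.exp_log (by norm_num)]; norm_num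

lemma Np.N1 {n N : ℕ} {δ e : ℝ} (hn : Np d n N δ e) : 1 ≤ N := by
  have hN := hn.N_ge
  have : (1 : ℝ) ≤ N := by linarith
  exact_mod_cast this

lemma Str.np_upper_mid (h : Str x τ σ d) {n N : ℕ} {δ e : ℝ} (hn : Np d n N δ e) {j : ℕ}
    (h1 : N ≤ j) (h2 : j < 2 * N) : x j ≤ (1 + 20 * e) * ell N j := by
  have hN1 := hn.N1
  have hNr : (0 : ℝ) < N := by exact_mod_cast hN1
  have s3 := hn.le
  have s4 := hn.e0
  have s5 := hn.e1
  have hc := log_two_pos
  have hc2 : Real.log 2 ≤ 7 / 10 := by have := Real.log_two_lt_d9; linarith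
  have hn1 := hn.h1
  obtain ⟨m, rfl⟩ : ∃ m, j = N + m := ⟨j - N, by omega⟩
  have hm : (m : ℝ) ≤ N := by exact_mod_cast (by omega : m ≤ N)
  have hm0 : (0 : ℝ) ≤ m := Nat.cast_nonneg m
  have f1 := h.chain_pow hn.dn (t := N) (by omega) m (by omega)
  have f2 := h.np_mass_le hn
  have f3 : x N ≤ 2 * Real.log 2 / N * (1 + 10 * e) := by
    have : x N = (N * x N) / N := by field_simp
    rw [this, div_mul_eq_mul_div]
    exact div_le_div_of_nonneg_right f2 hNr.le
  have f4 : ell N ((N + m : ℕ) : ℝ) =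
      2 * Real.log 2 / N * Real.exp (-(Real.log 2 * m / N)) := by
    rw [ell_N hN1 (by push_cast; linarith) (by exact_mod_cast h2)]
    have e1 : -(Real.log 2 * ((N + m : ℕ) : ℝ) / N) = -Real.log 2 + -(Real.log 2 * m / N) := by
      push_cast; field_simp; ring
    rw [e1, Real.exp_add, exp_neg_log_two]
    ring
  rw [f4]
  have f5 : Real.exp (-(Real.log 2 * δ * m)) ≤
      (1 + 2 * e) * Real.exp (-(Real.log 2 * m / N)) := by
    have g1 : -(Real.log 2 * δ * m) ≤ e + -(Real.log 2 * m / N) := by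
      have g2 : (m : ℝ) / N - δ * m ≤ e := by
        have g3 : (m : ℝ) / N * (1 - N * δ) ≤ (m : ℝ) / N * e :=
          mul_le_mul_of_nonneg_left (by linarith) (by positivity)
        have g4 : (m : ℝ) / N * e ≤ 1 * e := by
          apply mul_le_mul_of_nonneg_right _ s4.le
          rw [div_le_one hNr]; exact hm
        have g5 : (m : ℝ) / N * (1 - N * δ) = (m : ℝ) / N - δ * m := by field_simp
        linarith
      have g6 : Real.log 2 * ((m : ℝ) / N - δ * m) ≤ Real.log 2 * e :=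
        mul_le_mul_of_nonneg_left g2 hc.le
      have g7 : Real.log 2 * ((m : ℝ) / N - δ * m) = Real.log 2 * m / N - Real.log 2 * δ * m := by
        ring
      nlinarith
    have g8 := Real.exp_le_exp.mpr g1
    rw [Real.exp_add] at g8
    have g9 : Real.exp e ≤ 1 + 2 * e := by
      apply exp_le_aux
      · linarith
      · nlinarith
    exact g8.trans (mul_le_mul_of_nonneg_right g9 (Real.exp_pos _).le)
  have xN := h.pos hN1
  set F := Real.exp (-(Real.log 2 * m / N)) with hF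
  have hF0 : 0 < F := Real.exp_pos _
  calc x (N + m) ≤ Real.exp (-(Real.log 2 * δ * m)) * x N := f1
    _ ≤ (1 + 2 * e) * F * (2 * Real.log 2 / N * (1 + 10 * e)) :=
      mul_le_mul f5 f3 xN.le (by positivity)
    _ = (1 + 2 * e) * (1 + 10 * e) * (2 * Real.log 2 / N * F) := by ring
    _ ≤ (1 + 20 * e) * (2 * Real.log 2 / N * F) := by
      apply mul_le_mul_of_nonneg_right _ (by positivity)
      nlinarith

lemma Str.np_lower_mid (h : Str x τ σ d) {n N : ℕ} {δ e : ℝ} (hn : Np d n N δ e) {j : ℕ}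
    (h1 : N ≤ j) (h2 : j ≤ 2 * N) : (1 - 15 * e) * ell N j ≤ x j := by
  have hN1 := hn.N1
  have hNr : (0 : ℝ) < N := by exact_mod_cast hN1
  obtain ⟨s1, s2⟩ := h.np_small hn
  have s3 := hn.le
  have s4 := hn.e0
  have s5 := hn.e1
  have s6 := hn.δ0
  have hc := log_two_pos
  have hc2 : Real.log 2 ≤ 7 / 10 := by have := Real.log_two_lt_d9; linarith
  have f2 := h.np_mass_ge hn
  have f3 : 2 * Real.log 2 / N * (1 - 10 * e) ≤ x N := by
    have : x N = (N * x N) / N := by field_simp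
    rw [this, div_mul_eq_mul_div]
    exact div_le_div_of_nonneg_right f2 hNr.le
  have xN := h.pos hN1
  rcases h2.lt_or_eq with h3 | h3
  · obtain ⟨i, rfl⟩ : ∃ i, j = N + i := ⟨j - N, by omega⟩
    have hi0 : (0 : ℝ) ≤ i := Nat.cast_nonneg i
    have hi : (i : ℝ) ≤ N := by exact_mod_cast (by omega : i ≤ N)
    have f1 := h.np_low hn (i := i) (by omega)
    have f4 : ell N ((N + i : ℕ) : ℝ) =
        Real.log 2 / N * Real.exp (Real.log 2 * ((N : ℝ) - i) / N) := by
      rw [ell_N hN1 (by push_cast; linarith) (by exact_mod_cast h3)]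
      have e1 : -(Real.log 2 * ((N + i : ℕ) : ℝ) / N) =
          -Real.log 2 + (-Real.log 2 + Real.log 2 * ((N : ℝ) - i) / N) := by
        push_cast; field_simp; ring
      rw [e1, Real.exp_add, Real.exp_add, exp_neg_log_two]
      ring
    rw [f4]
    have g0 : Real.log 2 * ((N : ℝ) - i) / N - 3 / 2 * e ≤
        Real.log 2 * δ * ((N : ℝ) - 1 - i) := by
      have g1 : ((N : ℝ) - i) / N * (1 - N * δ) ≤ ((N : ℝ) - i) / N * e :=
        mul_le_mul_of_nonneg_left (by linarith) (div_nonneg (by linarith) hNr.le)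
      have g2 : ((N : ℝ) - i) / N * e ≤ 1 * e := by
        apply mul_le_mul_of_nonneg_right _ s4.le
        rw [div_le_one hNr]; linarith
      have g3 : ((N : ℝ) - i) / N * (1 - N * δ) = ((N : ℝ) - i) / N - δ * ((N : ℝ) - i) := by
        field_simp
      have g4 : ((N : ℝ) - i) / N - δ * ((N : ℝ) - 1 - i) ≤ 21 / 10 * e := by
        have : δ * ((N : ℝ) - 1 - i) = δ * ((N : ℝ) - i) - δ := by ring
        linarith
      have g5 := mul_le_mul_of_nonneg_left g4 hc.le
      have g6 : Real.log 2 * (((N : ℝ) - i) / N - δ * ((N : ℝ) - 1 - i)) =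
          Real.log 2 * ((N : ℝ) - i) / N - Real.log 2 * δ * ((N : ℝ) - 1 - i) := by ring
      nlinarith
    have g7 := Real.exp_le_exp.mpr g0
    rw [sub_eq_add_neg, Real.exp_add] at g7
    have g8 := Real.add_one_le_exp (-(3 / 2 * e))
    set F := Real.exp (Real.log 2 * ((N : ℝ) - i) / N) with hF
    have hF0 : 0 < F := Real.exp_pos _
    have g9 : F * (1 - 3 / 2 * e) ≤ Real.exp (Real.log 2 * δ * ((N : ℝ) - 1 - i)) :=
      le_trans (mul_le_mul_of_nonneg_left (by linarith) hF0.le) g7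
    calc (1 - 15 * e) * (Real.log 2 / N * F)
        ≤ (1 - 10 * e) * (1 - 3 / 2 * e) * (Real.log 2 / N * F) := by
          apply mul_le_mul_of_nonneg_right _ (by positivity)
          nlinarith
      _ = 1 / 2 * (2 * Real.log 2 / N * (1 - 10 * e)) * (F * (1 - 3 / 2 * e)) := by ring
      _ ≤ 1 / 2 * x N * Real.exp (Real.log 2 * δ * ((N : ℝ) - 1 - i)) := by
          apply mul_le_mul (by linarith) g9
          · exact mul_nonneg hF0.le (by linarith)
          · positivity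
      _ ≤ x (N + i) := f1
  · subst h3
    have f1 := h.half (t := N) hN1
    have f4 : ell N ((2 * N : ℕ) : ℝ) = Real.log 2 / N := by
      have e1 : ((2 * N : ℕ) : ℝ) = 2 * (N : ℝ) := by push_cast; ring
      have e2 : Real.log 2 * (N : ℝ) / N = Real.log 2 := by field_simp
      rw [e1, ell_two hNr hNr, ell_N hN1 le_rfl (by linarith), e2, exp_neg_log_two]
      ring
    rw [f4]
    have g1 : 0 < Real.log 2 / N := by positivity
    have g2 : Real.log 2 / N * (1 - 10 * e) ≤ x N / 2 := by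
      have : Real.log 2 / N * (1 - 10 * e) = 2 * Real.log 2 / N * (1 - 10 * e) / 2 := by ring
      linarith
    nlinarith

/-- The profile bound below `N`. -/
lemma Str.np_upper (h : Str x τ σ d) {n N : ℕ} {δ e : ℝ} (hn : Np d n N δ e) {t : ℕ}
    (ht : 1 ≤ t) (htN : t ≤ N) : x t ≤ (1 + 20 * e) * ell N t := by
  classical
  have hN1 := hn.N1
  have hNr : (0 : ℝ) < N := by exact_mod_cast hN1
  have htr : (0 : ℝ) < t := by exact_mod_cast ht
  have hex : ∃ m : ℕ, N ≤ 2 ^ m * t := by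
    refine ⟨N, ?_⟩
    have h1 : N < 2 ^ N := Nat.lt_two_pow_self
    have h2 : 2 ^ N ≤ 2 ^ N * t := Nat.le_mul_of_pos_right _ ht
    omega
  obtain ⟨m, hm1, hm2⟩ : ∃ m : ℕ, N ≤ 2 ^ m * t ∧ 2 ^ m * t < 2 * N := by
    refine ⟨Nat.find hex, Nat.find_spec hex, ?_⟩
    rcases Nat.eq_zero_or_pos (Nat.find hex) with h0 | h0
    · rw [h0, pow_zero, one_mul]; omega
    · obtain ⟨k, hk⟩ : ∃ k, Nat.find hex = k + 1 := ⟨Nat.find hex - 1, by omega⟩
      have h1 := Nat.find_min hex (m := k) (by omega)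
      rw [hk, pow_succ]
      push Not at h1
      nlinarith
  have f1 := h.half_pow ht m
  have f2 := h.np_upper_mid hn hm1 hm2
  have e1 : ((2 ^ m * t : ℕ) : ℝ) = 2 ^ m * (t : ℝ) := by push_cast; ring
  rw [e1, ell_two_pow hNr htr] at f2
  have hp : (0 : ℝ) < 2 ^ m := by positivity
  calc x t ≤ 2 ^ m * x (2 ^ m * t) := f1
    _ ≤ 2 ^ m * ((1 + 20 * e) * (ell N t / 2 ^ m)) := mul_le_mul_of_nonneg_left f2 hp.le
    _ = (1 + 20 * e) * ell N t := by field_simp

/-- The profile bound beyond `N`. -/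
lemma Str.np_lower (h : Str x τ σ d) {n N : ℕ} {δ e : ℝ} (hn : Np d n N δ e) {t : ℕ}
    (htN : N ≤ t) : (1 - 20 * e) * ell N t ≤ x t := by
  classical
  have hN1 := hn.N1
  have hNr : (0 : ℝ) < N := by exact_mod_cast hN1
  have htr : (0 : ℝ) < t := by exact_mod_cast (by omega : 0 < t)
  have s4 := hn.e0
  have s5 := hn.e1
  have hbig := hn.big
  have hc := log_two_pos
  have hc2 : Real.log 2 ≤ 7 / 10 := by have := Real.log_two_lt_d9; linarith
  have hex : ∃ m : ℕ, t < 2 ^ (m + 1) * N := by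
    refine ⟨t, ?_⟩
    have h1 : t + 1 < 2 ^ (t + 1) := Nat.lt_two_pow_self
    have h2 : 2 ^ (t + 1) ≤ 2 ^ (t + 1) * N := Nat.le_mul_of_pos_right _ hN1
    omega
  obtain ⟨m, hm1, hm2⟩ : ∃ m : ℕ, 2 ^ m * N ≤ t ∧ t < 2 ^ (m + 1) * N := by
    refine ⟨Nat.find hex, ?_, Nat.find_spec hex⟩
    rcases Nat.eq_zero_or_pos (Nat.find hex) with h0 | h0
    · rw [h0, pow_zero, one_mul]; exact htN
    · obtain ⟨k, hk⟩ : ∃ k, Nat.find hex = k + 1 := ⟨Nat.find hex - 1, by omega⟩
      have h1 := Nat.find_min hex (m := k) (by omega)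
      push Not at h1
      rw [hk]
      exact h1
  have hp : 0 < 2 ^ m := by positivity
  set j := (t + 2 ^ m - 1) / 2 ^ m with hj
  have j1 : t ≤ 2 ^ m * j := by
    have := Nat.lt_div_mul_add (a := t + 2 ^ m - 1) (b := 2 ^ m) hp
    rw [← hj] at this
    have e0 : 2 ^ m * j = j * 2 ^ m := mul_comm _ _
    omega
  have j2 : 2 ^ m * j < t + 2 ^ m := by
    have := Nat.div_mul_le_self (t + 2 ^ m - 1) (2 ^ m)
    rw [← hj] at this
    have e0 : 2 ^ m * j = j * 2 ^ m := mul_comm _ _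
    omega
  have j3 : N ≤ j := by
    have : 2 ^ m * N ≤ 2 ^ m * j := hm1.trans j1
    exact Nat.le_of_mul_le_mul_left this hp
  have j4 : j ≤ 2 * N := by
    have h1 : 2 ^ m * j < 2 ^ m * (2 * N + 1) := by
      rw [pow_succ] at hm2
      nlinarith
    have := Nat.lt_of_mul_lt_mul_left h1
    omega
  have f1 := h.half_pow (t := j) (by omega) m
  have f2 := h.le (i := t) (j := 2 ^ m * j) (by omega) j1
  have f3 := h.np_lower_mid hn j3 j4
  -- the real number `s = t / 2^m`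
  have hpr : (0 : ℝ) < 2 ^ m := by positivity
  set s : ℝ := t / 2 ^ m with hs
  have ts : (2 : ℝ) ^ m * s = t := by rw [hs]; field_simp
  have hs1 : (N : ℝ) ≤ s := by
    rw [hs, le_div_iff₀ hpr]
    have : ((2 ^ m * N : ℕ) : ℝ) ≤ t := by exact_mod_cast hm1
    push_cast at this
    linarith
  have hs2 : s < 2 * N := by
    rw [hs, div_lt_iff₀ hpr]
    have : (t : ℝ) < ((2 ^ (m + 1) * N : ℕ) : ℝ) := by exact_mod_cast hm2
    push_cast at this
    rw [pow_succ] at this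
    linarith
  have hs3 : (j : ℝ) - s ≤ 1 := by
    have h1 : (((2 ^ m * j : ℕ)) : ℝ) < ((t + 2 ^ m : ℕ) : ℝ) := by exact_mod_cast j2
    push_cast at h1
    rw [← ts] at h1
    have h2 : (2 : ℝ) ^ m * ((j : ℝ) - s) < 2 ^ m * 1 := by linarith
    exact (lt_of_mul_lt_mul_left h2 hpr.le).le
  have hs0 : 0 < s := by linarith
  have f4 := ell_support (ν := (N : ℝ)) (s := s) (s' := (j : ℝ)) hNr hs0
    (by have : (N : ℝ) ≤ j := by exact_mod_cast j3
        linarith)
  have f5 : Aa N s ≤ e * ell N s := by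
    unfold Aa
    rw [bas_N hN1 hs1 hs2]
    apply mul_le_mul_of_nonneg_right _ (ell_pos hNr s).le
    rw [div_le_iff₀ hNr]
    linarith
  have f6 : ell N s = 2 ^ m * ell N t := by
    have := ell_two_pow (ν := (N : ℝ)) hNr hs0 m
    rw [ts] at this
    rw [this]
    field_simp
  have l0 := ell_pos hNr s
  have A0 := Aa_pos hNr s
  have f7 : (1 - e) * ell N s ≤ ell N j := by
    have : ((j : ℝ) - s) * Aa N s ≤ 1 * Aa N s := mul_le_mul_of_nonneg_right hs3 A0.le
    linarith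
  have f8 : (1 - 15 * e) * ((1 - e) * ell N s) ≤ x j :=
    le_trans (mul_le_mul_of_nonneg_left f7 (by linarith)) f3
  have f9 : (1 - 20 * e) * ell N s ≤ (1 - 15 * e) * ((1 - e) * ell N s) := by
    have : (1 - 20 * e) ≤ (1 - 15 * e) * (1 - e) := by nlinarith
    calc (1 - 20 * e) * ell N s ≤ (1 - 15 * e) * (1 - e) * ell N s :=
          mul_le_mul_of_nonneg_right this l0.le
      _ = _ := by ring
  have f10 : (2 : ℝ) ^ m * ((1 - 20 * e) * ell N t) ≤ 2 ^ m * x t := by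
    calc (2 : ℝ) ^ m * ((1 - 20 * e) * ell N t) = (1 - 20 * e) * ell N s := by rw [f6]; ring
      _ ≤ x j := f9.trans f8
      _ ≤ 2 ^ m * x (2 ^ m * j) := f1
      _ ≤ 2 ^ m * x t := mul_le_mul_of_nonneg_left f2 hpr.le
  exact le_of_mul_le_mul_left f10 hpr

end Pool.H17.SP
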