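import Pool.Agent.H17.SP.NuEx
import Pool.Agent.H17.SP.NpE

/-!
[H17 SP LIM] MP_eb524a_co, Q1 (full answer). The limit profile. ν from exists_nu. For its data
`(N : ℝ) = (ν 2^g) ρ`, |ρ - 1| ≤ e: `ell N t ≤ (1+4e) ell (ν 2^g) t = (1+4e) ell ν t` (ell_comp',
ell_scale) and `ell ν t ≤ (1+4e) ell N t` (ell_comp, ell_scale).
(1) x t ≤ ell ν t: np_upper with N ≥ t gives x t ≤ (1+20e)(1+4e) ell ν t for every small e > 0; let
e -> 0 (le_of_forall_pos_le_add or continuity).
(2) (1-e) ell ν t ≤ x t for t ≥ T: one near perfect N = T with e' = min(e, 1/1000)/30 (so that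
(1-20e')/(1+4e') ≥ 1 - e).
(3) Near: w = ν 2^g = N/ρ. For the given e > 0 (may be large, take e' = min(e,1/1000)/10), K take
N ≥ 2K+2: `w δ = N δ / ρ` lies in [(1-e')/(1+e'), (1+1.1e')/(1-e')] (np_small in NpB),
n ≥ 2N - 1 ≥ (1-e) 2 w as N ≥ (1-e') w and 1 ≤ e' N; w ≥ N/2 ≥ K, n ≥ N ≥ K.
-/

namespace Pool.H17.SP

open Finset Filter
open Pool.Agent.H36.Split

variable {x : ℕ → ℝ} {τ σ : ℕ → ℕ} {d : ℕ → ℝ}

/-- The limit profile. -/
theorem exists_limit (h : Str x τ σ d)
    (hnp : ∀ e : ℝ, 0 < e → e ≤ 1 / 1000 → ∀ K : ℕ, ∃ n N : ℕ, ∃ δ : ℝ,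
      K ≤ N ∧ Np d n N δ e) :
    ∃ ν : ℝ, 0 < ν ∧ (∀ t : ℕ, 1 ≤ t → x t ≤ ell ν t) ∧
      (∀ e : ℝ, 0 < e → ∃ T : ℕ, 1 ≤ T ∧ ∀ t : ℕ, T ≤ t → (1 - e) * ell ν t ≤ x t) ∧
      (∀ e : ℝ, 0 < e → ∀ K : ℕ, ∃ n : ℕ, ∃ w δ : ℝ, K ≤ n ∧ (K : ℝ) ≤ w ∧
        Near d ν n w δ e) := by
  obtain ⟨ν, hν1, hν2, hν⟩ := exists_nu hnp
  have hν0 : 0 < ν := by linarith
  have hp : ∀ g : ℤ, (0 : ℝ) < ν * (2 : ℝ) ^ g := fun g => by positivity
  refine ⟨ν, hν0, ?_, ?_, ?_⟩
  · -- (X1)
    intro t ht
    have htr : (0 : ℝ) < t := by exact_mod_cast (by omega : 0 < t)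
    have hL := ell_pos hν0 (t : ℝ)
    refine le_of_forall_pos_le_add fun η hη => ?_
    obtain ⟨M, hM⟩ := exists_nat_gt (1000 + 25 * ell ν t / η)
    set e : ℝ := 1 / M with he
    have hM0 : (0 : ℝ) < M := by
      have : 0 ≤ 25 * ell ν t / η := by positivity
      linarith
    have he0 : 0 < e := by positivity
    have he1 : e ≤ 1 / 1000 := by
      apply one_div_le_one_div_of_le (by norm_num)
      have : 0 ≤ 25 * ell ν t / η := by positivity
      linarith
    have he2 : 25 * e * ell ν t ≤ η := by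
      have h1 : 25 * ell ν t / η < M := by linarith
      rw [div_lt_iff₀ hη] at h1
      rw [he]
      have : 25 * (1 / (M : ℝ)) * ell ν t = 25 * ell ν t / M := by ring
      rw [this, div_le_iff₀ hM0]
      linarith
    obtain ⟨n, N, δ, ρ, g, hKN, hN, hNρ, r1, r2⟩ := hν e he0 he1 t
    have f1 := h.np_upper hN ht hKN
    have f2 := ell_comp' (ν := ν * (2 : ℝ) ^ g) (s := (t : ℝ)) (hp g) htr (ρ := ρ) he0.le
      (by linarith) r1 r2
    rw [← hNρ, ell_scale hν0 htr] at f2
    have f3 : (1 + 20 * e) * ell N t ≤ (1 + 20 * e) * ((1 + 4 * e) * ell ν t) :=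
      mul_le_mul_of_nonneg_left f2 (by linarith)
    have f4 : (1 + 20 * e) * ((1 + 4 * e) * ell ν t) ≤ ell ν t + 25 * e * ell ν t := by
      have : (1 + 20 * e) * (1 + 4 * e) ≤ 1 + 25 * e := by nlinarith
      nlinarith
    linarith
  · -- (X2)
    intro e he
    set e' : ℝ := min e (1 / 1000) / 30 with he'
    have m0 : 0 < min e (1 / 1000) := lt_min he (by norm_num)
    have m1 : min e (1 / 1000) ≤ e := min_le_left _ _
    have m2 : min e (1 / 1000) ≤ 1 / 1000 := min_le_right _ _
    have e0 : 0 < e' := by positivity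
    have e1 : 30 * e' ≤ e := by rw [he']; linarith
    have e2 : 30 * e' ≤ 1 / 1000 := by rw [he']; linarith
    obtain ⟨n, N, δ, ρ, g, hKN, hN, hNρ, r1, r2⟩ := hν e' e0 (by linarith) 1
    refine ⟨N, hKN, ?_⟩
    intro t ht
    have htr : (0 : ℝ) < t := by exact_mod_cast (by omega : 0 < t)
    have f1 := h.np_lower hN ht
    have f2 := ell_comp (ν := ν * (2 : ℝ) ^ g) (s := (t : ℝ)) (hp g) htr (ρ := ρ) e0.le
      (by linarith) r1 r2
    rw [← hNρ, ell_scale hν0 htr] at f2
    have hL := ell_pos hν0 (t : ℝ)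
    have hLN := ell_pos (ν := (N : ℝ)) (by exact_mod_cast (by omega : 0 < N)) (t : ℝ)
    have f3 : (1 - e) * ell ν t ≤ (1 - 30 * e') * ((1 + 4 * e') * ell N t) := by
      have g1 : (1 - e) * ell ν t ≤ (1 - 30 * e') * ell ν t :=
        mul_le_mul_of_nonneg_right (by linarith) hL.le
      have g2 := mul_le_mul_of_nonneg_left f2 (show 0 ≤ 1 - 30 * e' by linarith)
      linarith
    have f4 : (1 - 30 * e') * ((1 + 4 * e') * ell N t) ≤ (1 - 20 * e') * ell N t := by
      have : (1 - 30 * e') * (1 + 4 * e') ≤ 1 - 20 * e' := by nlinarith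
      calc (1 - 30 * e') * ((1 + 4 * e') * ell N t) =
          (1 - 30 * e') * (1 + 4 * e') * ell N t := by ring
        _ ≤ (1 - 20 * e') * ell N t := mul_le_mul_of_nonneg_right this hLN.le
    linarith
  · -- near
    intro e he K
    set e' : ℝ := min e (1 / 1000) / 10 with he'
    have m0 : 0 < min e (1 / 1000) := lt_min he (by norm_num)
    have m1 : min e (1 / 1000) ≤ e := min_le_left _ _
    have m2 : min e (1 / 1000) ≤ 1 / 1000 := min_le_right _ _
    have e0 : 0 < e' := by positivity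
    have e1 : 10 * e' ≤ e := by rw [he']; linarith
    have e2 : 10 * e' ≤ 1 / 1000 := by rw [he']; linarith
    obtain ⟨n, N, δ, ρ, g, hKN, hN, hNρ, r1, r2⟩ := hν e' e0 (by linarith) (2 * K + 2)
    obtain ⟨s1, s2⟩ := h.np_small hN
    have s3 := hN.le
    have s7 := hN.δ0
    have hbig := hN.big
    have hh1 := hN.h1
    have hN1 : 1 ≤ N := by omega
    have hKN' : 2 * (K : ℝ) + 2 ≤ N := by exact_mod_cast hKN
    have hK0 : (0 : ℝ) ≤ K := Nat.cast_nonneg K
    set w := ν * (2 : ℝ) ^ g with hw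
    have w0 : 0 < w := hp g
    have hρ : 0 < ρ := by linarith
    have hn2 : 2 * (N : ℝ) - 1 ≤ n := by
      have h1 : 2 * N ≤ n + 1 := by omega
      have h2 : ((2 * N : ℕ) : ℝ) ≤ ((n + 1 : ℕ) : ℝ) := by exact_mod_cast h1
      push_cast at h2
      linarith
    refine ⟨n, w, δ, by omega, ?_, ?_⟩
    · -- `w = N / ρ ≥ N / 2`
      have : (N : ℝ) ≤ w * 2 := by
        rw [hNρ]
        exact mul_le_mul_of_nonneg_left (by linarith) w0.le
      linarith
    · have hwδ : (w * δ) * ρ = N * δ := by rw [hNρ]; ring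
      have hwδ0 : 0 < w * δ := by positivity
      exact
        { n1 := by omega
          seam := ⟨g, rfl⟩
          w0 := w0
          δ0 := s7
          le := by
            by_contra hcon
            push Not at hcon
            have g1 : (w * δ) * ρ ≤ (w * δ) * (1 + e') := mul_le_mul_of_nonneg_left r2 hwδ0.le
            have g2 : w * δ < 1 - 10 * e' := by linarith
            have g3 : (w * δ) * (1 + e') < (1 - 10 * e') * (1 + e') :=
              mul_lt_mul_of_pos_right g2 (by linarith)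
            nlinarith
          ge := by
            by_contra hcon
            push Not at hcon
            have g1 : (w * δ) * (1 - e') ≤ (w * δ) * ρ := mul_le_mul_of_nonneg_left r1 hwδ0.le
            have g2 : 1 + 10 * e' < w * δ := by linarith
            have g3 : (1 + 10 * e') * (1 - e') < (w * δ) * (1 - e') :=
              mul_lt_mul_of_pos_right g2 (by linarith)
            nlinarith
          dn := hN.dn
          nw := by
            have g1 : w * (1 - e') ≤ N := by
              rw [hNρ]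
              exact mul_le_mul_of_nonneg_left r1 w0.le
            have g2 : N ≤ w * (1 + e') := by
              rw [hNρ]
              exact mul_le_mul_of_nonneg_left r2 w0.le
            have g3 : (1 - e) * (2 * w) ≤ (1 - 10 * e') * (2 * w) :=
              mul_le_mul_of_nonneg_right (by linarith) (by linarith)
            -- `2 N - 1 ≥ 2 w (1 - e') - e' N`
            have g4 : e' * N ≤ e' * (w * (1 + e')) := mul_le_mul_of_nonneg_left g2 e0.le
            have g5 : e' * (w * (1 + e')) ≤ 2 * (e' * w) := by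
              have : e' * w * (1 + e') ≤ e' * w * 2 :=
                mul_le_mul_of_nonneg_left (by linarith) (by positivity)
              linarith
            have g6 : 0 < e' * w := by positivity
            nlinarith }

end Pool.H17.SP
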