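import Pool.Agent.H17.SP.NearSb

/-!
[H17 SP SC] MP_eb524a_co, Q1 (full answer). Step 4 (c). y = log 2 * δ, E = exp y, κ = w δ.
Suppose t is crossing. Str.crossing_low gives k, u with k < 2t, t ≤ u < k, k = τ u or σ u; so
x (2t-1) ≤ x k ≤ x (τ u). Str.chain (2t ≤ n): E x (2t) ≤ x (2t-1). Good.cross: E x t ≤ 2 x (2t).
Hence E^2 x t ≤ 2 x (τ u) = 2 x u - 2 x (σ u) ≤ 2 x u - E x (u+1) (Str.sig_near, u + 1 ≤ n), and
exp(y (u-t)) x u ≤ x t (Str.chain_pow). With m = u - t:
x (u+1) ≤ x u (2 exp(-y) - exp(y (1+m))) ≤ x u (1 - (3+m) y + y^2), i.e.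
(*) x u - x (u+1) ≥ ((3+m) y - y^2) x u, and x u ≥ 0.999 ell u (h.X2, u ≥ T).
* u = t (t < w): right side of (*) ≥ 0.999 (3 κ/2 - κ y/2) A ≥ 1.49 A, A = Aa ν t (Good.slope').
  J0 and x t ≤ exp(-y) ell t ≤ (1 - y + y^2/2) ell t (Good.cross): x t - x (t+1) ≤
  (-2y + y^2) ell t + 2A + q (t+2) ≤ (-κ + κ y/2 + 2 + 0.33) A ≤ 1.34 A (Good.b at t+2).
* u > t, u < w: (*) ≥ 0.999 (2κ - κ y/2) Aa u ≥ 1.99 Aa u, but x u - x (u+1) ≤
  Aa u + q u + q (u+2) ≤ 1.66 Aa u (Lim.diff_le, Good.b).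
* u ≥ w (then m ≥ 1, u < 2t < w + 2): (*) ≥ 0.999 (4 - y) κ Aa u ≥ 3.9 Aa u (Good.slope), but
  x u - x (u+1) ≤ Aa u + q u + q (u+2) ≤ (1 + 86/33) Aa u (lem2).
-/

namespace Pool.H17.SP

open Finset Filter
open Pool.Agent.H36.Split

variable {x : ℕ → ℝ} {τ σ : ℕ → ℕ} {d : ℕ → ℝ} {ν : ℝ} {q : ℕ → ℝ} {T n : ℕ} {w δ : ℝ}

/-- The basic inequality (*): `x u - x (u+1) ≥ ((3+m) y - y^2) x u`, `u = t + m`. -/
lemma Good.c_star (h : Good x τ σ d ν q T n w δ) {t : ℕ} (ht2 : 2 ≤ t) (htn : 2 * t ≤ n)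
    (hcr : Crossing τ σ t) : ∃ m : ℕ, t + m + 1 < 2 * t ∧
    ((3 + (m : ℝ)) * (Real.log 2 * δ) - (Real.log 2 * δ) ^ 2) * x (t + m) ≤
      x (t + m) - x (t + m + 1) := by
  have hS := h.lim.str
  obtain ⟨y0, y1, E1, E2⟩ := h.y
  obtain ⟨k, u, hk2, hkt, htu, huk, hku⟩ := hS.crossing_low (t := t) (by omega) hcr
  have hd := h.near.dn
  have hu1 : u + 1 ≤ 2 * t - 1 := by omega
  have f1 : x k ≤ x (τ u) := by
    rcases hku with hku | hku
    · rw [hku]
    · rw [hku]; exact (hS.lt (hS.tau_pos (by omega)) (hS.sig_gt (by omega))).le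
  have f2 := hS.le (i := k) (j := 2 * t - 1) (by omega) (by omega)
  have f3 := hS.chain hd (t := 2 * t - 1) (by omega) (by omega)
  rw [show 2 * t - 1 + 1 = 2 * t by omega] at f3
  obtain ⟨hc1, hc2⟩ := h.cross ht2 (by omega) hcr
  have hsp := hS.cut.split u (by omega)
  have hsn := hS.sig_near hd (t := u) (by omega) (by omega)
  obtain ⟨m, rfl⟩ : ∃ m, u = t + m := ⟨u - t, by omega⟩
  have f4 := hS.chain_pow hd (t := t) (by omega) m (by omega)
  have xt := hS.pos (t := t) (by omega)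
  have xu := hS.pos (t := t + m) (by omega)
  refine ⟨m, by omega, ?_⟩
  have hm0 : (0 : ℝ) ≤ m := Nat.cast_nonneg m
  have g0 := Real.add_one_le_exp ((Real.log 2 * δ) * (1 + (m : ℝ)))
  have g1 := exp_sub_le y0.le
  have e0 : Real.exp (-(Real.log 2 * δ)) * Real.exp (Real.log 2 * δ) = 1 := by
    rw [← Real.exp_add]; simp
  have e1 : Real.exp (Real.log 2 * δ * m) * Real.exp (-(Real.log 2 * δ * m)) = 1 := by
    rw [← Real.exp_add]; simp
  have e2 : Real.exp ((Real.log 2 * δ) * (1 + (m : ℝ))) =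
      Real.exp (Real.log 2 * δ) * Real.exp (Real.log 2 * δ * m) := by
    rw [← Real.exp_add]; congr 1; ring
  have p1 := Real.exp_pos (Real.log 2 * δ)
  have p2 := Real.exp_pos (-(Real.log 2 * δ))
  have p3 := Real.exp_pos (Real.log 2 * δ * m)
  rw [e2] at g0
  set y := Real.log 2 * δ with hy
  set E := Real.exp y with hE
  set F := Real.exp (-y) with hF
  set G := Real.exp (y * m) with hG
  set G' := Real.exp (-(y * m)) with hG'
  -- `G x u ≤ x t`
  have h1 : G * x (t + m) ≤ x t := by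
    have := mul_le_mul_of_nonneg_left f4 p3.le
    have e3 : G * (G' * x t) = x t := by rw [← mul_assoc, e1, one_mul]
    linarith only [this, e3]
  -- `E x (2t) ≤ x (2t-1)`
  have h2 : E * x (2 * t) ≤ x (2 * t - 1) := by
    have := mul_le_mul_of_nonneg_left f3 p1.le
    have e3 : E * (F * x (2 * t - 1)) = x (2 * t - 1) := by
      rw [← mul_assoc, mul_comm E F, e0, one_mul]
    linarith only [this, e3]
  -- `E^2 x t ≤ 2 x (2t-1)`
  have h3 : E * (E * x t) ≤ 2 * x (2 * t - 1) := by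
    have := mul_le_mul_of_nonneg_left hc1 p1.le
    linarith only [this, h2]
  have h4 : E * (E * (G * x (t + m))) ≤ E * (E * x t) :=
    mul_le_mul_of_nonneg_left (mul_le_mul_of_nonneg_left h1 p1.le) p1.le
  -- `E x (u+1) ≤ (2 - E^2 G) x u`
  have h5 : E * x (t + m + 1) ≤ 2 * x (t + m) - E * (E * (G * x (t + m))) := by
    linarith only [h4, h3, f2, f1, hsp, hsn]
  have h6 : x (t + m + 1) ≤ 2 * F * x (t + m) - E * G * x (t + m) := by
    have := mul_le_mul_of_nonneg_left h5 p2.le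
    have e3 : F * (E * x (t + m + 1)) = x (t + m + 1) := by rw [← mul_assoc, e0, one_mul]
    have e4 : F * (2 * x (t + m) - E * (E * (G * x (t + m)))) =
        2 * F * x (t + m) - F * E * (E * G * x (t + m)) := by ring
    rw [e3, e4, e0, one_mul] at this
    exact this
  have h7 : 2 * F * x (t + m) ≤ (2 - 2 * y + y ^ 2) * x (t + m) := by
    apply mul_le_mul_of_nonneg_right _ xu.le
    linarith only [g1]
  have h8 : (1 + y * (1 + m)) * x (t + m) ≤ E * G * x (t + m) := by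
    apply mul_le_mul_of_nonneg_right _ xu.le
    linarith only [g0]
  have e5 : x (t + m) - ((2 - 2 * y + y ^ 2) * x (t + m) - (1 + y * (1 + m)) * x (t + m)) =
      ((3 + (m : ℝ)) * y - y ^ 2) * x (t + m) := by ring
  linarith only [h6, h7, h8, e5]

/-- (c) -/
lemma Good.c (h : Good x τ σ d ν q T n w δ) {t : ℕ} (h1 : w / 2 ≤ t) (h2 : (t : ℝ) < w / 2 + 1) :
    ¬ Crossing τ σ t := by
  intro hcr
  have hν := h.lim.nu
  obtain ⟨w0, δ0, k1, k2, hδ, hnw⟩ := h.num
  obtain ⟨y0, y1, E1, E2⟩ := h.y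
  have hw := h.wbig
  have hwT := h.wT
  have hT0 : (0 : ℝ) ≤ T := Nat.cast_nonneg T
  have ht2' : (2 : ℝ) ≤ t := by linarith
  have ht2 : 2 ≤ t := by exact_mod_cast ht2'
  have htn : 2 * t ≤ n := by
    have : ((2 * t : ℕ) : ℝ) ≤ n := by push_cast; linarith
    exact_mod_cast this
  obtain ⟨m, hm, hstar⟩ := h.c_star ht2 htn hcr
  have hm0 : (0 : ℝ) ≤ m := Nat.cast_nonneg m
  have hmt : (t : ℝ) + m + 1 < 2 * t := by exact_mod_cast hm
  have hcu : ((t + m : ℕ) : ℝ) = (t : ℝ) + m := by push_cast; ring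
  have hTu : T ≤ t + m := by
    have : (T : ℝ) ≤ ((t + m : ℕ) : ℝ) := by rw [hcu]; linarith
    exact_mod_cast this
  have hX := h.X2 (t + m) hTu
  have hX1 := h.lim.X1 (t + m) (by omega)
  have hell := ell_pos hν ((t + m : ℕ) : ℝ)
  have hA0 := Aa_pos hν ((t + m : ℕ) : ℝ)
  set y := Real.log 2 * δ with hy
  set A := Aa ν ((t + m : ℕ) : ℝ) with hA
  set L := ell ν ((t + m : ℕ) : ℝ) with hL
  -- lower bound in terms of `y L`
  have low : (3 + (m : ℝ)) * (999 / 1000 * (y * L)) - y * (y * L) ≤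
      ((3 + (m : ℝ)) * y - y ^ 2) * x (t + m) := by
    have f1 : (3 + (m : ℝ)) * y * ((1 - 1 / 1000) * L) ≤ (3 + (m : ℝ)) * y * x (t + m) :=
      mul_le_mul_of_nonneg_left hX (by positivity)
    have f2 : y ^ 2 * x (t + m) ≤ y ^ 2 * L := mul_le_mul_of_nonneg_left hX1 (by positivity)
    have f3 : (3 + (m : ℝ)) * y * ((1 - 1 / 1000) * L) = (3 + (m : ℝ)) * (999 / 1000 * (y * L)) := by
      ring
    have f4 : y ^ 2 * L = y * (y * L) := by ring
    have f5 : ((3 + (m : ℝ)) * y - y ^ 2) * x (t + m) =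
      (3 + (m : ℝ)) * y * x (t + m) - y ^ 2 * x (t + m) := by ring
    linarith only [f1, f2, f3, f4, f5]
  have hbu := fun hh => h.b (t := t + m) (by rw [hcu]; linarith) hh
  rcases le_or_gt w ((t + m : ℕ) : ℝ) with hwu | hwu
  · -- u ≥ w
    have hsl := h.slope (s := ((t + m : ℕ) : ℝ)) hwu (by rw [hcu]; linarith)
    have hm1' : (1 : ℝ) ≤ m := by rw [hcu] at hwu; linarith
    have hdiff := h.lim.diff_le (t := t + m) (by omega)
    have l1 := h.lim.lem2 (t := t + m) (by omega)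
    have l2 := h.lim.lem2 (t := t + m + 2) (by omega)
    have a2 := Aa_anti hν (s := ((t + m : ℕ) : ℝ)) (s' := ((t + m + 2 : ℕ) : ℝ))
      (by rw [hcu]; linarith) (by push_cast; linarith)
    have g1 : y * L = w * δ * A := hsl
    have g2 : 999999 / 1000000 * A ≤ w * δ * A := mul_le_mul_of_nonneg_right k1 hA0.le
    have g3 : w * δ * A ≤ 2 * A := mul_le_mul_of_nonneg_right (by linarith only [k2]) hA0.le
    rw [← g1] at g2 g3
    have g4 : 4 * (999 / 1000 * (y * L)) ≤ (3 + (m : ℝ)) * (999 / 1000 * (y * L)) :=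
      mul_le_mul_of_nonneg_right (by linarith only [hm1']) (by positivity)
    have g5 : y * (y * L) ≤ 1 / 1000000 * (2 * A) := mul_le_mul y1 g3 (by positivity) (by norm_num)
    linarith only [g2, g4, g5, low, hstar, hdiff, l1, l2, a2, hA0]
  · have hsl := h.slope' (s := ((t + m : ℕ) : ℝ)) (by rw [hcu]; linarith) hwu
    have g1 : y * L = w * δ * A / 2 := hsl
    have g2 : 999999 / 1000000 * A ≤ w * δ * A := mul_le_mul_of_nonneg_right k1 hA0.le
    have g3 : w * δ * A ≤ 2 * A := mul_le_mul_of_nonneg_right (by linarith only [k2]) hA0.le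
    have g2' : 999999 / 1000000 * A ≤ 2 * (y * L) := by linarith only [g1, g2]
    have g3' : y * L ≤ A := by linarith only [g1, g3]
    have g5 : y * (y * L) ≤ 1 / 1000000 * A := mul_le_mul y1 g3' (by positivity) (by norm_num)
    have b2 := h.b (t := t + m + 2) (by push_cast; rw [hcu] at hwu; linarith)
      (by push_cast; rw [hcu] at hwu; linarith)
    have a2 := Aa_anti hν (s := ((t + m : ℕ) : ℝ)) (s' := ((t + m + 2 : ℕ) : ℝ))
      (by rw [hcu]; linarith) (by push_cast; linarith)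
    rcases Nat.eq_zero_or_pos m with hm | hm
    · -- u = t
      subst hm
      obtain ⟨hc1, hc2⟩ := h.cross ht2 (by omega) hcr
      have hJ0 := h.lim.J0 (t := t) (by omega)
      have q0 := h.lim.q0 t (by omega)
      have f1 : x t ≤ (1 - y + y ^ 2 / 2) * L := by
        have e0 : Real.exp (-y) * Real.exp y = 1 := by rw [← Real.exp_add]; simp
        have e1 : Real.exp (-y) * (Real.exp y * x t) ≤ Real.exp (-y) * ell ν t :=
          mul_le_mul_of_nonneg_left hc2 (Real.exp_pos _).le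
        have e2 : Real.exp (-y) * (Real.exp y * x t) = x t := by rw [← mul_assoc, e0, one_mul]
        have e3 := mul_le_mul_of_nonneg_right (exp_sub_le y0.le) hell.le
        have hL' : L = ell ν t := rfl
        rw [← hL'] at e1
        linarith only [e1, e2, e3]
      have f2 : (1 - y + y ^ 2 / 2) * L = L - y * L + y * (y * L) / 2 := by ring
      have hL' : ell ν t = L := rfl
      have hA' : Aa ν t = A := rfl
      rw [hL', hA'] at hJ0
      have hz : ((0 : ℕ) : ℝ) = 0 := Nat.cast_zero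
      rw [hz] at low hstar
      rw [show t + 0 = t by ring] at low hstar b2 a2
      rw [hA'] at a2
      linarith only [f1, f2, hJ0, q0, low, hstar, b2, a2, g2', g3', g5, hA0]
    · have hm1' : (1 : ℝ) ≤ m := by exact_mod_cast hm
      have b1 := hbu (by linarith)
      have hdiff := h.lim.diff_le (t := t + m) (by omega)
      have g4 : 4 * (999 / 1000 * (y * L)) ≤ (3 + (m : ℝ)) * (999 / 1000 * (y * L)) :=
        mul_le_mul_of_nonneg_right (by linarith only [hm1']) (by positivity)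
      linarith only [g2', g4, g5, low, hstar, hdiff, b1, b2, a2, hA0]

end Pool.H17.SP
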