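import Pool.Agent.H17.SP.NearL
import Pool.Agent.H17.SP.NearSc

/-!
[H17 SP SMALL] MP_eb524a_co, Q1 (full answer). Step 5, case l < w/4, and conclusion.
climb: for l < m < w there is j with w/2 ≤ 2^j m < w and q m = q (2^j m) (double as long as m < w/2,
q m = q (2m) since m is not crossing). small: k = 2^j (2l) (j ≥ 1 as 2l < w/2) and k' for 2l+2;
a = Aa ν k. q (2l) ≤ 33/100 a, q (2l+2) ≤ 33/100 Aa ν k' ≤ 66/100 a: on [w/2, w)
Aa = (2c/w) ell, ell k' ≤ ell (w/2) = 2 ell w ≤ 2 ell k (ell_two, ell_anti). D3 (l + 1 is not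
crossing): y x l ≤ q (2l+2) + 3 q (2l) ≤ 1.65 a, but y x l ≥ 0.999 y ell l = 0.999 y 2^(j+1) ell k
= 0.999 2^j κ a ≥ 1.99 a (ell_two j+1 times, Good.slope').
none: let l be the largest crossing number in [max T 2, w/2 + 1). By Good.c, l < w/2; l + 1 is not
crossing; Good.large or Good.small.
-/

namespace Pool.H17.SP

open Finset Filter
open Pool.Agent.H36.Split

variable {x : ℕ → ℝ} {τ σ : ℕ → ℕ} {d : ℕ → ℝ} {ν : ℝ} {q : ℕ → ℝ} {T n : ℕ} {w δ : ℝ}

lemma Good.climb (h : Good x τ σ d ν q T n w δ) {l : ℕ}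
    (hc' : ∀ t : ℕ, l < t → (t : ℝ) < w / 2 → ¬ Crossing τ σ t) {m : ℕ} (hm : l < m)
    (hmw : (m : ℝ) < w) :
    ∃ j : ℕ, w / 2 ≤ ((2 ^ j * m : ℕ) : ℝ) ∧ ((2 ^ j * m : ℕ) : ℝ) < w ∧ q m = q (2 ^ j * m) := by
  -- induction on the distance `⌈w⌉ - m`
  obtain ⟨M, hM⟩ := exists_nat_gt w
  have key : ∀ k : ℕ, ∀ m : ℕ, M ≤ m + k → l < m → (m : ℝ) < w →
      ∃ j : ℕ, w / 2 ≤ ((2 ^ j * m : ℕ) : ℝ) ∧ ((2 ^ j * m : ℕ) : ℝ) < w ∧
        q m = q (2 ^ j * m) := by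
    intro k
    induction k with
    | zero =>
      intro m hMm hm hmw
      exfalso
      have : (M : ℝ) ≤ m := by exact_mod_cast hMm
      linarith
    | succ k ih =>
      intro m hMm hm hmw
      rcases le_or_gt (w / 2) (m : ℝ) with h1 | h1
      · exact ⟨0, by simpa using h1, by simpa using hmw, by simp⟩
      · obtain ⟨j, a1, a2, a3⟩ := ih (2 * m) (by omega) (by omega) (by push_cast; linarith)
        have e : 2 ^ (j + 1) * m = 2 ^ j * (2 * m) := by ring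
        refine ⟨j + 1, by rw [e]; exact a1, by rw [e]; exact a2, ?_⟩
        rw [e, ← a3]
        exact h.lim.q_two_eq (by omega) (hc' m hm h1)
  exact key M m (by omega) hm hmw

/-- The small case. -/
lemma Good.small (h : Good x τ σ d ν q T n w δ) {l : ℕ} (hT : T ≤ l) (hl : 2 ≤ l)
    (h2 : (l : ℝ) < w / 4) (hc : Crossing τ σ l)
    (hc' : ∀ t : ℕ, l < t → (t : ℝ) < w / 2 → ¬ Crossing τ σ t) : False := by
  have hν := h.lim.nu
  obtain ⟨w0, δ0, k1, k2, hδ, hnw⟩ := h.num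
  have hw := h.wbig
  have hl' : (2 : ℝ) ≤ l := by exact_mod_cast hl
  obtain ⟨j, j1, j2, j3⟩ := h.climb hc' (m := 2 * l) (by omega) (by push_cast; linarith)
  obtain ⟨i, i1, i2, i3⟩ := h.climb hc' (m := 2 * l + 2) (by omega) (by push_cast; linarith)
  set k := 2 ^ j * (2 * l) with hk
  set k' := 2 ^ i * (2 * l + 2) with hk'
  have hb := h.b (t := k) j1 (by linarith)
  have hb' := h.b (t := k') i1 (by linarith)
  -- compare the slopes
  have s1 := Aa_seam' (s := (k : ℝ)) hν h.near.seam j1 j2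
  have s2 := Aa_seam' (s := (k' : ℝ)) hν h.near.seam i1 i2
  have e1 := ell_anti hν (s := (k : ℝ)) (s' := w) (by linarith) j2.le
  have e2 := ell_anti hν (s := w / 2) (s' := (k' : ℝ)) (by linarith) i1
  have e3 := ell_two hν (s := w / 2) (by linarith)
  rw [show 2 * (w / 2) = w by ring] at e3
  have hAA : Aa ν k' ≤ 2 * Aa ν k := by
    rw [s1, s2]
    have hc := log_two_pos
    have : 0 < 2 * Real.log 2 / w := by positivity
    calc 2 * Real.log 2 / w * ell ν k' ≤ 2 * Real.log 2 / w * (2 * ell ν k) :=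
          mul_le_mul_of_nonneg_left (by linarith) this.le
      _ = 2 * (2 * Real.log 2 / w * ell ν k) := by ring
  have hA := Aa_pos hν (k : ℝ)
  -- (D3)
  have hln : l ≤ n := by
    have : (l : ℝ) ≤ n := by linarith
    exact_mod_cast this
  have hD := h.D3 hl hln hc (hc' (l + 1) (by omega) (by push_cast; linarith))
  have q1 := h.lim.q0 (2 * l + 1) (by omega)
  have q2 := h.lim.q0 (2 * l - 1) (by omega)
  -- lower bound
  have hX := h.X2 l hT
  have hy : 0 < Real.log 2 * δ := mul_pos log_two_pos δ0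
  have hsl := h.slope' (s := (k : ℝ)) j1 j2
  have hj : j ≠ 0 := by
    intro hj0
    rw [hk, hj0, pow_zero, one_mul] at j1
    push_cast at j1
    linarith
  obtain ⟨j', rfl⟩ := Nat.exists_eq_succ_of_ne_zero hj
  have hell : ell ν l = 2 ^ (j' + 2) * ell ν k := by
    have e4 : ((k : ℕ) : ℝ) = 2 ^ (j' + 2) * (l : ℝ) := by
      rw [hk, Nat.succ_eq_add_one]; push_cast; ring
    rw [e4, ell_two_pow hν (by linarith)]
    field_simp
  have hp : (1 : ℝ) ≤ 2 ^ j' := one_le_pow₀ (by norm_num)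
  have hlow : Real.log 2 * δ * ((1 - 1 / 1000) * ell ν l) ≤ Real.log 2 * δ * x l :=
    mul_le_mul_of_nonneg_left hX hy.le
  have e5 : Real.log 2 * δ * ((1 - 1 / 1000) * ell ν l) =
      (1 - 1 / 1000) * 2 ^ j' * 2 * (w * δ) * Aa ν k := by
    rw [hell, pow_add]
    calc Real.log 2 * δ * ((1 - 1 / 1000) * (2 ^ j' * 2 ^ 2 * ell ν k))
        = (1 - 1 / 1000) * 2 ^ j' * 4 * (Real.log 2 * δ * ell ν k) := by ring
      _ = (1 - 1 / 1000) * 2 ^ j' * 4 * (w * δ * Aa ν k / 2) := by rw [hsl]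
      _ = _ := by ring
  rw [e5] at hlow
  have e6 : 199 / 100 ≤ (1 - 1 / 1000) * 2 ^ j' * 2 * (w * δ) := by nlinarith
  have e7 : 199 / 100 * Aa ν k ≤ (1 - 1 / 1000) * 2 ^ j' * 2 * (w * δ) * Aa ν k :=
    mul_le_mul_of_nonneg_right e6 hA.le
  linarith

/-- No crossing from `T` on. -/
theorem Good.none (h : Good x τ σ d ν q T n w δ) {t : ℕ} (hT : T ≤ t) (ht : 2 ≤ t)
    (h2 : (t : ℝ) < w / 2 + 1) : ¬ Crossing τ σ t := by
  intro hc
  obtain ⟨w0, δ0, k1, k2, hδ, hnw⟩ := h.num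
  have hw := h.wbig
  -- the largest crossing time
  have hex : ∃ l : ℕ, T ≤ l ∧ 2 ≤ l ∧ (l : ℝ) < w / 2 + 1 ∧ Crossing τ σ l ∧
      ∀ r : ℕ, l < r → (r : ℝ) < w / 2 + 1 → ¬ Crossing τ σ r := by
    by_contra hno
    push Not at hno
    obtain ⟨M, hM⟩ := exists_nat_gt (w / 2 + 1)
    have : ∀ m : ℕ, ∃ l : ℕ, m ≤ l ∧ T ≤ l ∧ 2 ≤ l ∧ (l : ℝ) < w / 2 + 1 ∧ Crossing τ σ l := by
      intro m
      induction m with
      | zero => exact ⟨t, by omega, hT, ht, h2, hc⟩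
      | succ m ih =>
        obtain ⟨l, a1, a2, a3, a4, a5⟩ := ih
        obtain ⟨r, b1, b2, b3⟩ := hno l a2 a3 a4 a5
        exact ⟨r, by omega, by omega, by omega, b2, b3⟩
    obtain ⟨l, a1, a2, a3, a4, a5⟩ := this M
    have : (M : ℝ) ≤ l := by exact_mod_cast a1
    linarith
  obtain ⟨l, a1, a2, a3, a4, a5⟩ := hex
  rcases le_or_gt (w / 2) (l : ℝ) with h3 | h3
  · exact h.c h3 a3 a4
  · rcases le_or_gt (w / 4) (l : ℝ) with h4 | h4
    · exact h.large h4 h3 a4 (a5 (l + 1) (by omega) (by push_cast; linarith))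
    · exact h.small a1 a2 h4 a4 (fun r hr hrw => a5 r hr (by linarith))

end Pool.H17.SP
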