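import Pool.Agent.H17.SP.Comb
import Pool.Agent.H17.SP.EllInt

/-!
[H17 SP POT] MP_eb524a_co, Q1 (full answer). Step 2: the potential.
exists_potential. Q = Qp x ν. For j ≥ 2: uu j ≥ ell j - Aa j/2 (le_uu) and Aa j ≤ ell (j-1) - ell j
(ell_support at j), x j ≤ ell j; so M j = Q j - ell (j-1)/2 is nondecreasing for j ≥ 2 (Qp_succ).
Q (2^m) ≤ Q 1 = 0 (Qp_two, Str.W_nonneg), and ell > 0, so M is bounded above by M j ≤ M (2^m) ≤ 0.
M converges to some L (tendsto_atTop_of_monotone / tendsto_atTop_ciSup), ell (j-1) -> 0 (ell_le), so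
Q -> L; for t ≥ 1, Q (2^m t) ≤ Q t, so L ≤ Q t. q = Q - L.
-/

namespace Pool.H17.SP

open Finset Filter
open Pool.Agent.H36.Split

variable {x : ℕ → ℝ} {τ σ : ℕ → ℕ} {d : ℕ → ℝ} {ν : ℝ}

/-- `Q t = ∑_{j<t} uu j - P t`. -/
noncomputable def Qp (x : ℕ → ℝ) (ν : ℝ) (t : ℕ) : ℝ := ∑ j ∈ Finset.Ico 1 t, uu ν j - P x t

lemma Qp_succ {t : ℕ} (ht : 1 ≤ t) : Qp x ν (t + 1) = Qp x ν t + uu ν t - x t := by
  unfold Qp P
  rw [sum_Ico_succ_top ht, sum_Ico_succ_top ht]
  ring

lemma Qp_two (h : Str x τ σ d) (hν : 0 < ν) {t : ℕ} (ht : 1 ≤ t) :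
    Qp x ν (2 * t) = Qp x ν t - W x τ σ t := by
  have h1 := sum_uu hν ht
  have h2 : ∑ j ∈ Finset.Ico 1 (2 * t), uu ν j =
      ∑ j ∈ Finset.Ico 1 t, uu ν j + ∑ j ∈ Finset.Ico t (2 * t), uu ν j :=
    (sum_Ico_consecutive _ ht (by omega)).symm
  unfold Qp
  rw [h2, h1, h.W_eq ht]
  ring

lemma ell_tendsto (hν : 0 < ν) : Tendsto (fun j : ℕ => ell ν ((j : ℝ) + 1)) atTop (nhds 0) := by
  have h1 : Tendsto (fun j : ℕ => 4 / ((j : ℝ) + 1)) atTop (nhds 0) := by
    have := (tendsto_one_div_add_atTop_nhds_zero_nat (𝕜 := ℝ)).const_mul 4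
    rw [mul_zero] at this
    refine this.congr fun j => ?_
    ring
  refine squeeze_zero (fun j => (ell_pos hν _).le) (fun j => ?_) h1
  exact ell_le hν (by positivity)

lemma Qp_pow (h : Str x τ σ d) (hν : 0 < ν) {t : ℕ} (ht : 1 ≤ t) (m : ℕ) :
    Qp x ν (2 ^ m * t) ≤ Qp x ν t := by
  induction m with
  | zero => simp
  | succ m ih =>
    have h1 : 1 ≤ 2 ^ m * t := Nat.one_le_iff_ne_zero.mpr (by positivity)
    have h2 := Qp_two h hν h1
    have h3 := h.W_nonneg h1
    rw [show 2 ^ (m + 1) * t = 2 * (2 ^ m * t) by ring]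
    linarith

theorem exists_potential (h : Str x τ σ d) (hν : 0 < ν)
    (X1 : ∀ t : ℕ, 1 ≤ t → x t ≤ ell ν t) : ∃ q : ℕ → ℝ, Lim x τ σ d ν q := by
  -- the monotone sequence `M j = Q (j + 2) - ell (j + 1) / 2`
  set M : ℕ → ℝ := fun j => Qp x ν (j + 2) - ell ν ((j : ℝ) + 1) / 2 with hM
  have hmono : Monotone M := by
    apply monotone_nat_of_le_succ
    intro j
    have h1 := Qp_succ (x := x) (ν := ν) (t := j + 2) (by omega)
    have h2 := le_uu hν (t := j + 2) (by omega)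
    have h3 := X1 (j + 2) (by omega)
    have h4 := ell_support (s := ((j + 2 : ℕ) : ℝ)) (s' := (j : ℝ) + 1) hν (by positivity)
      (by positivity)
    have e1 : (j : ℝ) + 1 - ((j + 2 : ℕ) : ℝ) = -1 := by push_cast; ring
    rw [e1] at h4
    have e2 : (((j + 1 : ℕ) : ℝ) + 1) = ((j + 2 : ℕ) : ℝ) := by push_cast; ring
    simp only [hM]
    rw [show j + 1 + 2 = j + 2 + 1 by ring, h1, e2]
    linarith
  have hQ1 : Qp x ν 1 = 0 := by simp [Qp, P]
  have hbdd : BddAbove (Set.range M) := by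
    refine ⟨0, ?_⟩
    rintro _ ⟨j, rfl⟩
    have h1 : j ≤ 2 ^ (j + 1) - 2 := by
      have : j + 1 < 2 ^ (j + 1) := Nat.lt_two_pow_self
      omega
    have h2 := hmono h1
    have h3 : M (2 ^ (j + 1) - 2) ≤ 0 := by
      have h4 : 2 ≤ 2 ^ (j + 1) := by
        rw [pow_succ]
        have := Nat.one_le_two_pow (n := j)
        omega
      have h5 := Qp_pow h hν (t := 1) le_rfl (j + 1)
      have h6 := ell_pos hν (((2 ^ (j + 1) - 2 : ℕ) : ℝ) + 1)
      simp only [hM]
      rw [show 2 ^ (j + 1) - 2 + 2 = 2 ^ (j + 1) * 1 by omega]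
      linarith
    exact h2.trans h3
  have hlim := tendsto_atTop_ciSup hmono hbdd
  set L := ⨆ j, M j with hL
  have hQlim : Tendsto (fun j => Qp x ν (j + 2)) atTop (nhds L) := by
    have h1 := hlim.add ((ell_tendsto hν).div_const 2)
    rw [zero_div, add_zero] at h1
    refine h1.congr fun j => ?_
    simp only [hM]
    ring
  have hQlim' : Tendsto (fun j => Qp x ν j) atTop (nhds L) :=
    (tendsto_add_atTop_iff_nat (f := fun j => Qp x ν j) 2).mp hQlim
  have hle : ∀ t, 1 ≤ t → L ≤ Qp x ν t := by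
    intro t ht
    have h1 : Tendsto (fun m : ℕ => 2 ^ m * t) atTop atTop := by
      apply tendsto_atTop_mono (f := fun m : ℕ => m) _ tendsto_id
      intro m
      have h2 : m < 2 ^ m := Nat.lt_two_pow_self
      have h3 : 2 ^ m ≤ 2 ^ m * t := Nat.le_mul_of_pos_right _ ht
      omega
    refine le_of_tendsto (hQlim'.comp h1) ?_
    exact Eventually.of_forall fun m => Qp_pow h hν ht m
  refine ⟨fun t => Qp x ν t - L, ?_⟩
  exact
    { str := h
      nu := hν
      X1 := X1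
      q0 := fun t ht => by have := hle t ht; linarith
      qlim := by
        have := hQlim'.sub_const L
        rwa [sub_self] at this
      qW := fun t ht => by
        have := Qp_two h hν ht
        linarith
      qstep := fun t ht => by
        have := Qp_succ (x := x) (ν := ν) ht
        linarith }

end Pool.H17.SP
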