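import Pool.Agent.H36.SplitFifo
import Pool.Agent.H17.SP.NearB
import Pool.Agent.H17.SP.LimEx
import Pool.Agent.H17.SP.Pot

/-!
[H17 SP FIN] MP_eb524a_co, Q1 (full answer). The final contradiction.
-/

namespace Pool.H17.SP

open Finset Filter
open Pool.Agent.H36.Split

variable {x : ℕ → ℝ} {τ σ : ℕ → ℕ} {d : ℕ → ℝ} {ν : ℝ} {q : ℕ → ℝ}

theorem no_np (h : Str x τ σ d)
    (hnp : ∀ e : ℝ, 0 < e → e ≤ 1 / 1000 → ∀ K : ℕ, ∃ n N : ℕ, ∃ δ : ℝ,
      K ≤ N ∧ Np d n N δ e) : False := by
  obtain ⟨ν, hν, X1, X2, hnear⟩ := exists_limit h hnp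
  obtain ⟨q, hL⟩ := exists_potential h hν X1
  obtain ⟨T, hT1, hT⟩ := X2 (1 / 1000) (by norm_num)
  -- no crossing
  have hno : ∀ t : ℕ, T ≤ t → 2 ≤ t → ¬ Crossing τ σ t := by
    intro t hTt ht2
    obtain ⟨n, w, δ, hn, hw, hN⟩ := hnear (1 / 1000000) (by norm_num) (1000000 + 10 * T + 2 * t)
    push_cast at hw
    have hT0 : (0 : ℝ) ≤ T := Nat.cast_nonneg T
    have ht0 : (0 : ℝ) ≤ t := Nat.cast_nonneg t
    have hG : Good x τ σ d ν q T n w δ :=
      { lim := hL
        near := hN
        wbig := by linarith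
        T1 := hT1
        X2 := hT
        wT := by linarith }
    exact hG.none hTt ht2 (by linarith)
  have hfifo : ∀ t, T + 2 ≤ t → τ t = 2 * t ∧ σ t = 2 * t + 1 := fun t ht =>
    h.fifo_of (by omega) (hno t (by omega) (by omega)) (hno (t + 1) (by omega) (by omega))
  have hc := log_two_pos
  have hcore := fifo_core (x := x) (r := d) (T := T + 2) (by omega) h.cut.pos h.cut.anti
    (fun t ht => by
      have := h.cut.split t (by omega)
      rw [(hfifo t ht).1, (hfifo t ht).2] at this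
      exact this)
    h.dmono
    (fun t n ht htn => by
      have e1 := h.step t (by omega)
      rw [(hfifo t ht).2] at e1
      exact e1.trans (mul_le_mul_of_nonneg_right (h.dmono _ _ (by omega) htn)
        (h.pos (by omega)).le))
    (g := 7 / 4 * Real.log 2) (by linarith)
  obtain ⟨K, hK⟩ := eventually_atTop.mp hcore
  obtain ⟨n, w, δ, hn, hw, hN⟩ := hnear (1 / 1000000) (by norm_num) (K + 1)
  have h1 := hK n (by omega)
  have h2 := hN.dn
  have h3 := h1.trans_le h2
  have h4 : Real.exp (-(7 / 4 * Real.log 2 / n)) < Real.exp (-(Real.log 2 * δ)) := by linarith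
  rw [Real.exp_lt_exp] at h4
  have h5 := hN.le
  have h6 := hN.nw
  have h7 := hN.w0
  have hn0 : (0 : ℝ) < n := by
    have : 1 ≤ n := hN.n1
    exact_mod_cast this
  have h8 : Real.log 2 * δ < 7 / 4 * Real.log 2 / n := by linarith
  rw [lt_div_iff₀ hn0] at h8
  have h9 : δ * n < 7 / 4 := by nlinarith
  have h10 := hN.δ0
  have h11 : δ * ((1 - 1 / 1000000) * (2 * w)) ≤ δ * n := mul_le_mul_of_nonneg_left h6 h10.le
  nlinarith

/-- The tree of a strategy. -/
theorem exists_str {S : ℕ → Finset (ℝ × ℝ)} (hS : IsInfStrategy S)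
    (h2 : ∀ t, 1 ≤ t → disc (S t) < 2) :
    ∃ (x : ℕ → ℝ) (τ σ : ℕ → ℕ), Str x τ σ (discUpTo S) := by
  obtain ⟨x, τ, σ, J, hC, hstep, hlow, hJ, hmem, hnot⟩ := exists_cutSeq hS h2
  have hσ1 : ∀ t, 1 ≤ t → 1 ≤ σ t := fun t ht => by
    have := hC.lt1 t ht; have := hC.lt2 t ht; omega
  have hτ1 : ∀ t, 1 ≤ t → 1 ≤ τ t := fun t ht => by
    have := hC.lt1 t ht; omega
  -- a piece stays until it is cut
  have hstay : ∀ s, 1 ≤ s → ∀ t, 1 ≤ t → J s ∈ S (t + 1) → ∀ p, t + 1 ≤ p → p ≤ s →
      J s ∈ S p := by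
    intro s hs t ht h0 p hp
    induction p, hp using Nat.le_induction with
    | base => exact fun _ => h0
    | succ p hp ih =>
      intro hpσ
      refine (hmem p (by omega) _).mpr (Or.inl ⟨ih (by omega), ?_⟩)
      intro he
      have e1 := (hJ s hs).2
      have e2 := (hJ p (by omega)).2
      have e3 := hC.lt_of_lt (i := p) (j := s) (by omega) (by omega)
      rw [e1, e2, he] at e3
      exact lt_irrefl _ e3
  have hstayσ : ∀ t, 1 ≤ t → ∀ p, t + 1 ≤ p → p ≤ σ t → J (σ t) ∈ S p := fun t ht =>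
    hstay (σ t) (hσ1 t ht) t ht ((hmem t ht _).mpr (Or.inr (Or.inr rfl)))
  have hstayτ : ∀ t, 1 ≤ t → ∀ p, t + 1 ≤ p → p ≤ τ t → J (τ t) ∈ S p := fun t ht =>
    hstay (τ t) (hτ1 t ht) t ht ((hmem t ht _).mpr (Or.inr (Or.inl rfl)))
  refine ⟨x, τ, σ, ?_⟩
  exact
    { cut := hC
      one := by
        have h1 := hJ 1 le_rfl
        rw [one_eq_unit hS, mem_singleton] at h1
        rw [h1.2, h1.1]
        simp [len]
      dmono := fun m n hm hmn => discUpTo_mono hm hmn
      dlt := by
        intro n hn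
        have hne : {r : ℝ | ∃ t, 1 ≤ t ∧ t ≤ n ∧ r = disc (S t)}.Nonempty :=
          ⟨_, 1, le_rfl, hn, rfl⟩
        obtain ⟨t, h1, h3, h4⟩ := hne.csSup_mem (discs_finite S n)
        have h5 : discUpTo S n = disc (S t) := h4
        rw [h5]
        exact h2 t h1
      step := by
        intro t ht
        have e2 : disc (S (t + 1)) ≤ discUpTo S (t + 1) := disc_le_discUpTo (by omega) le_rfl
        exact (hstep t ht).trans (mul_le_mul_of_nonneg_right e2 (hC.pos _ (hσ1 t ht)).le)
      inj := by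
        intro t p ht htp
        have n1 := hnot p (by omega)
        have l1 := hC.lt1 p (by omega)
        have l2 := hC.lt2 p (by omega)
        refine ⟨fun he => ?_, fun he => ?_, fun he => ?_, fun he => ?_⟩
        · have := hstayτ t ht p (by omega) (by omega)
          rw [he] at this
          exact n1.1 this
        · have := hstayτ t ht p (by omega) (by omega)
          rw [he] at this
          exact n1.2 this
        · have := hstayσ t ht p (by omega) (by omega)
          rw [he] at this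
          exact n1.1 this
        · have := hstayσ t ht p (by omega) (by omega)
          rw [he] at this
          exact n1.2 this }

/-- From a small gap to a near perfect time. -/
lemma np_of_gap {S : ℕ → Finset (ℝ × ℝ)} {e : ℝ} (he : 0 < e) (he1 : e ≤ 1 / 1000) {n : ℕ}
    (hn : 1 ≤ n) (hbig : 2 ≤ e * n) (hgap : n * (discUpTo S n - discMin n) < Real.log 2 * e) :
    Np (discUpTo S) n ⌈(n : ℝ) / 2⌉₊ ((1 - e) / ((⌈(n : ℝ) / 2⌉₊ : ℕ) : ℝ)) e := by
  set N := ⌈(n : ℝ) / 2⌉₊ with hN
  have hn' : (1 : ℝ) ≤ n := by exact_mod_cast hn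
  have hc := log_two_pos
  have hN1 : (n : ℝ) / 2 ≤ N := Nat.le_ceil _
  have hN2 : (N : ℝ) < n / 2 + 1 := Nat.ceil_lt_add_one (by positivity)
  have hN0 : (0 : ℝ) < N := by linarith
  have hNn : (N : ℝ) ≤ n := by
    have h1 : 2 * (N : ℝ) < n + 2 := by linarith
    have h2 : 2 * N < n + 2 := by exact_mod_cast h1
    have h3 : N ≤ n := by omega
    exact_mod_cast h3
  refine
    { h1 := ?_
      h2 := ?_
      e0 := he
      e1 := he1
      big := by nlinarith
      δ0 := div_pos (by linarith) hN0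
      le := by rw [mul_div_cancel₀ _ hN0.ne']
      dn := ?_ }
  · have h1 : 2 * (N : ℝ) < n + 2 := by linarith
    have h2 : 2 * N < n + 2 := by exact_mod_cast h1
    omega
  · have h1 : (n : ℝ) ≤ 2 * N := by linarith
    exact_mod_cast h1
  · have h1 := discMin_eq hn
    rw [← hN] at h1
    have h2 : discMin n = 2 * Real.exp (-(Real.log 2 / N)) := by
      rw [h1, Real.rpow_def_of_pos (by norm_num)]
      rw [show Real.log 2 * (1 - 1 / (N : ℝ)) = Real.log 2 + -(Real.log 2 / N) by ring,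
        Real.exp_add, Real.exp_log (by norm_num)]
    have h3 : discUpTo S n < discMin n + Real.log 2 * e / n := by
      have hn0 : (0 : ℝ) < n := by linarith
      have : discUpTo S n - discMin n < Real.log 2 * e / n := by
        rw [lt_div_iff₀ hn0]
        linarith
      linarith
    -- the gain
    have h4 : Real.exp (-(Real.log 2 * ((1 - e) / N))) =
        Real.exp (-(Real.log 2 / N)) * Real.exp (Real.log 2 * e / N) := by
      rw [← Real.exp_add]
      congr 1
      field_simp
      ring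
    have h5 := Real.add_one_le_exp (Real.log 2 * e / N)
    have h6 : 1 / 2 ≤ Real.exp (-(Real.log 2 / N)) := by
      have : Real.exp (-Real.log 2) = 1 / 2 := by
        rw [Real.exp_neg, Real.exp_log (by norm_num)]; norm_num
      rw [← this]
      apply Real.exp_le_exp.mpr
      apply neg_le_neg
      rw [div_le_iff₀ hN0]
      have : (1 : ℝ) ≤ N := by
        have h7 : 0 < N := by exact_mod_cast hN0
        exact_mod_cast h7
      nlinarith
    have h8 : Real.log 2 * e / n ≤ Real.log 2 * e / N := by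
      apply div_le_div_of_nonneg_left (by positivity) hN0 hNn
    have h9 : 0 < Real.log 2 * e / N := by positivity
    rw [h4]
    rw [h2] at h3
    nlinarith

/-- MP_eb524a_co, Q1. -/
theorem positive_liminf {S : ℕ → Finset (ℝ × ℝ)} (hS : IsInfStrategy S) :
    ∃ c : ℝ, 0 < c ∧ ∀ᶠ n : ℕ in atTop, c ≤ n * (discUpTo S n - discMin n) := by
  have hc := log_two_pos
  by_cases h2 : ∀ t, 1 ≤ t → disc (S t) < 2
  · obtain ⟨x, τ, σ, hStr⟩ := exists_str hS h2
    by_contra hcon
    push Not at hcon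
    apply no_np hStr
    intro e he he1 K
    have hfr := hcon (Real.log 2 * e) (by positivity)
    obtain ⟨M, hM⟩ := exists_nat_gt (2 / e)
    have hM' : 2 < M * e := by rwa [div_lt_iff₀ he] at hM
    obtain ⟨n, hn, hgap⟩ := (frequently_atTop.mp hfr) (max (2 * K + 2) (max M 1))
    have hnK : 2 * K + 2 ≤ n := (le_max_left _ _).trans hn
    have hnM : M ≤ n := (le_max_left _ _).trans ((le_max_right _ _).trans hn)
    have hn1 : 1 ≤ n := (le_max_right _ _).trans ((le_max_right _ _).trans hn)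
    have hnM' : (M : ℝ) ≤ n := by exact_mod_cast hnM
    refine ⟨n, ⌈(n : ℝ) / 2⌉₊, (1 - e) / ((⌈(n : ℝ) / 2⌉₊ : ℕ) : ℝ), ?_,
      np_of_gap he he1 hn1 (by nlinarith) hgap⟩
    have h1 : (n : ℝ) / 2 ≤ ((⌈(n : ℝ) / 2⌉₊ : ℕ) : ℝ) := Nat.le_ceil _
    have h3 : ((2 * K + 2 : ℕ) : ℝ) ≤ n := by exact_mod_cast hnK
    push_cast at h3
    have h4 : (K : ℝ) ≤ ((⌈(n : ℝ) / 2⌉₊ : ℕ) : ℝ) := by linarith
    exact_mod_cast h4
  · push Not at h2
    obtain ⟨t, ht, ht2⟩ := h2
    refine ⟨Real.log 2, hc, ?_⟩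
    filter_upwards [eventually_ge_atTop (max 3 t)] with n hn
    have hn1 : t ≤ n := (le_max_right _ _).trans hn
    have hn3 : 3 ≤ n := (le_max_left _ _).trans hn
    have hn3' : (3 : ℝ) ≤ n := by exact_mod_cast hn3
    have h3 := discMin_le (ht.trans hn1)
    have h4 : 2 ≤ discUpTo S n := ht2.trans (disc_le_discUpTo ht hn1)
    have h5 : 4 * Real.log 2 / (n + 3) ≤ discUpTo S n - discMin n := by linarith
    have h6 : n * (4 * Real.log 2 / (n + 3)) ≤ n * (discUpTo S n - discMin n) :=
      mul_le_mul_of_nonneg_left h5 (by linarith)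
    refine le_trans ?_ h6
    rw [← mul_div_assoc, le_div_iff₀ (by linarith)]
    nlinarith

end Pool.H17.SP
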