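import Pool.Agent.H17.SP.Comb
import Pool.Agent.H17.SP.EllInt

/-!
Step 2: the basic inequalities of the potential.
-/

namespace Pool.H17.SP

open Finset Filter
open Pool.Agent.H36.Split

variable {x : ℕ → ℝ} {τ σ : ℕ → ℕ} {d : ℕ → ℝ} {ν : ℝ} {q : ℕ → ℝ}

lemma Lim.x_eq (h : Lim x τ σ d ν q) {t : ℕ} (ht : 1 ≤ t) : x t = uu ν t + q t - q (t + 1) := by
  have := h.qstep t ht
  linarith

lemma Lim.q_two_le (h : Lim x τ σ d ν q) {t : ℕ} (ht : 1 ≤ t) : q (2 * t) ≤ q t := by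
  have h1 := h.qW t ht
  have h2 := h.str.W_nonneg ht
  linarith

lemma Lim.q_two_eq (h : Lim x τ σ d ν q) {t : ℕ} (ht : 1 ≤ t) (hc : ¬ Crossing τ σ t) :
    q t = q (2 * t) := by
  have h1 := h.qW t ht
  rw [W_eq_zero hc] at h1
  linarith

/-- If `x t` is below the midpoint value then `q` goes up. -/
lemma Lim.up (h : Lim x τ σ d ν q) {t : ℕ} (ht : 1 ≤ t) (hx : x t ≤ ell ν ((t : ℝ) + 1 / 2)) :
    q t ≤ q (t + 1) := by
  have h1 := h.qstep t ht
  have h2 := mid_le_uu h.nu ht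
  linarith

/-- (J) -/
lemma Lim.jset (h : Lim x τ σ d ν q) {t : ℕ} (ht : 1 ≤ t)
    (hx : ell ν ((t : ℝ) + 1 / 2) < x t) :
    insert (τ t) (Ch τ σ t) = Finset.Ico 1 (2 * t + 1) := by
  have hS := h.str
  apply eq_of_subset_of_card_le
  · intro k hk
    have hk1 : 1 ≤ k := by
      rw [mem_insert] at hk
      rcases hk with hk | hk
      · rw [hk]; exact hS.tau_pos ht
      · exact hS.one_le_of_mem hk
    have hk2 : x t < 2 * x k := by
      rw [mem_insert] at hk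
      rcases hk with hk | hk
      · rw [hk]; exact hS.tau_lt_two ht
      · exact hS.lt_two ht hk
    rw [mem_Ico]
    refine ⟨hk1, ?_⟩
    by_contra hcon
    have h1 := hS.le (i := 2 * t + 1) (j := k) (by omega) (not_lt.mp hcon)
    have h2 := h.X1 (2 * t + 1) (by omega)
    have h3 := ell_two h.nu (s := (t : ℝ) + 1 / 2) (by positivity)
    have h4 : (2 : ℝ) * ((t : ℝ) + 1 / 2) = ((2 * t + 1 : ℕ) : ℝ) := by push_cast; ring
    rw [h4] at h3
    linarith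
  · rw [card_insert_of_notMem (hS.tau_notMem ht), hS.card_Ch ht, Nat.card_Ico]
    omega

lemma Lim.jW (h : Lim x τ σ d ν q) {t : ℕ} (ht : 1 ≤ t)
    (hx : ell ν ((t : ℝ) + 1 / 2) < x t) : W x τ σ t = x (τ t) - x (2 * t) := by
  have hS := h.str
  have h1 := h.jset ht hx
  have h2 : ∑ k ∈ insert (τ t) (Ch τ σ t), x k = x (τ t) + ∑ k ∈ Ch τ σ t, x k :=
    sum_insert (hS.tau_notMem ht)
  rw [h1, sum_Ico_succ_top (by omega)] at h2
  unfold W
  linarith

lemma Lim.jW_le (h : Lim x τ σ d ν q) {t : ℕ} (ht : 1 ≤ t)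
    (hx : ell ν ((t : ℝ) + 1 / 2) < x t) : W x τ σ t ≤ (x t - x (t + 1)) / 2 := by
  have hS := h.str
  have h1 := h.jW ht hx
  have h2 := hS.half ht
  have h3 := hS.cut.split t ht
  have h4 := hS.lt_two_sig ht
  linarith

/-- (J0) -/
lemma Lim.J0 (h : Lim x τ σ d ν q) {t : ℕ} (ht : 1 ≤ t) :
    x t - x (t + 1) ≤ 2 * (x t - ell ν t) + 2 * Aa ν t + q (t + 2) - q t := by
  have h1 := h.qstep t ht
  have h2 := h.qstep (t + 1) (by omega)
  have h3 := le_uu_add h.nu ht 0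
  have h4 := le_uu_add h.nu ht 1
  simp only [Nat.cast_zero, Nat.cast_one, add_zero] at h3 h4
  have e : t + 1 + 1 = t + 2 := by ring
  rw [e] at h2
  linarith

/-- (J1) -/
lemma Lim.J1 (h : Lim x τ σ d ν q) {t : ℕ} (ht : 1 ≤ t)
    (hx : ell ν ((t : ℝ) + 1 / 2) < x t) :
    3 / 2 * q t ≤ q (2 * t) + q (t + 2) / 2 + Aa ν t - (ell ν t - x t) := by
  have h1 := h.qW t ht
  have h2 := h.jW_le ht hx
  have h3 := h.J0 ht
  linarith

/-- `x t - x (t+1) ≤ A t + q t + q (t+2)`. -/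
lemma Lim.diff_le (h : Lim x τ σ d ν q) {t : ℕ} (ht : 1 ≤ t) :
    x t - x (t + 1) ≤ Aa ν t + q t + q (t + 2) := by
  have h1 := h.qstep t ht
  have h2 := h.qstep (t + 1) (by omega)
  have h3 := uu_sub_le h.nu ht
  have h4 := h.q0 (t + 1) (by omega)
  have e : t + 1 + 1 = t + 2 := by ring
  rw [e] at h2
  linarith

/-- `q (t+1) ≥ q t - A t / 2`. -/
lemma Lim.down_le (h : Lim x τ σ d ν q) {t : ℕ} (ht : 1 ≤ t) :
    q t - Aa ν t / 2 ≤ q (t + 1) := by
  have h1 := h.qstep t ht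
  have h2 := h.X1 t ht
  have h3 := le_uu h.nu ht
  linarith

/-- Lemma 1. -/
theorem Lim.lem1 (h : Lim x τ σ d ν q) {t : ℕ} (ht : 1 ≤ t) : q t ≤ 4 / 3 * Aa ν t := by
  refine le_of_forall_pos_le_add fun e he => ?_
  obtain ⟨T, hT⟩ := eventually_atTop.mp (h.qlim.eventually (gt_mem_nhds he))
  by_contra hcon
  push Not at hcon
  -- the largest bad index
  have hbad : ∃ s : ℕ, 1 ≤ s ∧ 4 / 3 * Aa ν s + e < q s ∧ ∀ r : ℕ, s < r →
      q r ≤ 4 / 3 * Aa ν r + e := by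
    by_contra hno
    push Not at hno
    have : ∀ m : ℕ, ∃ s : ℕ, 1 ≤ s ∧ m ≤ s ∧ 4 / 3 * Aa ν s + e < q s := by
      intro m
      induction m with
      | zero => exact ⟨t, ht, by omega, hcon⟩
      | succ m ih =>
        obtain ⟨s, h1, h2, h3⟩ := ih
        obtain ⟨r, h4, h5⟩ := hno s h1 h3
        exact ⟨r, by omega, by omega, h5⟩
    obtain ⟨s, h1, h2, h3⟩ := this T
    have h4 := hT s h2
    have h5 := Aa_pos h.nu (s : ℝ)
    linarith
  obtain ⟨s, hs, hq, hr⟩ := hbad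
  have hs' : (1 : ℝ) ≤ s := by exact_mod_cast hs
  have r1 := hr (s + 1) (by omega)
  have r2 := hr (s + 2) (by omega)
  have r3 := hr (2 * s) (by omega)
  have a1 := Aa_anti h.nu (s := (s : ℝ)) (s' := ((s + 1 : ℕ) : ℝ)) (by linarith) (by push_cast; linarith)
  have a2 := Aa_anti h.nu (s := (s : ℝ)) (s' := ((s + 2 : ℕ) : ℝ)) (by linarith) (by push_cast; linarith)
  have a3 := Aa_two h.nu (s := (s : ℝ)) (by linarith)
  have e3 : (2 : ℝ) * s = ((2 * s : ℕ) : ℝ) := by push_cast; ring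
  rw [e3] at a3
  rcases le_or_gt (x s) (ell ν ((s : ℝ) + 1 / 2)) with hx | hx
  · have := h.up hs hx
    linarith
  · have := h.J1 hs hx
    have := h.X1 s hs
    linarith

end Pool.H17.SP
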