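import Pool.Agent.H17.SP.JL

/-!
Step 3: `q t ≤ (43/33) A t`.
-/

namespace Pool.H17.SP

open Finset Filter
open Pool.Agent.H36.Split

variable {x : ℕ → ℝ} {τ σ : ℕ → ℕ} {d : ℕ → ℝ} {ν : ℝ} {q : ℕ → ℝ}

/-- The first long value after `t`. -/
lemma Lim.first (h : Lim x τ σ d ν q) {t : ℕ} (ht : 1 ≤ t) (hq : 0 < q t) :
    ∃ s, t ≤ s ∧ ell ν ((s : ℝ) + 1 / 2) < x s ∧
      (∀ r : ℕ, t ≤ r → r < s → x r ≤ ell ν ((r : ℝ) + 1 / 2)) ∧
      ∀ r, t ≤ r → r ≤ s → q t ≤ q r := by
  classical
  have hex : ∃ s : ℕ, t ≤ s ∧ ell ν ((s : ℝ) + 1 / 2) < x s := by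
    by_contra hno
    push Not at hno
    have hup : ∀ r, t ≤ r → q t ≤ q r := by
      intro r hr
      induction r, hr using Nat.le_induction with
      | base => exact le_rfl
      | succ r hr ih => exact ih.trans (h.up (by omega) (hno r hr))
    obtain ⟨T, hT⟩ := eventually_atTop.mp (h.qlim.eventually (gt_mem_nhds hq))
    have h1 := hT (max t T) (le_max_right _ _)
    have h2 := hup (max t T) (le_max_left _ _)
    linarith
  set s := Nat.find hex with hs
  obtain ⟨s1, s2⟩ := Nat.find_spec hex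
  rw [← hs] at s1 s2
  have hmin : ∀ r : ℕ, t ≤ r → r < s → x r ≤ ell ν ((r : ℝ) + 1 / 2) := by
    intro r hr hrs
    have := Nat.find_min hex hrs
    push Not at this
    exact this hr
  refine ⟨s, s1, s2, hmin, ?_⟩
  intro r hr
  induction r, hr using Nat.le_induction with
  | base => exact fun _ => le_rfl
  | succ r hr ih =>
    intro hrs
    exact (ih (by omega)).trans (h.up (by omega) (hmin r hr (by omega)))

/-- The exchange bound for the waste at time `r` if the time `r + 1` is long. -/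
lemma Lim.W_three (h : Lim x τ σ d ν q) {r : ℕ} (hr : 2 ≤ r)
    (hs : ell ν (((r + 1 : ℕ) : ℝ) + 1 / 2) < x (r + 1)) {a : ℝ} (ha : 0 ≤ a)
    (h1 : (x r - x (r + 1)) / 2 ≤ a)
    (h2 : (x (r + 1) - x (r + 2)) / 2 - (x r - x (r + 1)) / 2 ≤ a)
    (h3 : (x (r + 1) - x (r + 2)) / 2 - (x (r - 1) - x r) / 2 ≤ a) : W x τ σ r ≤ a := by
  have hS := h.str
  have hj := h.jset (t := r + 1) (by omega) hs
  rw [Ch_succ r (by omega)] at hj
  have n1 := hS.tau_notMem (t := r + 1) (by omega)
  rw [Ch_succ r (by omega)] at n1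
  have n2 := hS.tau_notMem' (t := r) (by omega)
  have n3 := hS.sig_notMem (t := r) (by omega)
  have hsum : ∑ k ∈ Finset.Ico 1 (2 * (r + 1) + 1), x k =
      x (τ (r + 1)) + (x (τ r) + (x (σ r) + ∑ k ∈ Ch τ σ r, x k)) := by
    rw [← hj, sum_insert n1, sum_insert n2, sum_insert n3]
  have hsum2 : ∑ k ∈ Finset.Ico 1 (2 * (r + 1) + 1), x k =
      ∑ k ∈ Finset.Ico 1 (2 * r), x k + x (2 * r) + x (2 * r + 1) + x (2 * r + 2) := by
    rw [show 2 * (r + 1) + 1 = 2 * r + 2 + 1 by ring, sum_Ico_succ_top (by omega),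
      show 2 * r + 2 = 2 * r + 1 + 1 by ring, sum_Ico_succ_top (by omega),
      sum_Ico_succ_top (by omega)]
  have hW : W x τ σ r = x (τ (r + 1)) + x (τ r) + x (σ r) - x (2 * r) - x (2 * r + 1) -
      x (2 * r + 2) := by
    unfold W
    linarith
  have hσ : ∀ k ∈ Ch τ σ r, k < σ r := fun k hk => hS.lt_sig (by omega) hk
  have hτσ := hS.sig_gt (t := r) (by omega)
  have hlow : ∀ k ∈ Ch τ σ r, x r < 2 * x k := fun k hk => hS.lt_two (by omega) hk
  have hlow' : ∀ k ∈ Ch τ σ r, k ≠ σ (r - 1) → x (r - 1) < 2 * x k := by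
    intro k hk hne
    apply hS.lt_two' (t := r - 1) (by omega) _ hne
    rw [show r - 1 + 1 = r by omega]
    exact hk
  have s1 := hS.cut.split r (by omega)
  have s2 := hS.cut.split (r + 1) (by omega)
  have s3 := hS.lt_two_sig (t := r) (by omega)
  have s4 := hS.lt_two_sig (t := r + 1) (by omega)
  rw [show r + 1 + 1 = r + 2 by ring] at s4
  have hmem : ∀ k ∈ Finset.Ico 1 (2 * (r + 1) + 1), k = τ (r + 1) ∨ k = τ r ∨ k = σ r ∨
      k ∈ Ch τ σ r := by
    intro k hk
    rw [← hj, mem_insert, mem_insert, mem_insert] at hk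
    exact hk
  have m0 := hmem (2 * r) (by rw [mem_Ico]; omega)
  have m1 := hmem (2 * r + 1) (by rw [mem_Ico]; omega)
  have m2 := hmem (2 * r + 2) (by rw [mem_Ico]; omega)
  -- `σ r` is at least `2 r + 1`
  have hσ2 : 2 * r + 1 ≤ σ r := by
    by_contra hcon
    have hsub : insert (τ r) (Ch τ σ r) ⊆ Finset.Ico 1 (σ r) := by
      intro k hk
      rw [mem_Ico]
      rw [mem_insert] at hk
      rcases hk with hk | hk
      · rw [hk]; exact ⟨hS.tau_pos (by omega), hτσ⟩
      · exact ⟨hS.one_le_of_mem hk, hσ k hk⟩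
    have := card_le_card hsub
    rw [card_insert_of_notMem (hS.tau_notMem (by omega)), hS.card_Ch (by omega),
      Nat.card_Ico] at this
    omega
  have key : ∀ k l : ℕ, k ∈ Ch τ σ r → l ∈ Ch τ σ r → k ≠ l → x r + x (r - 1) ≤
      2 * x k + 2 * x l := by
    intro k l hk hl hkl
    by_cases hkσ : k = σ (r - 1)
    · have := hlow' l hl (by rw [← hkσ]; exact hkl.symm)
      have := hlow k hk
      linarith
    · have := hlow' k hk hkσ
      have := hlow l hl
      linarith
  have hσ3 : σ r ≤ 2 * r + 2 := by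
    have : σ r ∈ Finset.Ico 1 (2 * (r + 1) + 1) := by
      rw [← hj]
      simp
    rw [mem_Ico] at this
    omega
  have n4 : τ (r + 1) ≠ τ r ∧ τ (r + 1) ≠ σ r := by
    rw [mem_insert, mem_insert, not_or, not_or] at n1
    exact ⟨n1.1, n1.2.1⟩
  obtain ⟨n4, n5⟩ := n4
  have m2' : 2 * r + 2 ∉ Ch τ σ r := fun hc => by
    have := hσ _ hc
    omega
  rw [hW]
  rcases m0 with m0 | m0 | m0 | m0
  · -- 2r = τ (r+1)
    rcases m1 with m1 | m1 | m1 | m1
    · omega
    · rcases m2 with m2 | m2 | m2 | m2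
      · omega
      · omega
      · rw [← m0, ← m1, ← m2]; linarith
      · exact absurd m2 m2'
    · rcases m2 with m2 | m2 | m2 | m2
      · omega
      · omega
      · omega
      · exact absurd m2 m2'
    · have hm := hσ _ m1
      rcases m2 with m2 | m2 | m2 | m2
      · omega
      · omega
      · rw [← m0, ← m2]
        have := hlow _ m1
        linarith
      · exact absurd m2 m2'
  · -- 2r = τ r
    rcases m1 with m1 | m1 | m1 | m1
    · rcases m2 with m2 | m2 | m2 | m2
      · omega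
      · omega
      · rw [← m0, ← m1, ← m2]; linarith
      · exact absurd m2 m2'
    · omega
    · rcases m2 with m2 | m2 | m2 | m2
      · rw [← m0, ← m1, ← m2]; linarith
      · omega
      · omega
      · exact absurd m2 m2'
    · have hm := hσ _ m1
      rcases m2 with m2 | m2 | m2 | m2
      · omega
      · omega
      · rw [← m0, ← m2]
        have := hlow _ m1
        linarith
      · exact absurd m2 m2'
  · omega
  · -- 2r ∈ Ch r
    have hm0 := hσ _ m0
    rcases m1 with m1 | m1 | m1 | m1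
    · rcases m2 with m2 | m2 | m2 | m2
      · omega
      · omega
      · rw [← m1, ← m2]
        have := hlow _ m0
        linarith
      · exact absurd m2 m2'
    · rcases m2 with m2 | m2 | m2 | m2
      · omega
      · omega
      · rw [← m1, ← m2]
        have := hlow _ m0
        linarith
      · exact absurd m2 m2'
    · rcases m2 with m2 | m2 | m2 | m2
      · rw [← m1, ← m2]
        have := hlow _ m0
        linarith
      · omega
      · omega
      · exact absurd m2 m2'
    · have hm := hσ _ m1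
      rcases m2 with m2 | m2 | m2 | m2
      · omega
      · omega
      · rw [← m2]
        have := key _ _ m0 m1 (by omega)
        linarith
      · exact absurd m2 m2'

/-- Auxiliary lower bound for `x (r-1) - x r`. -/
lemma Lim.lem2_aux (h : Lim x τ σ d ν q) {t : ℕ} (ht : 1 ≤ t)
    (hcon : 43 / 33 * Aa ν t < q t) {r : ℕ} (hr : t + 2 ≤ r)
    (hqr : ∀ p, t + 2 ≤ p → p ≤ r + 1 → q (t + 2) ≤ q p)
    (hxr : x r ≤ ell ν ((r : ℝ) + 1 / 2)) (As0 : 41 / 44 * Aa ν t < Aa ν ((r + 1 : ℕ) : ℝ))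
    (hq2 : 41 / 33 * Aa ν t < q (t + 2)) : 29 / 100 * Aa ν t ≤ x (r - 1) - x r := by
  have ht' : (1 : ℝ) ≤ t := by exact_mod_cast ht
  have hν := h.nu
  set A := Aa ν t with hA
  have hA0 : 0 < A := Aa_pos hν t
  have anti : ∀ s : ℝ, (t : ℝ) ≤ s → Aa ν s ≤ A := fun s hs => Aa_anti hν (by linarith) hs
  have hr' : (t : ℝ) + 2 ≤ r := by exact_mod_cast hr
  rcases hr.lt_or_eq with hr3 | hr3
  · obtain ⟨p, rfl⟩ : ∃ p, r = p + 1 := ⟨r - 1, by omega⟩
    have hp : (t : ℝ) + 1 ≤ p := by push_cast at hr'; linarith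
    have st2 := h.x_eq (t := p) (by omega)
    have su2 := succ_le_uu hν (t := p) (by omega)
    have hqp := hqr p (by omega) (by omega)
    have lr := h.lem1 (t := p + 1) (by omega)
    have c2 : ((p : ℝ) + 1) = ((p + 1 : ℕ) : ℝ) := by push_cast; ring
    rw [c2] at su2
    have mono := ell_anti hν (s := ((p + 1 : ℕ) : ℝ)) (s' := ((p + 1 : ℕ) : ℝ) + 1 / 2)
      (by push_cast; linarith) (by linarith)
    have Ar := anti ((p + 1 : ℕ) : ℝ) (by push_cast; linarith)
    rw [show p + 1 - 1 = p by omega]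
    linarith
  · subst hr3
    have q1 := h.qstep t ht
    have q2 := h.x_eq (t := t + 1) (by omega)
    have u0 := le_uu_add hν ht 0
    have u1 := le_uu_add hν ht 1
    simp only [Nat.cast_zero, Nat.cast_one, add_zero] at u0 u1
    rw [show t + 2 - 1 = t + 1 by omega]
    rw [show t + 1 + 1 = t + 2 by ring] at q2
    have hX := h.X1 t ht
    have l2 := h.lem1 (t := t + 2) (by omega)
    have A3 := anti ((t + 2 : ℕ) : ℝ) (by push_cast; linarith)
    have c4 : (t : ℝ) - (((t + 2 : ℕ) : ℝ) + 1 / 2) = -(5 / 2) := by push_cast; ring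
    have sup2 := ell_support (s := ((t + 2 : ℕ) : ℝ) + 1 / 2) (s' := (t : ℝ)) hν
      (by push_cast; linarith) (by linarith)
    rw [c4] at sup2
    have A2 := Aa_anti hν (s := ((t + 2 : ℕ) : ℝ) + 1 / 2) (s' := ((t + 2 + 1 : ℕ) : ℝ))
      (by push_cast; linarith) (by push_cast; linarith)
    linarith

/-- Lemma 2 at a long time. -/
lemma Lim.lem2_long (h : Lim x τ σ d ν q) {t : ℕ} (ht : 1 ≤ t)
    (hx : ell ν ((t : ℝ) + 1 / 2) < x t) : q t ≤ 43 / 33 * Aa ν t := by
  by_contra hcon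
  push Not at hcon
  have hS := h.str
  have ht' : (1 : ℝ) ≤ t := by exact_mod_cast ht
  have hν := h.nu
  set A := Aa ν t with hA
  have hA0 : 0 < A := Aa_pos hν t
  have anti : ∀ s : ℝ, (t : ℝ) ≤ s → Aa ν s ≤ A := fun s hs => Aa_anti hν (by linarith) hs
  have hJ := h.J1 ht hx
  have l1 := h.lem1 (t := 2 * t) (by omega)
  have e1 : Aa ν ((2 * t : ℕ) : ℝ) = A / 4 := by
    rw [← Aa_two hν (by linarith)]; push_cast; rfl
  rw [e1] at l1
  have hX := h.X1 t ht
  have hq2 : 41 / 33 * A < q (t + 2) := by linarith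
  obtain ⟨s, hts, hsx, hmin, hqr⟩ := h.first (t := t + 2) (by omega) (by nlinarith)
  have hs' : (t : ℝ) + 2 ≤ s := by exact_mod_cast hts
  have hqs := hqr s hts le_rfl
  have l2 := h.lem1 (t := s) (by omega)
  have As := anti s (by linarith)
  have As0 : 41 / 44 * A < Aa ν s := by linarith
  -- `ell s - x s`
  have J := h.J1 (t := s) (by omega) hsx
  have l3 := h.lem1 (t := 2 * s) (by omega)
  have e2 : Aa ν ((2 * s : ℕ) : ℝ) = Aa ν s / 4 := by
    rw [← Aa_two hν (by linarith)]; push_cast; rfl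
  rw [e2] at l3
  have l4 := h.lem1 (t := s + 2) (by omega)
  have As2 := anti ((s + 2 : ℕ) : ℝ) (by push_cast; linarith)
  have hgap : ell ν s - x s ≤ 3 / 22 * A := by linarith
  have hXs := h.X1 s (by omega)
  rcases hts.lt_or_eq with hlt | heq
  · -- s ≥ t + 3
    obtain ⟨r, rfl⟩ : ∃ r, s = r + 1 := ⟨s - 1, by omega⟩
    have hr : t + 2 ≤ r := by omega
    have hr' : (t : ℝ) + 2 ≤ r := by exact_mod_cast hr
    have hxr := hmin r hr (by omega)
    have hqr' := hqr r hr (by omega)
    have E1 := h.J0 (t := r + 1) (by omega)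
    rw [show r + 1 + 1 = r + 2 by ring] at E1
    have c1 : (r : ℝ) + 1 = ((r + 1 : ℕ) : ℝ) := by push_cast; ring
    have sup1 := ell_support (s := (r : ℝ) + 1 / 2) (s' := (r : ℝ) + 1) hν (by linarith)
      (by linarith)
    have A1 := anti ((r : ℝ) + 1 / 2) (by linarith)
    have st := h.x_eq (t := r) (by omega)
    have su := succ_le_uu hν (t := r) (by omega)
    have lr := h.lem1 (t := r) (by omega)
    have Ar := anti (r : ℝ) (by linarith)
    have E4 : 29 / 100 * A ≤ x (r - 1) - x r :=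
      h.lem2_aux ht hcon hr hqr hxr As0 hq2
    rw [c1] at sup1 su
    have c5 : ((r + 1 : ℕ) : ℝ) - ((r : ℝ) + 1 / 2) = 1 / 2 := by push_cast; ring
    rw [c5] at sup1
    have hW := h.W_three (r := r) (by omega) hsx (a := 901 / 1000 * A)
      (by linarith) (by linarith) (by linarith) (by linarith)
    have hQ := h.qW r (by omega)
    have l5 := h.lem1 (t := 2 * r) (by omega)
    have e3 : Aa ν ((2 * r : ℕ) : ℝ) = Aa ν r / 4 := by
      rw [← Aa_two hν (by linarith)]; push_cast; rfl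
    rw [e3] at l5
    linarith
  · -- s = t + 2
    subst heq
    have hτ : 2 * t + 1 ≤ τ (t + 2) := by
      by_contra hlt
      have h1 : τ (t + 2) ∈ Finset.Ico 1 (2 * t + 1) := by
        rw [mem_Ico]
        exact ⟨hS.tau_pos (by omega), by omega⟩
      rw [← h.jset ht hx] at h1
      have h2 := hS.tau_notMem (t := t + 2) (by omega)
      rw [mem_insert] at h1
      rcases h1 with h1 | h1
      · exact (hS.inj t (t + 2) ht (by omega)).1 h1.symm
      · exact h2 (Ch_mono (by omega) h1)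
    have x1 := hS.le (i := 2 * t + 1) (j := τ (t + 2)) (by omega) hτ
    have x2 := h.X1 (2 * t + 1) (by omega)
    have x3 := ell_two hν (s := (t : ℝ) + 1 / 2) (by linarith)
    have x4 : (2 : ℝ) * ((t : ℝ) + 1 / 2) = ((2 * t + 1 : ℕ) : ℝ) := by push_cast; ring
    rw [x4] at x3
    have hW := h.jW (t := t + 2) (by omega) hsx
    have hh := hS.half (t := t + 2) (by omega)
    have hQ := h.qW (t + 2) (by omega)
    have c3 : ((t + 2 : ℕ) : ℝ) - ((t : ℝ) + 1 / 2) = 3 / 2 := by push_cast; ring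
    have sup := ell_support (s := (t : ℝ) + 1 / 2) (s' := ((t + 2 : ℕ) : ℝ)) hν (by linarith)
      (by push_cast; linarith)
    rw [c3] at sup
    have A1 := anti ((t : ℝ) + 1 / 2) (by linarith)
    linarith

/-- Lemma 2. -/
theorem Lim.lem2 (h : Lim x τ σ d ν q) {t : ℕ} (ht : 1 ≤ t) : q t ≤ 43 / 33 * Aa ν t := by
  rcases le_or_gt (q t) 0 with hq | hq
  · have := Aa_pos h.nu (t : ℝ)
    linarith
  obtain ⟨s, hts, hsx, -, hqs⟩ := h.first ht hq
  have h1 := h.lem2_long (t := s) (by omega) hsx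
  have h2 := hqs s hts le_rfl
  have ht' : (1 : ℝ) ≤ t := by exact_mod_cast ht
  have h3 := Aa_anti h.nu (s := (t : ℝ)) (s' := (s : ℝ)) (by linarith) (by exact_mod_cast hts)
  linarith

end Pool.H17.SP
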