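import Pool.Agent.H17.SP.Comb
import Pool.Agent.H17.SP.Ell

/-!
Step 1: near perfect times, first part.
-/

namespace Pool.H17.SP

open Finset Filter
open Pool.Agent.H36.Split

variable {x : ℕ → ℝ} {τ σ : ℕ → ℕ} {d : ℕ → ℝ}

/-- `n` is near perfect, `N = ⌈n / 2⌉`. -/
structure Np (d : ℕ → ℝ) (n N : ℕ) (δ e : ℝ) : Prop where
  h1 : 2 * N - 1 ≤ n
  h2 : n ≤ 2 * N
  e0 : 0 < e
  e1 : e ≤ 1 / 1000
  big : 1 ≤ e * N
  δ0 : 0 < δ
  le : 1 - e ≤ N * δ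
  dn : d n ≤ 2 * Real.exp (-(Real.log 2 * δ))

/-- `x (t+1) ≤ e^(-cδ) x t` for `t + 1 ≤ n`. -/
lemma Str.chain (h : Str x τ σ d) {n : ℕ} {δ : ℝ}
    (hd : d n ≤ 2 * Real.exp (-(Real.log 2 * δ))) {t : ℕ} (ht : 1 ≤ t) (htn : t + 1 ≤ n) :
    x (t + 1) ≤ Real.exp (-(Real.log 2 * δ)) * x t := by
  have e1 := h.step t ht
  have e2 := h.dmono (t + 1) n (by omega) htn
  have e3 := h.pos (h.sig_pos ht)
  have e4 := h.sig_lt ht
  have e5 := Real.exp_pos (-(Real.log 2 * δ))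
  calc x (t + 1) ≤ d (t + 1) * x (σ t) := e1
    _ ≤ (2 * Real.exp (-(Real.log 2 * δ))) * x (σ t) :=
      mul_le_mul_of_nonneg_right (e2.trans hd) e3.le
    _ = Real.exp (-(Real.log 2 * δ)) * (2 * x (σ t)) := by ring
    _ ≤ Real.exp (-(Real.log 2 * δ)) * x t := mul_le_mul_of_nonneg_left e4.le e5.le

/-- `x (t + m) ≤ e^(-c m δ) x t` for `t + m ≤ n`. -/
lemma Str.chain_pow (h : Str x τ σ d) {n : ℕ} {δ : ℝ}
    (hd : d n ≤ 2 * Real.exp (-(Real.log 2 * δ))) {t : ℕ} (ht : 1 ≤ t) (m : ℕ)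
    (htn : t + m ≤ n) : x (t + m) ≤ Real.exp (-(Real.log 2 * δ * m)) * x t := by
  induction m with
  | zero => simp
  | succ m ih =>
    have h1 := ih (by omega)
    have h2 := h.chain hd (t := t + m) (by omega) (by omega)
    have h3 := Real.exp_pos (-(Real.log 2 * δ))
    calc x (t + (m + 1)) ≤ Real.exp (-(Real.log 2 * δ)) * x (t + m) := h2
      _ ≤ Real.exp (-(Real.log 2 * δ)) * (Real.exp (-(Real.log 2 * δ * m)) * x t) :=
        mul_le_mul_of_nonneg_left h1 h3.le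
      _ = Real.exp (-(Real.log 2 * δ * ((m + 1 : ℕ) : ℝ))) * x t := by
        rw [← mul_assoc, ← Real.exp_add]
        congr 2
        push_cast
        ring

/-- Pieces present at time `t ≤ n` have `x k ≥ (1/2) e^(cδ) x t`. -/
lemma Str.ge_near (h : Str x τ σ d) {n : ℕ} {δ : ℝ}
    (hd : d n ≤ 2 * Real.exp (-(Real.log 2 * δ))) {t k : ℕ} (ht : 2 ≤ t) (htn : t ≤ n)
    (hk : k ∈ Ch τ σ t) : Real.exp (Real.log 2 * δ) * x t ≤ 2 * x k := by
  have h1 := h.le_mul ht htn hk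
  have h2 := h.pos (h.one_le_of_mem hk)
  have h3 := mul_le_mul_of_nonneg_right hd h2.le
  have h4 := Real.exp_pos (Real.log 2 * δ)
  have h5 : Real.exp (Real.log 2 * δ) * Real.exp (-(Real.log 2 * δ)) = 1 := by
    rw [← Real.exp_add]; simp
  calc Real.exp (Real.log 2 * δ) * x t
      ≤ Real.exp (Real.log 2 * δ) * (2 * Real.exp (-(Real.log 2 * δ)) * x k) :=
        mul_le_mul_of_nonneg_left (h1.trans h3) h4.le
    _ = 2 * (Real.exp (Real.log 2 * δ) * Real.exp (-(Real.log 2 * δ))) * x k := by ring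
    _ = 2 * x k := by rw [h5]; ring

/-- `x (σ t) ≥ (1/2) e^(cδ) x (t+1)` for `t + 1 ≤ n`. -/
lemma Str.sig_near (h : Str x τ σ d) {n : ℕ} {δ : ℝ}
    (hd : d n ≤ 2 * Real.exp (-(Real.log 2 * δ))) {t : ℕ} (ht : 1 ≤ t) (htn : t + 1 ≤ n) :
    Real.exp (Real.log 2 * δ) * x (t + 1) ≤ 2 * x (σ t) :=
  h.ge_near hd (by omega) htn (sig_mem ht (by omega))

end Pool.H17.SP
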