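import Pool.Agent.H17.SP.Lem2
import Pool.Agent.H17.SP.NpA

/-!
Step 4: the neighbourhood of a seam `w` of a near perfect time `n`.
-/

namespace Pool.H17.SP

open Finset Filter
open Pool.Agent.H36.Split

variable {x : ℕ → ℝ} {τ σ : ℕ → ℕ} {d : ℕ → ℝ} {ν : ℝ} {q : ℕ → ℝ}

/-- All data of Steps 4 and 5. -/
structure Good (x : ℕ → ℝ) (τ σ : ℕ → ℕ) (d : ℕ → ℝ) (ν : ℝ) (q : ℕ → ℝ) (T n : ℕ)
    (w δ : ℝ) : Prop where
  lim : Lim x τ σ d ν q
  near : Near d ν n w δ (1 / 1000000)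
  wbig : 1000000 ≤ w
  T1 : 1 ≤ T
  X2 : ∀ t : ℕ, T ≤ t → (1 - 1 / 1000) * ell ν t ≤ x t
  wT : 10 * (T : ℝ) ≤ w

variable {T n : ℕ} {w δ : ℝ}

/-- numerical consequences -/
lemma Good.num (h : Good x τ σ d ν q T n w δ) :
    0 < w ∧ 0 < δ ∧ 999999 / 1000000 ≤ w * δ ∧ w * δ ≤ 1000001 / 1000000 ∧
      δ ≤ 11 / 10000000 ∧ 999999 / 1000000 * (2 * w) ≤ n := by
  have h1 := h.near.w0
  have h2 := h.near.δ0
  have h3 := h.near.le
  have h4 := h.near.ge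
  have h5 := h.near.nw
  have h6 := h.wbig
  refine ⟨h1, h2, by linarith, by linarith, ?_, by linarith⟩
  by_contra hcon
  push Not at hcon
  nlinarith

/-- `κ := w δ`; on `[w, 2w)`: `c δ ell = κ A`. -/
lemma Good.slope (h : Good x τ σ d ν q T n w δ) {s : ℝ} (h1 : w ≤ s) (h2 : s < 2 * w) :
    Real.log 2 * δ * ell ν s = w * δ * Aa ν s := by
  have h0 := h.near.w0
  rw [Aa_seam h.lim.nu h.near.seam h1 h2]
  field_simp

/-- on `[w/2, w)`: `c δ ell = κ A / 2`. -/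
lemma Good.slope' (h : Good x τ σ d ν q T n w δ) {s : ℝ} (h1 : w / 2 ≤ s) (h2 : s < w) :
    Real.log 2 * δ * ell ν s = w * δ * Aa ν s / 2 := by
  have h0 := h.near.w0
  rw [Aa_seam' h.lim.nu h.near.seam h1 h2]
  field_simp

/-- (C) A crossing time `2 ≤ t ≤ n` has `e^(cδ) x t ≤ ell t`. -/
lemma Good.cross (h : Good x τ σ d ν q T n w δ) {t : ℕ} (ht : 2 ≤ t) (htn : t ≤ n)
    (hc : Crossing τ σ t) :
    Real.exp (Real.log 2 * δ) * x t ≤ 2 * x (2 * t) ∧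
      Real.exp (Real.log 2 * δ) * x t ≤ ell ν t := by
  have hS := h.lim.str
  obtain ⟨z, hz, h2z⟩ := hS.crossing_high (by omega) hc
  have h1 := hS.ge_near h.near.dn ht htn hz
  have h2 := hS.le (i := 2 * t) (j := z) (by omega) h2z
  have h3 := h.lim.X1 (2 * t) (by omega)
  have h4 := ell_two h.lim.nu (s := (t : ℝ)) (by positivity)
  have h5 : (2 : ℝ) * t = ((2 * t : ℕ) : ℝ) := by push_cast; ring
  rw [h5] at h4
  constructor <;> linarith

lemma exp_sub_le {y : ℝ} (hy : 0 ≤ y) : Real.exp (-y) ≤ 1 - y + y ^ 2 / 2 := by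
  have h := Real.quadratic_le_exp_of_nonneg hy
  have h1 := Real.exp_pos y
  have h2 : Real.exp (-y) * Real.exp y = 1 := by rw [← Real.exp_add]; simp
  have h3 : (1 - y + y ^ 2 / 2) * (1 + y + y ^ 2 / 2) ≤ (1 - y + y ^ 2 / 2) * Real.exp y :=
    mul_le_mul_of_nonneg_left h (by nlinarith [sq_nonneg (1 - y)])
  have h4 : 1 ≤ (1 - y + y ^ 2 / 2) * (1 + y + y ^ 2 / 2) := by
    have : (1 - y + y ^ 2 / 2) * (1 + y + y ^ 2 / 2) = 1 + y ^ 4 / 4 := by ring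
    rw [this]
    have : 0 ≤ y ^ 4 := by positivity
    linarith
  have h5 : Real.exp (-y) * Real.exp y ≤ (1 - y + y ^ 2 / 2) * Real.exp y := by linarith
  exact le_of_mul_le_mul_right h5 h1

/-- small numbers: `y = log 2 * δ`. -/
lemma Good.y (h : Good x τ σ d ν q T n w δ) :
    0 < Real.log 2 * δ ∧ Real.log 2 * δ ≤ 1 / 1000000 ∧
      1 + Real.log 2 * δ ≤ Real.exp (Real.log 2 * δ) ∧
      Real.exp (Real.log 2 * δ) ≤ 1 + 2 / 1000000 := by
  obtain ⟨w0, δ0, k1, k2, hδ, hnw⟩ := h.num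
  have hc := log_two_pos
  have hc2 : Real.log 2 ≤ 7 / 10 := by have := Real.log_two_lt_d9; linarith
  have hy0 : 0 < Real.log 2 * δ := mul_pos hc δ0
  have hy1 : Real.log 2 * δ ≤ 1 / 1000000 := by nlinarith
  refine ⟨hy0, hy1, ?_, ?_⟩
  · have := Real.add_one_le_exp (Real.log 2 * δ); linarith
  · apply exp_le_aux
    · linarith
    · nlinarith

end Pool.H17.SP
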