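import Pool.Agent.H17.SP.NearA

/-!
[H17 SP D3] MP_eb524a_co, Q1 (full answer). Step 5, (D3).
Ch (l+1) = insert (τ l) (insert (σ l) (Ch l)) = Ico 1 (2l+2) (Ch_succ, hc'). All elements of
insert (τ l) (Ch l) (2l of them) are < σ l (Str.lt_sig, Str.sig_gt), so σ l = 2l+1. τ l ≠ 2l, since
otherwise Ch l ⊆ Ico 1 (2l) and l is not crossing (Str.crossing_of); so τ l ≤ 2l - 1 and
x l = x (τ l) + x (σ l) ≥ x (2l-1) + x (2l+1). Good.cross: exp y x l ≤ 2 x (2l), exp y ≥ 1 + y,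
y = log 2 * δ. So x (2l-1) - 2 x (2l) + x (2l+1) ≤ - y x l; insert Lim.x_eq (three times) and
uu_conv at 2l - 1.
-/

namespace Pool.H17.SP

open Finset Filter
open Pool.Agent.H36.Split

variable {x : ℕ → ℝ} {τ σ : ℕ → ℕ} {d : ℕ → ℝ} {ν : ℝ} {q : ℕ → ℝ} {T n : ℕ} {w δ : ℝ}

/-- (D3) -/
lemma Good.D3 (h : Good x τ σ d ν q T n w δ) {l : ℕ} (hl : 2 ≤ l) (hln : l ≤ n)
    (hc : Crossing τ σ l) (hc' : ¬ Crossing τ σ (l + 1)) :
    Real.log 2 * δ * x l ≤ q (2 * l + 2) - 3 * q (2 * l + 1) + 3 * q (2 * l) - q (2 * l - 1) := by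
  have hS := h.lim.str
  have hν := h.lim.nu
  have hset : insert (τ l) (insert (σ l) (Ch τ σ l)) = Finset.Ico 1 (2 * l + 2) := by
    rw [← Ch_succ l (by omega)]
    unfold Crossing at hc'
    rw [not_not] at hc'
    rw [hc']
    congr 1
  have hσ : ∀ k ∈ Ch τ σ l, k < σ l := fun k hk => hS.lt_sig (by omega) hk
  have hτσ := hS.sig_gt (t := l) (by omega)
  have hσ1 : σ l = 2 * l + 1 := by
    have m1 : σ l ∈ Finset.Ico 1 (2 * l + 2) := by rw [← hset]; simp
    have m2 : 2 * l + 1 ∈ insert (τ l) (insert (σ l) (Ch τ σ l)) := by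
      rw [hset, mem_Ico]; omega
    rw [mem_Ico] at m1
    rw [mem_insert, mem_insert] at m2
    rcases m2 with m2 | m2 | m2
    · omega
    · exact m2.symm
    · have := hσ _ m2
      omega
  have hτ1 : τ l ≤ 2 * l - 1 := by
    by_contra hcon
    have hτ2 : τ l = 2 * l := by omega
    apply hS.crossing_of (t := l) (by omega) _ hc
    intro k hk
    have h1 := hσ k hk
    have h2 : k ≠ τ l := fun he => hS.tau_notMem (t := l) (by omega) (he ▸ hk)
    omega
  have hsp := hS.cut.split l (by omega)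
  rw [hσ1] at hsp
  have h1 := hS.le (i := τ l) (j := 2 * l - 1) (hS.tau_pos (by omega)) hτ1
  have h2 := (h.cross hl hln hc).1
  have h3 := Real.add_one_le_exp (Real.log 2 * δ)
  have h4 := hS.pos (t := l) (by omega)
  have h5 : (Real.log 2 * δ + 1) * x l ≤ Real.exp (Real.log 2 * δ) * x l :=
    mul_le_mul_of_nonneg_right h3 h4.le
  obtain ⟨m, hm⟩ : ∃ m, 2 * l = m + 1 := ⟨2 * l - 1, by omega⟩
  have x1 := h.lim.x_eq (t := m) (by omega)
  have x2 := h.lim.x_eq (t := m + 1) (by omega)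
  have x3 := h.lim.x_eq (t := m + 2) (by omega)
  have u := uu_conv hν (t := m) (by omega)
  rw [show 2 * l - 1 = m by omega] at h1 ⊢
  rw [hm] at h2 hsp ⊢
  rw [show m + 1 + 1 = m + 2 by ring] at x2 hsp ⊢
  rw [show m + 2 + 1 = m + 3 by ring] at x3
  rw [show m + 1 + 2 = m + 3 by ring]
  linarith

end Pool.H17.SP
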