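import Pool.Agent.H17.SP.NearSa

/-!
[H17 SP SB] MP_eb524a_co, Q1 (full answer). Step 4 (b), downward induction on t in [w/2, w+3]
(take the largest bad t ≤ w + 3). y = log 2 * δ, E = exp y, κ = w δ, A = Aa ν t.
* t not crossing (in particular t ≥ w, Good.a): q t = q (2t) ≤ 43/33 Aa (2t) = 43/132 A (lem2,
  Aa_two).
* t < w crossing and x t ≤ ell (t+1/2): q t ≤ q (t+1) ≤ 33/100 Aa (t+1) ≤ 33/100 A (Lim.up).
* t < w crossing and x t > ell (t+1/2): by Lim.jW, W t = x (τ t) - x (2t), x (τ t) = x t - x (σ t)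
  ≤ x t - E x (t+1)/2 (Str.sig_near), 2 x (2t) ≥ E x t and E x t ≤ ell t (Good.cross). With J0,
  x (t+1) ≥ 2 ell t - x t - 2A - q (t+2) + q t, so
  W t ≤ x t - E ell t + E A + (E/2)(q (t+2) - q t), and x t ≤ exp(-y) ell t ≤ (1 - y + y^2/2) ell t,
  E ≥ 1 + y: x t - E ell t ≤ (-2y + y^2/2) ell t = (-κ + κ y/4) A (Good.slope'). With
  E ≤ 1.0001 and q (t+2) ≤ 33/100 Aa (t+2) ≤ 33/100 A (t + 2 ≤ w + 3):
  (3/2) q t ≤ q (2t) + 0.001 A + q (t+2)/2 ≤ (43/132 + 0.001 + 0.165) A < (3/2) 0.33 A.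
-/

namespace Pool.H17.SP

open Finset Filter
open Pool.Agent.H36.Split

variable {x : ℕ → ℝ} {τ σ : ℕ → ℕ} {d : ℕ → ℝ} {ν : ℝ} {q : ℕ → ℝ} {T n : ℕ} {w δ : ℝ}

/-- The step of (b) at a crossing long time. -/
lemma Good.b_step (h : Good x τ σ d ν q T n w δ) {t : ℕ} (h1 : w / 2 ≤ t) (h2 : (t : ℝ) < w)
    (hcr : Crossing τ σ t) (hx : ell ν ((t : ℝ) + 1 / 2) < x t)
    (hq : q (t + 2) ≤ 33 / 100 * Aa ν t) : q t ≤ 33 / 100 * Aa ν t := by
  have hν := h.lim.nu
  have hS := h.lim.str
  obtain ⟨w0, δ0, k1, k2, hδ, hnw⟩ := h.num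
  obtain ⟨y0, y1, E1, E2⟩ := h.y
  have hw := h.wbig
  have ht2' : (2 : ℝ) ≤ t := by linarith
  have ht2 : 2 ≤ t := by exact_mod_cast ht2'
  have htn : t + 1 ≤ n := by
    have : ((t + 1 : ℕ) : ℝ) ≤ n := by push_cast; linarith
    exact_mod_cast this
  have hsl := h.slope' (s := (t : ℝ)) h1 h2
  obtain ⟨hc1, hc2⟩ := h.cross ht2 (by omega) hcr
  have hJ := h.lim.jW (t := t) (by omega) hx
  have hsp := hS.cut.split t (by omega)
  have hsn := hS.sig_near h.near.dn (t := t) (by omega) htn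
  have hJ0 := h.lim.J0 (t := t) (by omega)
  have hW := h.lim.qW t (by omega)
  have l2 := h.lim.lem2 (t := 2 * t) (by omega)
  have a2 : Aa ν ((2 * t : ℕ) : ℝ) = Aa ν t / 4 := by
    rw [← Aa_two hν (by linarith)]; push_cast; rfl
  rw [a2] at l2
  have hA0 : 0 < Aa ν t := Aa_pos hν _
  have hell := ell_pos hν (t : ℝ)
  have q0 := h.lim.q0 t (by omega)
  have hxpos := hS.pos (t := t) (by omega)
  set A := Aa ν t with hA
  set y := Real.log 2 * δ with hy
  set E := Real.exp y with hE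
  set L := ell ν t with hL
  -- `x t ≤ exp (-y) L`
  have hx0 : x t ≤ (1 - y + y ^ 2 / 2) * L := by
    have e0 : Real.exp (-y) * E = 1 := by rw [hE, ← Real.exp_add]; simp
    have e1 : Real.exp (-y) * (E * x t) ≤ Real.exp (-y) * L :=
      mul_le_mul_of_nonneg_left hc2 (Real.exp_pos _).le
    have e2 : Real.exp (-y) * (E * x t) = x t := by rw [← mul_assoc, e0, one_mul]
    have e3 := mul_le_mul_of_nonneg_right (exp_sub_le y0.le) hell.le
    linarith only [e1, e2, e3]
  -- lower bound for `x (t+1)`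
  have hx1 : 2 * L - x t - 2 * A - q (t + 2) + q t ≤ x (t + 1) := by linarith only [hJ0]
  have hE0 : 0 < E := by linarith only [E1, y0]
  have e4 : E * (2 * L - x t - 2 * A - q (t + 2) + q t) ≤ E * x (t + 1) :=
    mul_le_mul_of_nonneg_left hx1 hE0.le
  have e5 : W x τ σ t ≤ x t - E * L + E * A + E * (q (t + 2) - q t) / 2 := by
    linarith only [hJ, hsp, hsn, hc1, e4]
  have e6 : (1 + y) * L ≤ E * L := mul_le_mul_of_nonneg_right E1 hell.le
  have e7 : x t - E * L ≤ -2 * (y * L) + y * (y * L) / 2 := by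
    have : (1 - y + y ^ 2 / 2) * L - (1 + y) * L = -2 * (y * L) + y * (y * L) / 2 := by ring
    linarith only [hx0, e6, this]
  rw [hsl] at e7
  have e8 : y * (w * δ * A / 2) ≤ 1 / 1000000 * A := by
    have f1 : w * δ * A / 2 ≤ A := by
      have := mul_le_mul_of_nonneg_right k2 hA0.le
      linarith only [this, hA0]
    have f2 : 0 ≤ w * δ * A / 2 := by positivity
    exact mul_le_mul y1 f1 f2 (by norm_num)
  have e9 : 999999 / 1000000 * A ≤ w * δ * A := mul_le_mul_of_nonneg_right k1 hA0.le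
  have e10 : E * A ≤ (1 + 2 / 1000000) * A := mul_le_mul_of_nonneg_right E2 hA0.le
  -- `E (q (t+2) - q t) ≤ (q (t+2) - q t) + (E-1) q (t+2)`
  have e11 : E * (q (t + 2) - q t) ≤ q (t + 2) - q t + 2 / 1000000 * A := by
    have f3 : (E - 1) * (q (t + 2) - q t) ≤ (E - 1) * A := by
      apply mul_le_mul_of_nonneg_left _ (by linarith only [E1, y0])
      linarith only [hq, q0, hA0]
    have f4 : (E - 1) * A ≤ 2 / 1000000 * A := by
      apply mul_le_mul_of_nonneg_right _ hA0.le
      linarith only [E2]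
    linarith only [f3, f4]
  linarith only [hW, l2, e5, e7, e8, e9, e10, e11, hq, hA0]

/-- (b) -/
lemma Good.b (h : Good x τ σ d ν q T n w δ) {t : ℕ} (h1 : w / 2 ≤ t) (h2 : (t : ℝ) ≤ w + 3) :
    q t ≤ 33 / 100 * Aa ν t := by
  have hν := h.lim.nu
  have hw := h.wbig
  obtain ⟨M, hM⟩ := exists_nat_gt (w + 3)
  have key : ∀ k : ℕ, ∀ t : ℕ, M ≤ t + k → w / 2 ≤ t → (t : ℝ) ≤ w + 3 →
      q t ≤ 33 / 100 * Aa ν t := by
    intro k
    induction k using Nat.strong_induction_on with
    | _ k ih =>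
      intro t hMt h1 h2
      have hk : k ≠ 0 := by
        intro hk
        have : (M : ℝ) ≤ t := by exact_mod_cast (by omega : M ≤ t)
        linarith
      have ht1' : (1 : ℝ) ≤ t := by linarith
      have ht1 : 1 ≤ t := by exact_mod_cast ht1'
      have hA0 : 0 < Aa ν t := Aa_pos hν _
      by_cases hcr : Crossing τ σ t
      · have htw : (t : ℝ) < w := by
          by_contra hcon
          exact h.a (not_lt.mp hcon) h2 hcr
        have anti : ∀ m : ℕ, Aa ν ((t + m : ℕ) : ℝ) ≤ Aa ν t := fun m =>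
          Aa_anti hν (by linarith) (by push_cast; have := Nat.cast_nonneg (α := ℝ) m; linarith)
        have i1 : q (t + 1) ≤ 33 / 100 * Aa ν ((t + 1 : ℕ) : ℝ) := by
          apply ih (k - 1) (by omega) (t + 1) (by omega)
          · push_cast; linarith
          · push_cast; linarith
        rcases le_or_gt (x t) (ell ν ((t : ℝ) + 1 / 2)) with hx | hx
        · have := h.lim.up ht1 hx
          have := anti 1
          linarith
        · apply h.b_step h1 htw hcr hx
          rcases Nat.lt_or_ge k 2 with hk2 | hk2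
          · -- `t + 2` is beyond `M`, impossible
            exfalso
            have : (M : ℝ) ≤ ((t + 1 : ℕ) : ℝ) := by exact_mod_cast (by omega : M ≤ t + 1)
            push_cast at this
            linarith
          · have i2 : q (t + 2) ≤ 33 / 100 * Aa ν ((t + 2 : ℕ) : ℝ) := by
              apply ih (k - 2) (by omega) (t + 2) (by omega)
              · push_cast; linarith
              · push_cast; linarith
            have := anti 2
            linarith
      · have h3 := h.lim.q_two_eq ht1 hcr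
        have l2 := h.lim.lem2 (t := 2 * t) (by omega)
        have a2 : Aa ν ((2 * t : ℕ) : ℝ) = Aa ν t / 4 := by
          rw [← Aa_two hν (by linarith)]; push_cast; rfl
        rw [a2] at l2
        linarith
  exact key M t (by omega) h1 h2

end Pool.H17.SP
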