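import Pool.Agent.H17.SP.NearD
import Pool.Agent.H17.SP.NearSb

/-!
[H17 SP LARGE] MP_eb524a_co, Q1 (full answer). Step 5, case l ≥ w/4. y = log 2 * δ, κ = w δ,
A = Aa ν (2l), 2l in [w/2, w). D3, q (2l+1).. : y x l ≥ 0.999 y ell l (X2, l ≥ w/4 ≥ T)
= 0.999 * 2 y ell (2l) = 0.999 κ A ≥ 0.9989 A (ell_two, Good.slope').
q (2l+2) ≤ 33/100 A (Good.b), q (2l-1) ≥ 0. Claim: q (2l) - q (2l+1) ≤ 175/792 A. Then
0.33 + 3 * 175/792 = 0.9929 < 0.9989, a contradiction.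
Claim. Otherwise x (2l) = uu (2l) + q (2l) - q (2l+1) > ell (2l) - A/2 + 0.22 A (le_uu), so 2l is not
crossing (Good.cross would give x (2l) ≤ exp(-y) ell (2l) ≤ (1 - y + y^2/2) ell (2l)
= ell (2l) - (κ/2) A + (κ y/4) A). So q (2l) = q (4l), and q (4l+2) ≤ q (2l+1) (q_two_le at 2l+1).
If x (4l) ≤ ell (4l + 1/2): q (4l) ≤ q (4l+1) ≤ q (4l+2) + Aa (4l+1)/2 ≤ q (2l+1) + A/8 (Lim.up,
Lim.down_le, Aa_two). Otherwise J1 at 4l and lem2 at 8l: (3/2) q (2l) ≤ 43/33 * A/16 + A/4 +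
q (2l+1)/2, so (3/2)(q (2l) - q (2l+1)) ≤ 175/528 A.
-/

namespace Pool.H17.SP

open Finset Filter
open Pool.Agent.H36.Split

variable {x : ℕ → ℝ} {τ σ : ℕ → ℕ} {d : ℕ → ℝ} {ν : ℝ} {q : ℕ → ℝ} {T n : ℕ} {w δ : ℝ}

lemma Good.large_aux (h : Good x τ σ d ν q T n w δ) {l : ℕ} (h1 : w / 4 ≤ l)
    (h2 : (l : ℝ) < w / 2) : q (2 * l) - q (2 * l + 1) ≤ 175 / 792 * Aa ν ((2 * l : ℕ) : ℝ) := by
  by_contra hcon
  push Not at hcon
  have hν := h.lim.nu
  obtain ⟨w0, δ0, k1, k2, hδ, hnw⟩ := h.num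
  have hw := h.wbig
  have hl' : (2 : ℝ) ≤ l := by linarith
  have hl : 2 ≤ l := by exact_mod_cast hl'
  set A := Aa ν ((2 * l : ℕ) : ℝ) with hA
  have hA0 : 0 < A := Aa_pos hν _
  have hc2 : Real.log 2 ≤ 7 / 10 := by have := Real.log_two_lt_d9; linarith
  have hc := log_two_pos
  set y := Real.log 2 * δ with hy
  have hy0 : 0 < y := mul_pos hc δ0
  have hy1 : y ≤ 1 / 1000000 := by rw [hy]; nlinarith
  have c1 : ((2 * l : ℕ) : ℝ) = 2 * (l : ℝ) := by push_cast; ring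
  have hsl := h.slope' (s := ((2 * l : ℕ) : ℝ)) (by rw [c1]; linarith) (by rw [c1]; linarith)
  have hx := h.lim.x_eq (t := 2 * l) (by omega)
  have hu := le_uu hν (t := 2 * l) (by omega)
  have hnc : ¬ Crossing τ σ (2 * l) := by
    intro hcr
    have h3 := (h.cross (t := 2 * l) (by omega) (by
      have : ((2 * l : ℕ) : ℝ) ≤ n := by rw [c1]; linarith
      exact_mod_cast this) hcr).2
    have h4 : 1 + y ≤ Real.exp y := by have := Real.add_one_le_exp y; linarith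
    have h5 := h.lim.str.pos (t := 2 * l) (by omega)
    have h6 : (1 + y) * x (2 * l) ≤ ell ν ((2 * l : ℕ) : ℝ) :=
      (mul_le_mul_of_nonneg_right h4 h5.le).trans h3
    -- `x ≥ ell - 0.28 A`
    have h7 : ell ν ((2 * l : ℕ) : ℝ) - 28 / 100 * A ≤ x (2 * l) := by linarith
    have h8 : (1 + y) * (ell ν ((2 * l : ℕ) : ℝ) - 28 / 100 * A) ≤
        ell ν ((2 * l : ℕ) : ℝ) := le_trans (mul_le_mul_of_nonneg_left h7 (by linarith)) h6
    have h9 : y * ell ν ((2 * l : ℕ) : ℝ) ≤ (1 + y) * (28 / 100 * A) := by linarith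
    rw [hsl] at h9
    nlinarith
  have q4 := h.lim.q_two_eq (t := 2 * l) (by omega) hnc
  have q5 := h.lim.q_two_le (t := 2 * l + 1) (by omega)
  have e1 : 2 * (2 * l) = 4 * l := by ring
  have e2 : 2 * (2 * l + 1) = 4 * l + 2 := by ring
  rw [e1] at q4
  rw [e2] at q5
  have a4 : Aa ν ((4 * l : ℕ) : ℝ) = A / 4 := by
    rw [hA, ← Aa_two hν (by rw [c1]; linarith)]
    congr 1
    push_cast
    ring
  rcases le_or_gt (x (4 * l)) (ell ν (((4 * l : ℕ) : ℝ) + 1 / 2)) with h3 | h3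
  · have u1 := h.lim.up (t := 4 * l) (by omega) h3
    have u2 := h.lim.down_le (t := 4 * l + 1) (by omega)
    have a5 := Aa_anti hν (s := ((4 * l : ℕ) : ℝ)) (s' := ((4 * l + 1 : ℕ) : ℝ))
      (by push_cast; linarith) (by push_cast; linarith)
    have e3 : 4 * l + 1 + 1 = 4 * l + 2 := by ring
    rw [e3] at u2
    linarith
  · have u1 := h.lim.J1 (t := 4 * l) (by omega) h3
    have u2 := h.lim.X1 (4 * l) (by omega)
    have u3 := h.lim.lem2 (t := 2 * (4 * l)) (by omega)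
    have a8 : Aa ν ((2 * (4 * l) : ℕ) : ℝ) = A / 16 := by
      have : ((2 * (4 * l) : ℕ) : ℝ) = 2 * ((4 * l : ℕ) : ℝ) := by push_cast; ring
      rw [this, Aa_two hν (by push_cast; linarith), a4]
      ring
    have u4 := h.lim.q0 (2 * l + 1) (by omega)
    linarith

/-- The large case. -/
lemma Good.large (h : Good x τ σ d ν q T n w δ) {l : ℕ} (h1 : w / 4 ≤ l) (h2 : (l : ℝ) < w / 2)
    (hc : Crossing τ σ l) (hc' : ¬ Crossing τ σ (l + 1)) : False := by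
  have hν := h.lim.nu
  obtain ⟨w0, δ0, k1, k2, hδ, hnw⟩ := h.num
  have hw := h.wbig
  have hwT := h.wT
  have hl' : (2 : ℝ) ≤ l := by linarith
  have hl : 2 ≤ l := by exact_mod_cast hl'
  have hT0 : (0 : ℝ) ≤ T := Nat.cast_nonneg T
  have hTl : T ≤ l := by
    have : (T : ℝ) ≤ l := by linarith
    exact_mod_cast this
  have hln : l ≤ n := by
    have : (l : ℝ) ≤ n := by linarith
    exact_mod_cast this
  have hD := h.D3 hl hln hc hc'
  have hcl := h.large_aux h1 h2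
  set A := Aa ν ((2 * l : ℕ) : ℝ) with hA
  have hA0 : 0 < A := Aa_pos hν _
  have c1 : ((2 * l : ℕ) : ℝ) = 2 * (l : ℝ) := by push_cast; ring
  have hsl := h.slope' (s := ((2 * l : ℕ) : ℝ)) (by rw [c1]; linarith) (by rw [c1]; linarith)
  have q1 := h.lim.q0 (2 * l - 1) (by omega)
  have hb := h.b (t := 2 * l + 2) (by push_cast; linarith) (by push_cast; linarith)
  have ha := Aa_anti hν (s := ((2 * l : ℕ) : ℝ)) (s' := ((2 * l + 2 : ℕ) : ℝ))
    (by push_cast; linarith) (by push_cast; linarith)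
  have hX := h.X2 l hTl
  have he := ell_two hν (s := (l : ℝ)) (by linarith)
  rw [← c1] at he
  have hc := log_two_pos
  have hy0 : 0 < Real.log 2 * δ := mul_pos hc δ0
  have hlow : Real.log 2 * δ * ((1 - 1 / 1000) * ell ν l) ≤ Real.log 2 * δ * x l :=
    mul_le_mul_of_nonneg_left hX hy0.le
  have e5 : Real.log 2 * δ * ((1 - 1 / 1000) * ell ν l) =
      (1 - 1 / 1000) * (w * δ) * A := by
    have : ell ν l = 2 * ell ν ((2 * l : ℕ) : ℝ) := by rw [he]; ring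
    rw [this]
    calc Real.log 2 * δ * ((1 - 1 / 1000) * (2 * ell ν ((2 * l : ℕ) : ℝ)))
        = (1 - 1 / 1000) * 2 * (Real.log 2 * δ * ell ν ((2 * l : ℕ) : ℝ)) := by ring
      _ = _ := by rw [hsl]; ring
  rw [e5] at hlow
  have e6 : 9985 / 10000 ≤ (1 - 1 / 1000) * (w * δ) := by linarith
  have e7 : 9985 / 10000 * A ≤ (1 - 1 / 1000) * (w * δ) * A :=
    mul_le_mul_of_nonneg_right e6 hA0.le
  linarith

end Pool.H17.SP
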