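import Pool.Agent.H17.SP.NearA

/-!
[H17 SP SA] MP_eb524a_co, Q1 (full answer). Step 4 (a). y = log 2 * δ, κ = w δ, A = Aa ν t.
Suppose t is crossing (t + 4 ≤ n, 2 ≤ t). Good.cross: exp y * x t ≤ ell t, so x t ≤ exp(-y) ell t and
(Str.chain_pow, h.near.dn) x (t+m) ≤ exp(-y m) x t ≤ exp(-y (m+1)) ell t for m = 0,1,2,3;
exp_sub_le: exp(-y(m+1)) ≤ 1 - (m+1) y + (m+1)^2 y^2/2. le_uu_add: uu (t+m) ≥ ell t - (m+1/2) A.
Four steps of h.lim.qstep and q t ≥ 0: q (t+4) ≥ (10 y - 15 y^2) ell t - 8 A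
= (10 κ - 15 y κ - 8) A (Good.slope, t < 2w) ≥ 1.9 A. But q (t+4) ≤ 4/3 Aa (t+4) ≤ 4/3 A (lem1).
-/

namespace Pool.H17.SP

open Finset Filter
open Pool.Agent.H36.Split

variable {x : ℕ → ℝ} {τ σ : ℕ → ℕ} {d : ℕ → ℝ} {ν : ℝ} {q : ℕ → ℝ} {T n : ℕ} {w δ : ℝ}

/-- (a) -/
lemma Good.a (h : Good x τ σ d ν q T n w δ) {t : ℕ} (h1 : w ≤ t) (h2 : (t : ℝ) ≤ w + 3) :
    ¬ Crossing τ σ t := by
  intro hcr
  have hν := h.lim.nu
  have hS := h.lim.str
  obtain ⟨w0, δ0, k1, k2, hδ, hnw⟩ := h.num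
  obtain ⟨y0, y1, E1, E2⟩ := h.y
  have hw := h.wbig
  have ht2' : (2 : ℝ) ≤ t := by linarith
  have ht2 : 2 ≤ t := by exact_mod_cast ht2'
  have htn : t + 4 ≤ n := by
    have : ((t + 4 : ℕ) : ℝ) ≤ n := by push_cast; linarith
    exact_mod_cast this
  set A := Aa ν t with hA
  have hA0 : 0 < A := Aa_pos hν _
  have hell := ell_pos hν (t : ℝ)
  have hsl := h.slope (s := (t : ℝ)) h1 (by linarith)
  have hcross := (h.cross ht2 (by omega) hcr).2
  set y := Real.log 2 * δ with hy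
  have hx0 : x t ≤ Real.exp (-y) * ell ν t := by
    have : Real.exp (-y) * (Real.exp y * x t) ≤ Real.exp (-y) * ell ν t :=
      mul_le_mul_of_nonneg_left hcross (Real.exp_pos _).le
    have e : Real.exp (-y) * (Real.exp y * x t) = x t := by
      rw [← mul_assoc, ← Real.exp_add]; simp
    rw [e] at this
    exact this
  have hxm : ∀ m : ℕ, m ≤ 3 → x (t + m) ≤
      (1 - ((m : ℝ) + 1) * y + (((m : ℝ) + 1) * y) ^ 2 / 2) * ell ν t := by
    intro m hm
    have e1 := hS.chain_pow h.near.dn (t := t) (by omega) m (by omega)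
    rw [← hy] at e1
    have e2 : Real.exp (-(y * m)) * x t ≤ Real.exp (-(y * m)) * (Real.exp (-y) * ell ν t) :=
      mul_le_mul_of_nonneg_left hx0 (Real.exp_pos _).le
    have e3 : Real.exp (-(y * m)) * (Real.exp (-y) * ell ν t) =
        Real.exp (-(((m : ℝ) + 1) * y)) * ell ν t := by
      rw [← mul_assoc, ← Real.exp_add]
      congr 2
      ring
    have e4 := exp_sub_le (y := ((m : ℝ) + 1) * y) (by positivity)
    have e5 := mul_le_mul_of_nonneg_right e4 hell.le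
    linarith
  have m0 := hxm 0 (by norm_num)
  have m1 := hxm 1 (by norm_num)
  have m2 := hxm 2 (by norm_num)
  have m3 := hxm 3 (by norm_num)
  have u0 := le_uu_add hν (t := t) (by omega) 0
  have u1 := le_uu_add hν (t := t) (by omega) 1
  have u2 := le_uu_add hν (t := t) (by omega) 2
  have u3 := le_uu_add hν (t := t) (by omega) 3
  have s0 := h.lim.qstep t (by omega)
  have s1 := h.lim.qstep (t + 1) (by omega)
  have s2 := h.lim.qstep (t + 2) (by omega)
  have s3 := h.lim.qstep (t + 3) (by omega)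
  have q0 := h.lim.q0 t (by omega)
  have l1 := h.lim.lem1 (t := t + 4) (by omega)
  have a1 := Aa_anti hν (s := (t : ℝ)) (s' := ((t + 4 : ℕ) : ℝ)) (by linarith)
    (by push_cast; linarith)
  push_cast at m0 m1 m2 m3 u0 u1 u2 u3
  simp only [add_zero] at m0 u0
  rw [show t + 1 + 1 = t + 2 by ring] at s1
  rw [show t + 2 + 1 = t + 3 by ring] at s2
  rw [show t + 3 + 1 = t + 4 by ring] at s3
  have hyell : y * ell ν t = w * δ * A := hsl
  have hy2 : y ^ 2 * ell ν t = y * (w * δ * A) := by rw [pow_two, mul_assoc, hyell]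
  have hκ : 0 < w * δ := by positivity
  have hb : y * (w * δ * A) ≤ 2 / 1000000 * A := by
    have e1 : w * δ * A ≤ 2 * A := mul_le_mul_of_nonneg_right (by linarith only [k2]) hA0.le
    have e2 : 0 ≤ w * δ * A := by positivity
    have e3 := mul_le_mul y1 e1 e2 (by norm_num : (0 : ℝ) ≤ 1 / 1000000)
    linarith only [e3]
  have hlow : 999999 / 1000000 * A ≤ w * δ * A := mul_le_mul_of_nonneg_right k1 hA0.le
  have key : 10 * (w * δ * A) - 15 * (y * (w * δ * A)) - 8 * A ≤ q (t + 4) := by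
    have f0 : (1 - (0 + 1) * y + ((0 + 1) * y) ^ 2 / 2) * ell ν t =
      ell ν t - y * ell ν t + 1 / 2 * (y ^ 2 * ell ν t) := by ring
    have f1 : (1 - (1 + 1) * y + ((1 + 1) * y) ^ 2 / 2) * ell ν t =
      ell ν t - 2 * (y * ell ν t) + 2 * (y ^ 2 * ell ν t) := by ring
    have f2 : (1 - (2 + 1) * y + ((2 + 1) * y) ^ 2 / 2) * ell ν t =
      ell ν t - 3 * (y * ell ν t) + 9 / 2 * (y ^ 2 * ell ν t) := by ring
    have f3 : (1 - (3 + 1) * y + ((3 + 1) * y) ^ 2 / 2) * ell ν t =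
      ell ν t - 4 * (y * ell ν t) + 8 * (y ^ 2 * ell ν t) := by ring
    rw [f0, hyell, hy2] at m0
    rw [f1, hyell, hy2] at m1
    rw [f2, hyell, hy2] at m2
    rw [f3, hyell, hy2] at m3
    rw [← hA] at u0 u1 u2 u3
    have g0 : (w * δ * A) - 1 / 2 * (y * (w * δ * A)) - 1 / 2 * A ≤ q (t + 1) := by
      linarith only [m0, u0, s0, q0]
    have g1 : 3 * (w * δ * A) - 5 / 2 * (y * (w * δ * A)) - 2 * A ≤ q (t + 2) := by
      linarith only [m1, u1, s1, g0]
    have g2 : 6 * (w * δ * A) - 7 * (y * (w * δ * A)) - 9 / 2 * A ≤ q (t + 3) := by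
      linarith only [m2, u2, s2, g1]
    linarith only [m3, u3, s3, g2]
  linarith only [key, hb, hlow, l1, a1, hA0]

end Pool.H17.SP
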