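import Pool.Agent.H17.SP.NpA

/-!
[H17 SP NPB] MP_eb524a_co, Q1 (full answer). Step 1: chain bounds at a near perfect time.
Proofs. c = log 2.
np_low: `x (2N) ≥ x N / 2` (Str.half), so `x (2N-1) ≥ x N / 2`; Str.chain_pow from `N + i` to
`2N - 1 ≤ n` (m = N - 1 - i steps) gives `x (2N-1) ≤ exp(-(c δ m)) x (N+i)`; multiply by the inverse
exponential.
np_delta: np_low with i = 0 gives `(1/2) exp(c δ (N-1)) ≤ 1 = exp(-c) 2 (1/2)..`, i.e.
`exp(c δ (N-1)) ≤ 2 = exp c`, so `δ (N-1) ≤ 1`. (N ≥ 1000 by `big` and `e1`.)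
np_small: `δ ≤ 1.1 e` and `N δ ≤ 1 + 1.1 e` from np_delta, `1 ≤ e N`.
-/

namespace Pool.H17.SP

open Finset Filter
open Pool.Agent.H36.Split

variable {x : ℕ → ℝ} {τ σ : ℕ → ℕ} {d : ℕ → ℝ}

lemma Np.N_ge {n N : ℕ} {δ e : ℝ} (hn : Np d n N δ e) : (1000 : ℝ) ≤ N := by
  have h1 := hn.big
  have h2 := hn.e1
  have h3 := hn.e0
  by_contra hcon
  push Not at hcon
  nlinarith

/-- Lower bound `x j ≥ (1/2) x N e^(c (2N-1-j) δ)`, `j = N + i`. -/
lemma Str.np_low (h : Str x τ σ d) {n N : ℕ} {δ e : ℝ} (hn : Np d n N δ e) {i : ℕ}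
    (hi : i + 1 ≤ N) :
    1 / 2 * x N * Real.exp (Real.log 2 * δ * ((N : ℝ) - 1 - i)) ≤ x (N + i) := by
  obtain ⟨m, hm⟩ : ∃ m, N = i + 1 + m := ⟨N - (i + 1), by omega⟩
  have hmr : (N : ℝ) - 1 - i = m := by rw [hm]; push_cast; ring
  have h1 := h.half (t := N) (by omega)
  have h2 := h.le (i := 2 * N - 1) (j := 2 * N) (by omega) (by omega)
  have h3 := hn.h1
  have h4 := h.chain_pow hn.dn (t := N + i) (by omega) m (by omega)
  rw [show N + i + m = 2 * N - 1 by omega] at h4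
  rw [hmr]
  have h5 : 1 / 2 * x N ≤ Real.exp (-(Real.log 2 * δ * m)) * x (N + i) := by linarith
  have h6 := mul_le_mul_of_nonneg_left h5 (Real.exp_pos (Real.log 2 * δ * m)).le
  have h7 : Real.exp (Real.log 2 * δ * m) * (Real.exp (-(Real.log 2 * δ * m)) * x (N + i)) =
      x (N + i) := by
    rw [← mul_assoc, ← Real.exp_add]; simp
  rw [h7] at h6
  linarith

/-- `(N - 1) δ ≤ 1`. -/
lemma Str.np_delta (h : Str x τ σ d) {n N : ℕ} {δ e : ℝ} (hn : Np d n N δ e) :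
    ((N : ℝ) - 1) * δ ≤ 1 := by
  have hN := hn.N_ge
  have hN1 : 1 ≤ N := by
    have : (1 : ℝ) ≤ N := by linarith
    exact_mod_cast this
  have h1 := h.np_low hn (i := 0) (by omega)
  rw [Nat.add_zero] at h1
  have h2 := h.pos hN1
  have h3 : Real.exp (Real.log 2 * δ * ((N : ℝ) - 1 - (0 : ℕ))) ≤ 2 := by
    by_contra hcon
    push Not at hcon
    have h5 : 1 / 2 * x N * 2 < 1 / 2 * x N *
        Real.exp (Real.log 2 * δ * ((N : ℝ) - 1 - (0 : ℕ))) :=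
      mul_lt_mul_of_pos_left hcon (by linarith)
    linarith
  have h4 : Real.exp (Real.log 2 * δ * ((N : ℝ) - 1 - (0 : ℕ))) ≤ Real.exp (Real.log 2) := by
    rw [Real.exp_log (by norm_num)]; exact h3
  rw [Real.exp_le_exp] at h4
  have hc := log_two_pos
  push_cast at h4
  by_contra hcon
  push Not at hcon
  nlinarith

lemma Str.np_small (h : Str x τ σ d) {n N : ℕ} {δ e : ℝ} (hn : Np d n N δ e) :
    δ ≤ 11 / 10 * e ∧ N * δ ≤ 1 + 11 / 10 * e := by
  have h1 := h.np_delta hn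
  have hN := hn.N_ge
  have h2 := hn.big
  have h3 := hn.e0
  have h4 := hn.e1
  have h5 : δ ≤ 11 / 10 * e := by
    by_contra hcon
    push Not at hcon
    have h6 : ((N : ℝ) - 1) * (11 / 10 * e) < ((N : ℝ) - 1) * δ :=
      mul_lt_mul_of_pos_left hcon (by linarith)
    nlinarith
  exact ⟨h5, by linarith⟩

end Pool.H17.SP
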