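import Pool.Agent.H17.SP.NpB

/-!
[H17 SP NPC] MP_eb524a_co, Q1 (full answer). Step 1: the waste at a near perfect time.
np_waste. If N is not crossing, W = 0 (W_eq_zero). Put E = Ico 1 (2N) minus Ch N, D = Ch N minus
Ico 1 (2N); both have the same size m ≤ N (every k in E is a child of some u ≥ N, proof of
Str.crossing_low, so k > N and E ⊆ Ico (N+1) (2N)), W = sum_E x - sum_D x
(sum_sdiff_sub_sum_sdiff). For z in D: `x z ≥ x N / 2` (Str.lt_two). For k in E with parent u,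
N ≤ u < k ≤ 2N - 1: `x k ≤ x (τ u) = x u - x (σ u) ≤ x u - x (u+1) / 2` (Str.lt_two_sig). With
y = exp(-c δ (u - N)) ≤ 1, `x u ≤ y x N` (Str.chain_pow) and, by np_low at u + 1 ≤ 2N - 1,
`x (u+1) ≥ (1/2) x N exp(c δ (2N - 2 - u)) = (1/2) x N exp(c δ (N-2)) y`, and
`exp(c δ (N - 2)) ≥ exp(c (1 - e - 2.2 e)) = 2 exp(-3.2 c e) ≥ 2 (1 - 3.2 e)`. So
`x k ≤ x N y (1 - (1/2)(1 - 3.2 e)) ≤ x N (1/2 + 1.6 e)` and W ≤ m 1.6 e x N ≤ 2 e N x N.
-/

namespace Pool.H17.SP

open Finset Filter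
open Pool.Agent.H36.Split

variable {x : ℕ → ℝ} {τ σ : ℕ → ℕ} {d : ℕ → ℝ}

/-- The key estimate: a late piece is at most `x N (1/2 + 2e)`. -/
lemma Str.np_late (h : Str x τ σ d) {n N : ℕ} {δ e : ℝ} (hn : Np d n N δ e) {k u : ℕ}
    (hu : N ≤ u) (huk : u < k) (hk : k < 2 * N) (hku : k = τ u ∨ k = σ u) :
    x k ≤ x N * (1 / 2 + 2 * e) := by
  have hN := hn.N_ge
  have hN1 : 1 ≤ N := by
    have : (1 : ℝ) ≤ N := by linarith
    exact_mod_cast this
  obtain ⟨s1, s2⟩ := h.np_small hn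
  have s3 := hn.le
  have s4 := hn.e0
  have s5 := hn.e1
  have s6 := hn.δ0
  have hc := log_two_pos
  have hc2 : Real.log 2 ≤ 7 / 10 := by have := Real.log_two_lt_d9; linarith
  have f1 : x k ≤ x (τ u) := by
    rcases hku with hku | hku
    · rw [hku]
    · rw [hku]; exact (h.lt (h.tau_pos (by omega)) (h.sig_gt (by omega))).le
  have hsp := h.cut.split u (by omega)
  have hsn := h.lt_two_sig (t := u) (by omega)
  obtain ⟨m, rfl⟩ : ∃ m, u = N + m := ⟨u - N, by omega⟩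
  have hn1 := hn.h1
  have f2 := h.chain_pow hn.dn (t := N) (by omega) m (by omega)
  have f3 := h.np_low hn (i := m + 1) (by omega)
  rw [show N + (m + 1) = N + m + 1 by ring] at f3
  have xN := h.pos hN1
  have hm0 : (0 : ℝ) ≤ m := Nat.cast_nonneg m
  -- the exponent
  have e1 : Real.exp (Real.log 2 * δ * ((N : ℝ) - 1 - ((m + 1 : ℕ) : ℝ))) =
      Real.exp (Real.log 2 * δ * ((N : ℝ) - 2)) * Real.exp (-(Real.log 2 * δ * m)) := by
    rw [← Real.exp_add]
    congr 1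
    push_cast
    ring
  have e2 : 2 * (1 - 16 / 5 * e) ≤ Real.exp (Real.log 2 * δ * ((N : ℝ) - 2)) := by
    have g1 : Real.log 2 - 16 / 5 * e ≤ Real.log 2 * δ * ((N : ℝ) - 2) := by
      have g2 : 1 - 16 / 5 * e ≤ δ * ((N : ℝ) - 2) := by linarith
      have g3 := mul_le_mul_of_nonneg_left g2 hc.le
      nlinarith
    have g4 := Real.exp_le_exp.mpr g1
    have g5 : Real.exp (Real.log 2 - 16 / 5 * e) = 2 * Real.exp (-(16 / 5 * e)) := by
      rw [sub_eq_add_neg, Real.exp_add, Real.exp_log (by norm_num)]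
    have g6 := Real.add_one_le_exp (-(16 / 5 * e))
    rw [g5] at g4
    linarith
  have y0 := Real.exp_pos (-(Real.log 2 * δ * m))
  have y1 : Real.exp (-(Real.log 2 * δ * m)) ≤ 1 := by
    rw [Real.exp_le_one_iff]
    have : 0 ≤ Real.log 2 * δ * m := by positivity
    linarith
  rw [e1] at f3
  set y := Real.exp (-(Real.log 2 * δ * m)) with hy
  set F := Real.exp (Real.log 2 * δ * ((N : ℝ) - 2)) with hF
  have g7 : 1 / 2 * x N * (2 * (1 - 16 / 5 * e) * y) ≤ 1 / 2 * x N * (F * y) :=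
    mul_le_mul_of_nonneg_left (mul_le_mul_of_nonneg_right e2 y0.le) (by positivity)
  have g8 : x k ≤ x N * y * (1 / 2 + 8 / 5 * e) := by
    have e3 : y * x N - 1 / 2 * (1 / 2 * x N * (2 * (1 - 16 / 5 * e) * y)) =
        x N * y * (1 / 2 + 8 / 5 * e) := by ring
    linarith
  have g9 : x N * y * (1 / 2 + 8 / 5 * e) ≤ x N * 1 * (1 / 2 + 2 * e) := by
    apply mul_le_mul _ (by linarith) (by linarith) (by positivity)
    exact mul_le_mul_of_nonneg_left y1 xN.le
  linarith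

/-- The waste at `N` is small. -/
lemma Str.np_waste (h : Str x τ σ d) {n N : ℕ} {δ e : ℝ} (hn : Np d n N δ e) :
    W x τ σ N ≤ 2 * e * (N * x N) := by
  classical
  have hN := hn.N_ge
  have hN1 : 1 ≤ N := by
    have : (1 : ℝ) ≤ N := by linarith
    exact_mod_cast this
  have s4 := hn.e0
  have xN := h.pos hN1
  set E := Finset.Ico 1 (2 * N) \ Ch τ σ N with hE
  set D := Ch τ σ N \ Finset.Ico 1 (2 * N) with hD
  have e1 := sum_sdiff_sub_sum_sdiff (s₁ := Ch τ σ N) (s₂ := Finset.Ico 1 (2 * N)) (f := x)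
  have c1 : E.card = D.card := by
    have a1 := card_sdiff_add_card_inter (Finset.Ico 1 (2 * N)) (Ch τ σ N)
    have a2 := card_sdiff_add_card_inter (Ch τ σ N) (Finset.Ico 1 (2 * N))
    rw [inter_comm (Ch τ σ N), h.card_Ch hN1, ← hD] at a2
    rw [Nat.card_Ico, ← hE] at a1
    omega
  have c2 : E.card ≤ N := by
    have hsub : E ⊆ Finset.Ico (N + 1) (2 * N) := by
      intro k hk
      rw [hE, Finset.mem_sdiff, mem_Ico] at hk
      obtain ⟨⟨k1, k2⟩, k3⟩ := hk
      rw [mem_Ico]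
      refine ⟨?_, k2⟩
      have hk2 : 2 ≤ k := by
        by_contra h2
        exact k3 (mem_Ch.mpr (Or.inl (by omega)))
      obtain ⟨u, hu, huk, he⟩ := h.cut.surj k hk2
      have hut : N ≤ u := by
        by_contra hut
        exact k3 (mem_Ch.mpr (Or.inr ⟨u, hu, by omega, he⟩))
      omega
    have := card_le_card hsub
    rw [Nat.card_Ico] at this
    omega
  have g1 : ∑ k ∈ E, x k ≤ E.card • (x N * (1 / 2 + 2 * e)) := by
    apply sum_le_card_nsmul
    intro k hk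
    rw [hE, Finset.mem_sdiff, mem_Ico] at hk
    obtain ⟨⟨k1, k2⟩, k3⟩ := hk
    have hk2 : 2 ≤ k := by
      by_contra h2
      exact k3 (mem_Ch.mpr (Or.inl (by omega)))
    obtain ⟨u, hu, huk, he⟩ := h.cut.surj k hk2
    have hut : N ≤ u := by
      by_contra hut
      exact k3 (mem_Ch.mpr (Or.inr ⟨u, hu, by omega, he⟩))
    exact h.np_late hn hut huk k2 he
  have g2 : D.card • (x N / 2) ≤ ∑ k ∈ D, x k := by
    apply card_nsmul_le_sum
    intro k hk
    rw [hD, Finset.mem_sdiff] at hk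
    have := h.lt_two hN1 hk.1
    linarith
  rw [nsmul_eq_mul] at g1 g2
  rw [← c1] at g2
  have g3 : (E.card : ℝ) ≤ N := by exact_mod_cast c2
  have g4 : (E.card : ℝ) * (x N * (2 * e)) ≤ N * (x N * (2 * e)) :=
    mul_le_mul_of_nonneg_right g3 (by positivity)
  unfold W
  linarith

end Pool.H17.SP
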