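import Pool.Agent.H17.SP.NpDa

/-!
Step 1: the lower bound for the mass at a near perfect time (see NpDa.lean).
-/

namespace Pool.H17.SP

open Finset Filter
open Pool.Agent.H36.Split

variable {x : ℕ → ℝ} {τ σ : ℕ → ℕ} {d : ℕ → ℝ}

/-- `N x_N ≥ 2c (1 - 10 e)`. -/
lemma Str.np_mass_ge (h : Str x τ σ d) {n N : ℕ} {δ e : ℝ} (hn : Np d n N δ e) :
    2 * Real.log 2 * (1 - 10 * e) ≤ N * x N := by
  have hN := hn.N_ge
  have hN1 : 1 ≤ N := by
    have : (1 : ℝ) ≤ N := by linarith
    exact_mod_cast this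
  obtain ⟨s1, s2⟩ := h.np_small hn
  have s3 := hn.le
  have s4 := hn.e0
  have s5 := hn.e1
  have s6 := hn.δ0
  have hc := log_two_pos
  have hc2 : Real.log 2 ≤ 7 / 10 := by have := Real.log_two_lt_d9; linarith
  have xN := h.pos hN1
  have hW := h.W_nonneg hN1
  have hS := h.sum_eq hN1
  have hn1 := hn.h1
  set c := Real.log 2 with hcd
  set y := c * δ with hy
  have y0 : 0 < y := by positivity
  have y1 : y ≤ e := by
    have := mul_le_mul hc2 s1 s6.le (by norm_num)
    linarith
  have he2 : e * e ≤ 1 / 1000 * e := mul_le_mul_of_nonneg_right s5 s4.le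
  have hce : c * e ≤ 7 / 10 * e := mul_le_mul_of_nonneg_right hc2 s4.le
  set r := Real.exp (-y) with hr
  set G := ∑ i ∈ Finset.range N, r ^ i with hG
  have hgeo : G * (r - 1) = r ^ N - 1 := geom_sum_mul r N
  have hrN : r ^ N = Real.exp (-(y * N)) := by
    rw [hr, ← Real.exp_nat_mul]; congr 1; ring
  have h1 : 1 / 2 * (1 - e) ≤ r ^ N := by
    rw [hrN]
    have g1 : -c - e ≤ -(y * N) := by
      have : c * (N * δ) ≤ c * (1 + 11 / 10 * e) := mul_le_mul_of_nonneg_left s2 hc.le
      have e1 : y * N = c * (N * δ) := by rw [hy]; ring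
      linarith
    have g2 := Real.exp_le_exp.mpr g1
    have g3 : Real.exp (-c - e) = 1 / 2 * Real.exp (-e) := by
      rw [sub_eq_add_neg, Real.exp_add, hcd, Real.exp_neg, Real.exp_log (by norm_num)]
      norm_num
    have g4 := Real.add_one_le_exp (-e)
    rw [g3] at g2
    linarith
  have h2 : y * (1 - e) ≤ 1 - r := by
    have g1 := exp_neg_quad y0.le
    have g2 : y * y ≤ y * e := mul_le_mul_of_nonneg_left y1 y0.le
    have g3 : 0 ≤ y * e := by positivity
    have e1 : y ^ 2 = y * y := by ring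
    rw [e1] at g1
    linarith
  have hG0 : 0 ≤ G := sum_nonneg fun i _ => by positivity
  have h3 : G * (y * (1 - e)) ≤ 1 / 2 * (1 + e) := by
    have g1 : G * (y * (1 - e)) ≤ G * (1 - r) := mul_le_mul_of_nonneg_left h2 hG0
    linarith
  have h4 : G * (c * (1 - e) * (1 - e)) ≤ 1 / 2 * (1 + e) * N := by
    have g1 : G * (y * (1 - e)) * N ≤ 1 / 2 * (1 + e) * N :=
      mul_le_mul_of_nonneg_right h3 (by linarith)
    have g2 : G * (y * (1 - e)) * N = G * (c * (N * δ) * (1 - e)) := by rw [hy]; ring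
    have g3 : c * (1 - e) * (1 - e) ≤ c * (N * δ) * (1 - e) := by
      apply mul_le_mul_of_nonneg_right _ (by linarith)
      exact mul_le_mul_of_nonneg_left s3 hc.le
    have g4 := mul_le_mul_of_nonneg_left g3 hG0
    linarith
  have h5 : 1 ≤ x N * G := by
    have g1 : ∑ i ∈ Finset.range N, x (N + i) ≤ x N * G := by
      rw [hG, mul_sum]
      apply sum_le_sum
      intro i hi
      rw [mem_range] at hi
      have g2 := h.chain_pow hn.dn (t := N) (by omega) i (by omega)
      have g3 : r ^ i = Real.exp (-(c * δ * i)) := by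
        rw [hr, ← Real.exp_nat_mul, ← hy]; congr 1; ring
      rw [g3]
      linarith
    linarith
  set X := (N : ℝ) * x N with hX
  have h6 : 2 * c * ((1 - e) * (1 - e)) ≤ X * (1 + e) := by
    have g1 : x N * (G * (c * (1 - e) * (1 - e))) ≤ x N * (1 / 2 * (1 + e) * N) :=
      mul_le_mul_of_nonneg_left h4 xN.le
    have g2 : 1 * (c * (1 - e) * (1 - e)) ≤ x N * G * (c * (1 - e) * (1 - e)) := by
      apply mul_le_mul_of_nonneg_right h5
      have : 0 ≤ 1 - e := by linarith
      positivity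
    have g3 : x N * (1 / 2 * (1 + e) * N) = 1 / 2 * (X * (1 + e)) := by rw [hX]; ring
    linarith
  by_contra hcon
  push Not at hcon
  have g1 : X * (1 + e) < 2 * c * (1 - 10 * e) * (1 + e) :=
    mul_lt_mul_of_pos_right hcon (by linarith)
  have g2 : (1 - 10 * e) * (1 + e) ≤ (1 - e) * (1 - e) := by
    have : 0 ≤ e * e := by positivity
    linarith
  have g3 := mul_le_mul_of_nonneg_left g2 (show 0 ≤ 2 * c by positivity)
  linarith

end Pool.H17.SP
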