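import Pool.Agent.H17.SP.NpC

/-!
[H17 SP NPD] MP_eb524a_co, Q1 (full answer). Step 1: the mass at a near perfect time.
Str.W_eq: `sum_(i<N) x (N+i) = P (2N) - P N = 1 + W_N`. c = log 2 in (0.69, 0.7), e ≤ 1/1000,
`δ ≤ 1.1 e`, `1 - e ≤ N δ ≤ 1 + 1.1 e` (np_small).
np_mass_le: with np_low, `1 + W_N ≥ (1/2) x N sum_(i<N) exp(c δ)^i` (reindex i -> N-1-i)
`= (1/2) x N (exp(c δ N) - 1)/(exp(c δ) - 1)`; `exp(c N δ) ≥ 2 exp(-c e) ≥ 2 (1 - e)`, so the
numerator is `≥ 1 - 2e`; `exp(c δ) - 1 ≤ c δ (1 + c δ)` (c δ ≤ 1). So the sum is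
`≥ (1 - 2e)/(c δ (1 + c δ)) ≥ N (1 - 2e) / (c (1 + 1.1e) (1 + e))`. With W_N ≤ 2 e N x_N (np_waste)
and X = N x_N: `X (1 - 4.2 e) / (2c) ≤ 1 + 2 e X`, which gives `X ≤ 2c (1 + 10 e)`.
np_mass_ge: `1 ≤ 1 + W_N ≤ x N sum_(i<N) exp(-c δ)^i = x N (1 - exp(-c δ N))/(1 - exp(-c δ))`
(Str.chain_pow), `exp(-c δ N) ≥ (1/2) exp(-1.1 c e) ≥ (1/2)(1 - e)`,
`1 - exp(-c δ) ≥ c δ - (c δ)^2/2 ≥ c δ (1 - e)` and `c δ ≥ c (1-e)/N`. So
`1 ≤ x N (1/2)(1 + e) N / (c (1-e)^2)`.
-/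

namespace Pool.H17.SP

open Finset Filter
open Pool.Agent.H36.Split

variable {x : ℕ → ℝ} {τ σ : ℕ → ℕ} {d : ℕ → ℝ}

lemma exp_neg_quad {y : ℝ} (hy : 0 ≤ y) : Real.exp (-y) ≤ 1 - y + y ^ 2 / 2 := by
  have h := Real.quadratic_le_exp_of_nonneg hy
  have h1 := Real.exp_pos y
  have h2 : Real.exp (-y) * Real.exp y = 1 := by rw [← Real.exp_add]; simp
  have h3 : (1 - y + y ^ 2 / 2) * (1 + y + y ^ 2 / 2) ≤ (1 - y + y ^ 2 / 2) * Real.exp y :=
    mul_le_mul_of_nonneg_left h (by nlinarith [sq_nonneg (1 - y)])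
  have h4 : 1 ≤ (1 - y + y ^ 2 / 2) * (1 + y + y ^ 2 / 2) := by
    have e1 : (1 - y + y ^ 2 / 2) * (1 + y + y ^ 2 / 2) = 1 + y ^ 4 / 4 := by ring
    rw [e1]
    have : 0 ≤ y ^ 4 := by positivity
    linarith
  have h5 : Real.exp (-y) * Real.exp y ≤ (1 - y + y ^ 2 / 2) * Real.exp y := by linarith
  exact le_of_mul_le_mul_right h5 h1

lemma Str.sum_eq (h : Str x τ σ d) {N : ℕ} (hN : 1 ≤ N) :
    ∑ i ∈ Finset.range N, x (N + i) = 1 + W x τ σ N := by
  have h1 := h.W_eq hN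
  have h2 : P x (2 * N) = P x N + ∑ j ∈ Finset.Ico N (2 * N), x j := by
    unfold P
    exact (sum_Ico_consecutive _ hN (by omega)).symm
  rw [sum_Ico_eq_sum_range, show 2 * N - N = N by omega] at h2
  linarith

/-- `N x_N ≤ 2c (1 + 10 e)`. -/
lemma Str.np_mass_le (h : Str x τ σ d) {n N : ℕ} {δ e : ℝ} (hn : Np d n N δ e) :
    N * x N ≤ 2 * Real.log 2 * (1 + 10 * e) := by
  have hN := hn.N_ge
  have hN1 : 1 ≤ N := by
    have : (1 : ℝ) ≤ N := by linarith
    exact_mod_cast this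
  obtain ⟨s1, s2⟩ := h.np_small hn
  have s3 := hn.le
  have s4 := hn.e0
  have s5 := hn.e1
  have s6 := hn.δ0
  have hc := log_two_pos
  have hc2 : Real.log 2 ≤ 7 / 10 := by have := Real.log_two_lt_d9; linarith
  have xN := h.pos hN1
  have hW := h.np_waste hn
  have hS := h.sum_eq hN1
  set c := Real.log 2 with hcd
  set y := c * δ with hy
  have y0 : 0 < y := by positivity
  have y1 : y ≤ e := by
    have := mul_le_mul hc2 s1 s6.le (by norm_num)
    linarith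
  have he2 : e * e ≤ 1 / 1000 * e := mul_le_mul_of_nonneg_right s5 s4.le
  have hce : c * e ≤ 7 / 10 * e := mul_le_mul_of_nonneg_right hc2 s4.le
  set r := Real.exp y with hr
  -- the geometric sum
  set G := ∑ i ∈ Finset.range N, r ^ i with hG
  have hgeo : G * (r - 1) = r ^ N - 1 := geom_sum_mul r N
  have hrN : r ^ N = Real.exp (y * N) := by rw [hr, ← Real.exp_nat_mul, mul_comm]
  have h1 : 2 * (1 - e) ≤ r ^ N := by
    rw [hrN]
    have g1 : c - e ≤ y * N := by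
      have : c * (1 - e) ≤ c * (N * δ) := mul_le_mul_of_nonneg_left s3 hc.le
      have e1 : y * N = c * (N * δ) := by rw [hy]; ring
      linarith
    have g2 := Real.exp_le_exp.mpr g1
    have g3 : Real.exp (c - e) = 2 * Real.exp (-e) := by
      rw [sub_eq_add_neg, Real.exp_add, hcd, Real.exp_log (by norm_num)]
    have g4 := Real.add_one_le_exp (-e)
    rw [g3] at g2
    linarith
  have h2 : r ≤ 1 + y * (1 + 2 * y) := by
    apply exp_le_aux
    · linarith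
    · have : 0 ≤ y ^ 2 * (1 - 2 * y) := mul_nonneg (sq_nonneg y) (by linarith)
      have e1 : (1 + y * (1 + 2 * y)) * (1 - y) = 1 + y ^ 2 * (1 - 2 * y) := by ring
      linarith
  have hG0 : 0 ≤ G := sum_nonneg fun i _ => by positivity
  have h3 : 1 - 2 * e ≤ G * (y * (1 + 2 * e)) := by
    have g1 : G * (r - 1) ≤ G * (y * (1 + 2 * e)) := by
      apply mul_le_mul_of_nonneg_left _ hG0
      have : y * (1 + 2 * y) ≤ y * (1 + 2 * e) := mul_le_mul_of_nonneg_left (by linarith) y0.le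
      linarith
    linarith
  -- multiply by `N`
  have h4 : N * (1 - 2 * e) ≤ G * (c * (1 + 16 / 5 * e)) := by
    have g1 : N * (1 - 2 * e) ≤ N * (G * (y * (1 + 2 * e))) :=
      mul_le_mul_of_nonneg_left h3 (by linarith)
    have g2 : N * (G * (y * (1 + 2 * e))) = G * (c * (N * δ) * (1 + 2 * e)) := by
      rw [hy]; ring
    have g3 : c * (N * δ) * (1 + 2 * e) ≤ c * (1 + 16 / 5 * e) := by
      have g4 : (N * δ) * (1 + 2 * e) ≤ (1 + 11 / 10 * e) * (1 + 2 * e) :=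
        mul_le_mul_of_nonneg_right s2 (by linarith)
      have g5 : (1 + 11 / 10 * e) * (1 + 2 * e) ≤ 1 + 16 / 5 * e := by linarith
      have g6 := mul_le_mul_of_nonneg_left (g4.trans g5) hc.le
      linarith
    have g7 := mul_le_mul_of_nonneg_left g3 hG0
    linarith
  -- lower bound for the sum
  have h5 : 1 / 2 * x N * G ≤ 1 + W x τ σ N := by
    rw [← hS, hG, ← Finset.sum_range_reflect (fun i => r ^ i) N, mul_sum]
    apply sum_le_sum
    intro i hi
    rw [mem_range] at hi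
    have g1 := h.np_low hn (i := i) (by omega)
    have g2 : r ^ (N - 1 - i) = Real.exp (c * δ * ((N : ℝ) - 1 - i)) := by
      rw [hr, ← Real.exp_nat_mul, ← hy]
      congr 1
      rw [Nat.cast_sub (by omega), Nat.cast_sub (by omega)]
      push_cast
      ring
    rw [g2]
    exact g1
  set X := (N : ℝ) * x N with hX
  have hX0 : 0 < X := by positivity
  have h6 : 1 / 2 * X * (1 - 2 * e) ≤ (1 + 2 * e * X) * (c * (1 + 16 / 5 * e)) := by
    have g1 : 1 / 2 * x N * (N * (1 - 2 * e)) ≤ 1 / 2 * x N * (G * (c * (1 + 16 / 5 * e))) :=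
      mul_le_mul_of_nonneg_left h4 (by positivity)
    have g2 : 1 / 2 * x N * G * (c * (1 + 16 / 5 * e)) ≤
        (1 + 2 * e * X) * (c * (1 + 16 / 5 * e)) :=
      mul_le_mul_of_nonneg_right (by linarith) (by positivity)
    have g3 : 1 / 2 * X * (1 - 2 * e) = 1 / 2 * x N * (N * (1 - 2 * e)) := by rw [hX]; ring
    have g4 : 1 / 2 * x N * (G * (c * (1 + 16 / 5 * e))) =
      1 / 2 * x N * G * (c * (1 + 16 / 5 * e)) := by ring
    linarith
  -- conclusion
  have h7 : c * (1 + 16 / 5 * e) ≤ 71 / 100 := by linarith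
  have h8 : X * (1 - 5 * e) ≤ 2 * c * (1 + 16 / 5 * e) := by
    have g1 : 2 * e * X * (c * (1 + 16 / 5 * e)) ≤ 2 * e * X * (71 / 100) :=
      mul_le_mul_of_nonneg_left h7 (by positivity)
    have g2 : 0 ≤ e * X := by positivity
    linarith
  by_contra hcon
  push Not at hcon
  have g1 : 2 * c * (1 + 10 * e) * (1 - 5 * e) < X * (1 - 5 * e) :=
    mul_lt_mul_of_pos_right hcon (by linarith)
  have g2 : 1 + 16 / 5 * e ≤ (1 + 10 * e) * (1 - 5 * e) := by linarith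
  have g3 := mul_le_mul_of_nonneg_left g2 (show 0 ≤ 2 * c by positivity)
  linarith

end Pool.H17.SP
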