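import Pool.Agent.H17.SP.NpA

/-!
[H17 SP NU] MP_eb524a_co, Q1 (full answer). Compactness. For k choose (n_k, N_k, δ_k) with
e_k = 1/(1000 + k), N_k ≥ k + 1; f_k = N_k / 2^(Nat.log 2 N_k) lies in [1, 2], so a subsequence
converges to some ν in [1, 2] (isCompact_Icc.tendsto_subseq). Given e, K take k in the subsequence
with k ≥ K, e_k ≤ e and |f_k / ν - 1| ≤ e; ρ = f_k / ν, g = Nat.log 2 N_k; Np d n N δ e_k implies
Np d n N δ e for e_k ≤ e ≤ 1/1000.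
-/

namespace Pool.H17.SP

open Finset Filter
open Pool.Agent.H36.Split

variable {x : ℕ → ℝ} {τ σ : ℕ → ℕ} {d : ℕ → ℝ}

lemma Np.mono {n N : ℕ} {δ e e' : ℝ} (hn : Np d n N δ e) (h : e ≤ e') (h' : e' ≤ 1 / 1000) :
    Np d n N δ e' where
  h1 := hn.h1
  h2 := hn.h2
  e0 := hn.e0.trans_le h
  e1 := h'
  big := hn.big.trans (mul_le_mul_of_nonneg_right h (Nat.cast_nonneg N))
  δ0 := hn.δ0
  le := by have := hn.le; linarith
  dn := hn.dn

/-- Compactness: the numbers `N / 2^(log2 N)` have a limit point `ν`. -/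
lemma exists_nu (hnp : ∀ e : ℝ, 0 < e → e ≤ 1 / 1000 → ∀ K : ℕ, ∃ n N : ℕ, ∃ δ : ℝ,
      K ≤ N ∧ Np d n N δ e) :
    ∃ ν : ℝ, 1 ≤ ν ∧ ν ≤ 2 ∧ ∀ e : ℝ, 0 < e → e ≤ 1 / 1000 → ∀ K : ℕ, ∃ n N : ℕ, ∃ δ ρ : ℝ,
      ∃ g : ℤ, K ≤ N ∧ Np d n N δ e ∧ (N : ℝ) = (ν * (2 : ℝ) ^ g) * ρ ∧ 1 - e ≤ ρ ∧
        ρ ≤ 1 + e := by
  have hek : ∀ k : ℕ, (0 : ℝ) < 1 / (1000 + (k : ℝ)) ∧ 1 / (1000 + (k : ℝ)) ≤ 1 / 1000 := by
    intro k
    have hk : (0 : ℝ) ≤ k := Nat.cast_nonneg k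
    refine ⟨by positivity, ?_⟩
    apply one_div_le_one_div_of_le (by norm_num)
    linarith
  choose n N δ hK hNp using fun k : ℕ => hnp (1 / (1000 + (k : ℝ))) (hek k).1 (hek k).2 (k + 1)
  set f : ℕ → ℝ := fun k => (N k : ℝ) / 2 ^ (Nat.log 2 (N k)) with hf
  have hf1 : ∀ k, f k ∈ Set.Icc (1 : ℝ) 2 := by
    intro k
    have hN0 : N k ≠ 0 := by have := hK k; omega
    have h1 : 2 ^ (Nat.log 2 (N k)) ≤ N k := Nat.pow_log_le_self 2 hN0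
    have h2 : N k < 2 ^ (Nat.log 2 (N k) + 1) := Nat.lt_pow_succ_log_self (by norm_num) _
    have h1' : (2 : ℝ) ^ (Nat.log 2 (N k)) ≤ N k := by exact_mod_cast h1
    have h2' : (N k : ℝ) < (2 : ℝ) ^ (Nat.log 2 (N k) + 1) := by exact_mod_cast h2
    have hp : (0 : ℝ) < 2 ^ (Nat.log 2 (N k)) := by positivity
    rw [Set.mem_Icc]
    constructor
    · rw [hf, le_div_iff₀ hp]; linarith
    · rw [hf, div_le_iff₀ hp]; rw [pow_succ] at h2'; linarith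
  obtain ⟨ν, hν, φ, hφ, hlim⟩ := isCompact_Icc.tendsto_subseq hf1
  rw [Set.mem_Icc] at hν
  have hν0 : 0 < ν := by linarith
  refine ⟨ν, hν.1, hν.2, ?_⟩
  intro e he he1 K
  -- the ratio tends to one
  have h1 : Tendsto (fun k => f (φ k) / ν) atTop (nhds 1) := by
    have := hlim.div_const ν
    rwa [div_self hν0.ne'] at this
  have h2 : ∀ᶠ k in atTop, f (φ k) / ν ∈ Set.Icc (1 - e) (1 + e) :=
    h1.eventually (Icc_mem_nhds (by linarith) (by linarith))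
  obtain ⟨M, hM⟩ := exists_nat_gt (1 / e)
  obtain ⟨k, hk1, hk2⟩ := (h2.and (eventually_ge_atTop (max K M))).exists
  have hkφ : k ≤ φ k := hφ.le_apply
  have hkK : K ≤ k := (le_max_left _ _).trans hk2
  have hkM : M ≤ k := (le_max_right _ _).trans hk2
  have hNp' := (hNp (φ k)).mono (e' := e) (by
    have h3 : (M : ℝ) ≤ φ k := by exact_mod_cast hkM.trans hkφ
    have h4 : 1 / e < 1000 + (φ k : ℝ) := by linarith
    rw [div_lt_iff₀ he] at h4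
    rw [div_le_iff₀ (by positivity)]
    linarith) he1
  refine ⟨n (φ k), N (φ k), δ (φ k), f (φ k) / ν, (Nat.log 2 (N (φ k)) : ℤ), ?_, hNp', ?_,
    hk1.1, hk1.2⟩
  · have := hK (φ k)
    omega
  · rw [zpow_natCast, hf]
    field_simp

end Pool.H17.SP
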